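import Pool.Agent.Work.MP_85d607_co.Core

/-!
# Number of cycles of `swap a b * π`
-/

namespace Hopper

open Equiv

/-- lower bound for the number of cycles by an invariant function -/
theorem le_ncyc_of_surj {D Q : Type} [Finite D] [Finite Q] (π : Perm D) (c : D → Q)
    (hc : ∀ d, c (π d) = c d) (hs : Function.Surjective c) : Nat.card Q ≤ ncyc π := by
  have hpow : ∀ (n : ℕ) (d : D), c ((π ^ n) d) = c d := by
    intro n
    induction n with
    | zero => intro d; simp
    | succ n ih => intro d; rw [pow_succ, Perm.mul_apply, ih, hc]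
  let f : Quotient (Perm.SameCycle.setoid π) → Q := Quotient.lift c (by
    intro x y (h : π.SameCycle x y)
    obtain ⟨n, hn⟩ := h.exists_nat_pow_eq
    rw [← hn, hpow])
  have hf : Function.Surjective f := by
    intro q
    obtain ⟨d, hd⟩ := hs q
    exact ⟨Quotient.mk _ d, hd⟩
  exact Nat.card_le_card_of_surjective f hf

/-- gluing one pair decreases the number of classes by at most one -/
theorem card_glue {D : Type} [Finite D] (s t : Setoid D) (a b : D)
    (h : ∀ x y, t x y → s x y ∨ (s x a ∧ s y b) ∨ (s x b ∧ s y a)) (hst : s ≤ t) :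
    Nat.card (Quotient s) ≤ Nat.card (Quotient t) + 1 := by
  classical
  let m : Quotient s → Quotient t := Quotient.map' (s₁ := s) (s₂ := t) id (fun x y hxy => hst hxy)
  let f : Quotient s → Option (Quotient t) := fun q =>
    if q = Quotient.mk s b then none else some (m q)
  have hf : Function.Injective f := by
    intro q q' hq
    by_cases h1 : q = Quotient.mk s b
    · by_cases h2 : q' = Quotient.mk s b
      · rw [h1, h2]
      · simp only [f, if_pos h1, if_neg h2] at hq
        exact absurd hq (by simp)
    · by_cases h2 : q' = Quotient.mk s b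
      · simp only [f, if_neg h1, if_pos h2] at hq
        exact absurd hq (by simp)
      · simp only [f, if_neg h1, if_neg h2, Option.some.injEq] at hq
        induction q using Quotient.inductionOn with
        | _ x =>
          induction q' using Quotient.inductionOn with
          | _ y =>
            have hxy : t x y := Quotient.exact hq
            rcases h x y hxy with h3 | ⟨-, h3⟩ | ⟨h3, -⟩
            · exact Quotient.sound h3
            · exact absurd (Quotient.sound h3) h2
            · exact absurd (Quotient.sound h3) h1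
  have h1 := Nat.card_le_card_of_injective f hf
  rwa [Finite.card_option] at h1

/-- the glued relation is transitive -/
theorem glue_trans {D : Type} (s : Setoid D) (a b x y z : D)
    (h1 : s x y ∨ (s x a ∧ s y b) ∨ (s x b ∧ s y a))
    (h2 : s y z ∨ (s y a ∧ s z b) ∨ (s y b ∧ s z a)) :
    s x z ∨ (s x a ∧ s z b) ∨ (s x b ∧ s z a) := by
  rcases h1 with h1 | ⟨h1, h1'⟩ | ⟨h1, h1'⟩
  · rcases h2 with h2 | ⟨h2, h2'⟩ | ⟨h2, h2'⟩
    · exact Or.inl (s.trans' h1 h2)
    · exact Or.inr (Or.inl ⟨s.trans' h1 h2, h2'⟩)
    · exact Or.inr (Or.inr ⟨s.trans' h1 h2, h2'⟩)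
  · rcases h2 with h2 | ⟨h2, h2'⟩ | ⟨h2, h2'⟩
    · exact Or.inr (Or.inl ⟨h1, s.trans' (s.symm' h2) h1'⟩)
    · exact Or.inr (Or.inl ⟨h1, h2'⟩)
    · exact Or.inl (s.trans' h1 (s.symm' h2'))
  · rcases h2 with h2 | ⟨h2, h2'⟩ | ⟨h2, h2'⟩
    · exact Or.inr (Or.inr ⟨h1, s.trans' (s.symm' h2) h1'⟩)
    · exact Or.inl (s.trans' h1 (s.symm' h2'))
    · exact Or.inr (Or.inr ⟨h1, h2'⟩)

/-- if `swap a b` composed with `π` preserves the classes of `s`, then the orbits of `π` are
contained in the glued classes -/
theorem glue_of_swap {D : Type} [Finite D] [DecidableEq D] (s : Setoid D) (π : Perm D) (a b : D)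
    (h : ∀ x, s x ((swap a b * π) x)) (x y : D) (hxy : π.SameCycle x y) :
    s x y ∨ (s x a ∧ s y b) ∨ (s x b ∧ s y a) := by
  have step : ∀ x, s x (π x) ∨ (s x a ∧ s (π x) b) ∨ (s x b ∧ s (π x) a) := by
    intro x
    have h1 := h x
    rw [Perm.mul_apply] at h1
    by_cases ha : π x = a
    · rw [ha, swap_apply_left] at h1
      exact Or.inr (Or.inr ⟨h1, by rw [ha]⟩)
    · by_cases hb : π x = b
      · rw [hb, swap_apply_right] at h1
        exact Or.inr (Or.inl ⟨h1, by rw [hb]⟩)
      · rw [swap_apply_of_ne_of_ne ha hb] at h1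
        exact Or.inl h1
  obtain ⟨n, rfl⟩ := hxy.exists_nat_pow_eq
  clear hxy
  induction n with
  | zero => exact Or.inl (s.refl' _)
  | succ n ih =>
    rw [pow_succ', Perm.mul_apply]
    exact glue_trans s a b _ _ _ ih (step _)

theorem sameCycle_step {D : Type} (π : Perm D) (x : D) : π.SameCycle x (π x) := ⟨1, by simp⟩

theorem ncyc_swap_same {D : Type} [Finite D] [DecidableEq D] (π : Perm D) {a b : D}
    (hab : a ≠ b) (h : π.SameCycle a b) :
    ncyc (swap a b * π) = ncyc π + 1 ∧ ¬ (swap a b * π).SameCycle a b := by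
  classical
  -- the new cycle of `a` does not contain `b`
  have hex : ∃ n, 0 < n ∧ (π ^ n) a = b := by
    obtain ⟨n, hn⟩ := h.exists_nat_pow_eq
    refine ⟨n, ?_, hn⟩
    rcases Nat.eq_zero_or_pos n with h0 | h0
    · subst h0
      exact absurd (by simpa using hn) hab
    · exact h0
  have hnot : ¬ (swap a b * π).SameCycle a b := by
    intro hs
    obtain ⟨hk0, hk⟩ := Nat.find_spec hex
    set k := Nat.find hex with hkdef
    have hmin : ∀ m, 0 < m → m < k → (π ^ m) a ≠ b := by
      intro m hm0 hm he
      exact Nat.find_min hex hm ⟨hm0, he⟩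
    have hclosed : ∀ x, (∃ i, i < k ∧ x = (π ^ i) a) → ∃ i, i < k ∧ (swap a b * π) x = (π ^ i) a := by
      rintro x ⟨i, hi, rfl⟩
      have e1 : π ((π ^ i) a) = (π ^ (i + 1)) a := by rw [pow_succ', Perm.mul_apply]
      rw [Perm.mul_apply, e1]
      rcases Nat.lt_or_ge (i + 1) k with h1 | h1
      · refine ⟨i + 1, h1, swap_apply_of_ne_of_ne ?_ (hmin _ (Nat.succ_pos i) h1)⟩
        intro he
        have h2 : (π ^ (k - (i + 1))) a = b := by
          have h3 : (π ^ (k - (i + 1))) ((π ^ (i + 1)) a) = b := by
            rw [← Perm.mul_apply, ← pow_add, Nat.sub_add_cancel h1.le, hk]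
          rwa [he] at h3
        exact hmin _ (by omega) (by omega) h2
      · have h2 : i + 1 = k := by omega
        refine ⟨0, hk0, ?_⟩
        rw [h2, hk, swap_apply_right, pow_zero, Perm.one_apply]
    have hpow : ∀ n : ℕ, ∃ i, i < k ∧ ((swap a b * π) ^ n) a = (π ^ i) a := by
      intro n
      induction n with
      | zero => exact ⟨0, hk0, by simp⟩
      | succ n ih =>
        rw [pow_succ', Perm.mul_apply]
        exact hclosed _ ih
    obtain ⟨n, hn⟩ := hs.exists_nat_pow_eq
    obtain ⟨i, hi, he⟩ := hpow n
    rw [hn] at he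
    rcases Nat.eq_zero_or_pos i with h0 | h0
    · subst h0
      rw [pow_zero, Perm.one_apply] at he
      exact hab he.symm
    · exact hmin i h0 hi he.symm
  refine ⟨?_, hnot⟩
  -- counting
  let s := Perm.SameCycle.setoid (swap a b * π)
  let t := Perm.SameCycle.setoid π
  have hst : s ≤ t := by
    have step : ∀ x, π.SameCycle x ((swap a b * π) x) := by
      intro x
      rw [Perm.mul_apply]
      by_cases ha : π x = a
      · rw [ha, swap_apply_left]
        exact ((ha ▸ sameCycle_step π x : π.SameCycle x a)).trans h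
      · by_cases hb : π x = b
        · rw [hb, swap_apply_right]
          exact ((hb ▸ sameCycle_step π x : π.SameCycle x b)).trans h.symm
        · rw [swap_apply_of_ne_of_ne ha hb]
          exact sameCycle_step π x
    intro x y (hxy : (swap a b * π).SameCycle x y)
    obtain ⟨n, rfl⟩ := hxy.exists_nat_pow_eq
    clear hxy
    change π.SameCycle x _
    induction n with
    | zero => exact Perm.SameCycle.refl _ _
    | succ n ih =>
      rw [pow_succ', Perm.mul_apply]
      exact ih.trans (step _)
  have hle : Nat.card (Quotient s) ≤ Nat.card (Quotient t) + 1 := by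
    refine card_glue s t a b (fun x y hxy => ?_) hst
    exact glue_of_swap s π a b (fun x => sameCycle_step _ x) x y hxy
  have hlt : Nat.card (Quotient t) < Nat.card (Quotient s) := by
    let m : Quotient s → Quotient t := Quotient.map' (s₁ := s) (s₂ := t) id (fun x y hxy => hst hxy)
    have hm : Function.Surjective m := by
      intro q
      induction q using Quotient.inductionOn with
      | _ x => exact ⟨Quotient.mk s x, rfl⟩
    have h1 := Nat.card_le_card_of_surjective m hm
    rcases h1.lt_or_eq with h2 | h2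
    · exact h2
    · exfalso
      have hinj : Function.Injective m :=
        (Nat.bijective_iff_surjective_and_card m).2 ⟨hm, h2.symm⟩ |>.1
      have h3 : m (Quotient.mk s a) = m (Quotient.mk s b) := Quotient.sound h
      have h4 : s a b := Quotient.exact (hinj h3)
      exact hnot h4
  have e1 : ncyc (swap a b * π) = Nat.card (Quotient s) := rfl
  have e2 : ncyc π = Nat.card (Quotient t) := rfl
  omega

theorem ncyc_swap_diff {D : Type} [Finite D] [DecidableEq D] (π : Perm D) {a b : D}
    (h : ¬ π.SameCycle a b) :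
    ncyc (swap a b * π) + 1 = ncyc π ∧ (swap a b * π).SameCycle a b := by
  classical
  have hab : a ≠ b := fun he => h (he ▸ Perm.SameCycle.refl _ _)
  have hs : (swap a b * π).SameCycle a b := by
    have hex : ∃ n, 0 < n ∧ (π ^ n) a = a :=
      ⟨orderOf π, orderOf_pos π, by rw [pow_orderOf_eq_one]; rfl⟩
    obtain ⟨hk0, hk⟩ := Nat.find_spec hex
    set k := Nat.find hex with hkdef
    have hmin : ∀ m, 0 < m → m < k → (π ^ m) a ≠ a := by
      intro m hm0 hm he
      exact Nat.find_min hex hm ⟨hm0, he⟩
    have hpow : ∀ i, i < k → ((swap a b * π) ^ i) a = (π ^ i) a := by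
      intro i
      induction i with
      | zero => intro _; simp
      | succ i ih =>
        intro hi
        rw [pow_succ', Perm.mul_apply, ih (by omega), Perm.mul_apply]
        have e1 : π ((π ^ i) a) = (π ^ (i + 1)) a := by rw [pow_succ', Perm.mul_apply]
        rw [e1]
        refine swap_apply_of_ne_of_ne (hmin _ (Nat.succ_pos i) hi) ?_
        intro he
        exact h ⟨(i + 1 : ℕ), by rw [zpow_natCast]; exact he⟩
    refine ⟨(k : ℤ), ?_⟩
    rw [zpow_natCast]
    obtain ⟨j, hj⟩ := Nat.exists_eq_succ_of_ne_zero hk0.ne'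
    rw [hj, Nat.succ_eq_add_one, pow_succ', Perm.mul_apply, hpow j (by omega), Perm.mul_apply]
    have e1 : π ((π ^ j) a) = (π ^ (j + 1)) a := by rw [pow_succ', Perm.mul_apply]
    have e2 : j + 1 = k := by omega
    rw [e1, e2, hk, swap_apply_left]
  refine ⟨?_, hs⟩
  have h1 := (ncyc_swap_same (swap a b * π) hab hs).1
  rw [← mul_assoc, swap_mul_self, one_mul] at h1
  exact h1.symm

end Hopper
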