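import Pool.Agent.Work.MP_85d607_co.Core
import Pool.Agent.Work.MP_85d607_co.Cyc

/-!
# Genus of maps under elementary operations
-/

namespace Hopper

open Equiv

/-- relations generated by a permutation -/
theorem sameCycle_le {D : Type} [Finite D] (π : Perm D) (s : Setoid D) (h : ∀ x, s x (π x)) :
    Perm.SameCycle.setoid π ≤ s := by
  intro x y (hxy : π.SameCycle x y)
  obtain ⟨n, rfl⟩ := hxy.exists_nat_pow_eq
  clear hxy
  induction n with
  | zero => exact s.refl' _
  | succ n ih =>
    rw [pow_succ', Perm.mul_apply]
    exact s.trans' ih (h _)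

theorem orb_left {D : Type} (σ α : Perm D) (x : D) : orb σ α x (σ x) :=
  (le_sup_left : Perm.SameCycle.setoid σ ≤ orb σ α) (sameCycle_step σ x)

theorem orb_right {D : Type} (σ α : Perm D) (x : D) : orb σ α x (α x) :=
  (le_sup_right : Perm.SameCycle.setoid α ≤ orb σ α) (sameCycle_step α x)

theorem orb_le {D : Type} [Finite D] (σ α : Perm D) (s : Setoid D) (h1 : ∀ x, s x (σ x))
    (h2 : ∀ x, s x (α x)) : orb σ α ≤ s :=
  sup_le (sameCycle_le σ s h1) (sameCycle_le α s h2)

theorem orb_mul {D : Type} [Finite D] (σ α : Perm D) (hα : ∀ d, α (α d) = d) :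
    orb (σ * α) α = orb σ α := by
  apply le_antisymm
  · apply orb_le
    · intro x
      rw [Perm.mul_apply]
      exact (orb σ α).trans' (orb_right σ α x) (orb_left σ α _)
    · exact orb_right σ α
  · apply orb_le
    · intro x
      have h1 : σ x = (σ * α) (α x) := by rw [Perm.mul_apply, hα]
      rw [h1]
      exact (orb (σ * α) α).trans' (orb_right (σ * α) α x) (orb_left (σ * α) α _)
    · exact orb_right (σ * α) α

theorem gam_dual {D : Type} [Finite D] (σ α : Perm D) (hα : ∀ d, α (α d) = d) :
    gam (σ * α) α = gam σ α := by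
  have h1 : σ * α * α = σ := by
    ext d
    rw [Perm.mul_apply, Perm.mul_apply, hα]
  unfold gam
  rw [orb_mul σ α hα, h1]
  ring

/-- the components after multiplication by a transposition of darts of one component -/
theorem orb_swap {D : Type} [Finite D] [DecidableEq D] (σ α : Perm D) {a b : D}
    (h : orb σ α a b) : orb (swap a b * σ) α ≤ orb σ α ∧
    ∀ x y, orb σ α x y → orb (swap a b * σ) α x y ∨
      (orb (swap a b * σ) α x a ∧ orb (swap a b * σ) α y b) ∨
      (orb (swap a b * σ) α x b ∧ orb (swap a b * σ) α y a) := by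
  constructor
  · apply orb_le
    · intro x
      have h1 := orb_left σ α x
      rw [Perm.mul_apply]
      by_cases ha : σ x = a
      · rw [ha, swap_apply_left]
        rw [ha] at h1
        exact (orb σ α).trans' h1 h
      · by_cases hb : σ x = b
        · rw [hb, swap_apply_right]
          rw [hb] at h1
          exact (orb σ α).trans' h1 ((orb σ α).symm' h)
        · rw [swap_apply_of_ne_of_ne ha hb]
          exact h1
    · exact orb_right σ α
  · set s := orb (swap a b * σ) α with hs
    let r : Setoid D :=
      { r := fun x y => s x y ∨ (s x a ∧ s y b) ∨ (s x b ∧ s y a)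
        iseqv := by
          refine ⟨fun x => Or.inl (s.refl' x), ?_, ?_⟩
          · rintro x y (h1 | ⟨h1, h2⟩ | ⟨h1, h2⟩)
            · exact Or.inl (s.symm' h1)
            · exact Or.inr (Or.inr ⟨h2, h1⟩)
            · exact Or.inr (Or.inl ⟨h2, h1⟩)
          · intro x y z h1 h2
            exact glue_trans s a b x y z h1 h2 }
    have hle : orb σ α ≤ r := by
      apply orb_le
      · intro x
        exact glue_of_swap s σ a b (fun x => orb_left _ _ x) x (σ x) (sameCycle_step σ x)
      · intro x
        exact Or.inl (orb_right _ _ x)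
    intro x y hxy
    exact hle hxy

theorem card_quot_le {D : Type} [Finite D] {s t : Setoid D} (h : s ≤ t) :
    Nat.card (Quotient t) ≤ Nat.card (Quotient s) := by
  let m : Quotient s → Quotient t := Quotient.map' (s₁ := s) (s₂ := t) id (fun x y hxy => h hxy)
  have hm : Function.Surjective m := by
    intro q
    induction q using Quotient.inductionOn with
    | _ x => exact ⟨Quotient.mk s x, rfl⟩
  exact Nat.card_le_card_of_surjective m hm

theorem gam_swap_le {D : Type} [Finite D] [DecidableEq D] (σ α : Perm D) {a b : D} (hab : a ≠ b)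
    (h : σ.SameCycle a b ∨ (σ * α).SameCycle a b) : gam (swap a b * σ) α ≤ gam σ α := by
  have hmulle : Perm.SameCycle.setoid (σ * α) ≤ orb σ α := by
    apply sameCycle_le
    intro x
    rw [Perm.mul_apply]
    exact (orb σ α).trans' (orb_right σ α x) (orb_left σ α _)
  have horb : orb σ α a b := by
    rcases h with h | h
    · exact (le_sup_left : Perm.SameCycle.setoid σ ≤ orb σ α) h
    · exact hmulle h
  obtain ⟨h1, h2⟩ := orb_swap σ α horb
  have hc1 := card_glue _ _ a b h2 h1
  have hc2 : orb (swap a b * σ) α a b →
      Nat.card (Quotient (orb (swap a b * σ) α)) ≤ Nat.card (Quotient (orb σ α)) := by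
    intro hs
    apply card_quot_le
    intro x y hxy
    rcases h2 x y hxy with h3 | ⟨h3, h4⟩ | ⟨h3, h4⟩
    · exact h3
    · exact Setoid.trans' _ h3 (Setoid.trans' _ hs (Setoid.symm' _ h4))
    · exact Setoid.trans' _ h3 (Setoid.trans' _ (Setoid.symm' _ hs) (Setoid.symm' _ h4))
  have hmulle' : Perm.SameCycle.setoid ((swap a b * σ) * α) ≤ orb (swap a b * σ) α := by
    apply sameCycle_le
    intro x
    rw [Perm.mul_apply]
    exact Setoid.trans' _ (orb_right _ α x) (orb_left _ α _)
  have e : swap a b * σ * α = swap a b * (σ * α) := mul_assoc _ _ _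
  unfold gam
  by_cases hV : σ.SameCycle a b
  · have hV' := (ncyc_swap_same σ hab hV).1
    by_cases hF : (σ * α).SameCycle a b
    · have hF' := (ncyc_swap_same (σ * α) hab hF).1
      rw [e]
      omega
    · obtain ⟨hF', hF''⟩ := ncyc_swap_diff (σ * α) hF
      rw [← e] at hF''
      have hc := hc2 (hmulle' hF'')
      rw [e]
      omega
  · obtain ⟨hV', hV''⟩ := ncyc_swap_diff σ hV
    have hF : (σ * α).SameCycle a b := h.resolve_left hV
    have hF' := (ncyc_swap_same (σ * α) hab hF).1
    have hc := hc2 ((le_sup_left : Perm.SameCycle.setoid (swap a b * σ) ≤ _) hV'')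
    rw [e]
    omega

/-! ### Restriction of setoids to a subset and its complement -/

/-- the class of a quotient is inside or outside a saturated subset -/
theorem card_split {D : Type} [Finite D] (r : Setoid D) (T : D → Prop)
    (h : ∀ x y, r x y → (T x ↔ T y)) :
    Nat.card (Quotient r) =
      Nat.card (Quotient (Setoid.comap (Subtype.val : {d // T d} → D) r)) +
      Nat.card (Quotient (Setoid.comap (Subtype.val : {d // ¬ T d} → D) r)) := by
  classical
  rw [← Nat.card_sum]
  symm
  let f : Quotient (Setoid.comap (Subtype.val : {d // T d} → D) r) ⊕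
      Quotient (Setoid.comap (Subtype.val : {d // ¬ T d} → D) r) → Quotient r :=
    Sum.elim (Quotient.map' Subtype.val (fun _ _ h => h))
      (Quotient.map' Subtype.val (fun _ _ h => h))
  refine Nat.card_congr (Equiv.ofBijective f ⟨?_, ?_⟩)
  · rintro (q | q) (q' | q') hq
    · induction q using Quotient.inductionOn with
      | _ x =>
        induction q' using Quotient.inductionOn with
        | _ y =>
          have hxy : r x.1 y.1 := Quotient.exact hq
          exact congrArg Sum.inl (Quotient.sound hxy)
    · exfalso
      induction q using Quotient.inductionOn with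
      | _ x =>
        induction q' using Quotient.inductionOn with
        | _ y =>
          have hxy : r x.1 y.1 := Quotient.exact hq
          exact y.2 ((h _ _ hxy).1 x.2)
    · exfalso
      induction q using Quotient.inductionOn with
      | _ x =>
        induction q' using Quotient.inductionOn with
        | _ y =>
          have hxy : r x.1 y.1 := Quotient.exact hq
          exact x.2 ((h _ _ hxy).2 y.2)
    · induction q using Quotient.inductionOn with
      | _ x =>
        induction q' using Quotient.inductionOn with
        | _ y =>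
          have hxy : r x.1 y.1 := Quotient.exact hq
          exact congrArg Sum.inr (Quotient.sound hxy)
  · intro q
    induction q using Quotient.inductionOn with
    | _ x =>
      by_cases hx : T x
      · exact ⟨Sum.inl (Quotient.mk _ ⟨x, hx⟩), rfl⟩
      · exact ⟨Sum.inr (Quotient.mk _ ⟨x, hx⟩), rfl⟩

/-- restriction of the cycle relation to an invariant subset -/
theorem comap_sameCycle {D : Type} [Finite D] (π : Perm D) (T : D → Prop)
    (τ : Perm {d : D // T d}) (h : ∀ x : {d : D // T d}, ((τ x : {d : D // T d}) : D) = π x.1) :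
    Setoid.comap (Subtype.val : {d // T d} → D) (Perm.SameCycle.setoid π) =
      Perm.SameCycle.setoid τ := by
  have hpow : ∀ (n : ℕ) (x : {d : D // T d}), (((τ ^ n) x : {d : D // T d}) : D) = (π ^ n) x.1 := by
    intro n
    induction n with
    | zero => intro x; simp
    | succ n ih =>
      intro x
      rw [pow_succ', Perm.mul_apply, h, ih, pow_succ', Perm.mul_apply]
  ext x y
  change π.SameCycle x.1 y.1 ↔ τ.SameCycle x y
  constructor
  · intro hxy
    obtain ⟨n, hn⟩ := hxy.exists_nat_pow_eq
    exact ⟨n, by rw [zpow_natCast]; exact Subtype.ext (by rw [hpow, hn])⟩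
  · intro hxy
    obtain ⟨n, hn⟩ := hxy.exists_nat_pow_eq
    exact ⟨n, by rw [zpow_natCast, ← hpow, hn]⟩

theorem closed_sameCycle {D : Type} [Finite D] (π : Perm D) (T : D → Prop)
    (hT : ∀ x, T x ↔ T (π x)) (x y : D) (h : π.SameCycle x y) : T x ↔ T y := by
  obtain ⟨n, rfl⟩ := h.exists_nat_pow_eq
  clear h
  induction n with
  | zero => rfl
  | succ n ih =>
    rw [pow_succ', Perm.mul_apply, ih]
    exact hT _

theorem closed_orb {D : Type} [Finite D] (σ α : Perm D) (T : D → Prop)
    (h1 : ∀ x, T x ↔ T (σ x)) (h2 : ∀ x, T x ↔ T (α x)) (x y : D) (h : orb σ α x y) :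
    T x ↔ T y := by
  let s : Setoid D :=
    { r := fun x y => (T x ↔ T y)
      iseqv := ⟨fun _ => Iff.rfl, fun h => h.symm, fun h h' => h.trans h'⟩ }
  have hle : orb σ α ≤ s := orb_le σ α s h1 h2
  exact hle h

/-- restriction of the components to an invariant subset -/
theorem comap_orb {D : Type} [Finite D] (σ α : Perm D) (T : D → Prop)
    (τ β : Perm {d : D // T d}) (h1 : ∀ x : {d : D // T d}, ((τ x : {d : D // T d}) : D) = σ x.1)
    (h2 : ∀ x : {d : D // T d}, ((β x : {d : D // T d}) : D) = α x.1)
    (hT1 : ∀ x, T x ↔ T (σ x)) (hT2 : ∀ x, T x ↔ T (α x)) :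
    Setoid.comap (Subtype.val : {d // T d} → D) (orb σ α) = orb τ β := by
  apply le_antisymm
  · let s : Setoid D :=
      { r := fun x y => (T x ↔ T y) ∧ ∀ (hx : T x) (hy : T y), orb τ β ⟨x, hx⟩ ⟨y, hy⟩
        iseqv := by
          refine ⟨fun x => ⟨Iff.rfl, fun hx _ => Setoid.refl' _ _⟩, ?_, ?_⟩
          · intro x y h
            exact ⟨h.1.symm, fun hy hx => Setoid.symm' _ (h.2 hx hy)⟩
          · intro x y z h h'
            exact ⟨h.1.trans h'.1, fun hx hz =>
              Setoid.trans' _ (h.2 hx (h.1.1 hx)) (h'.2 (h.1.1 hx) hz)⟩ }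
    have hle : orb σ α ≤ s := by
      apply orb_le
      · intro x
        refine ⟨hT1 x, fun hx hy => ?_⟩
        have := orb_left τ β ⟨x, hx⟩
        have e : τ ⟨x, hx⟩ = ⟨σ x, hy⟩ := Subtype.ext (h1 _)
        rwa [e] at this
      · intro x
        refine ⟨hT2 x, fun hx hy => ?_⟩
        have := orb_right τ β ⟨x, hx⟩
        have e : β ⟨x, hx⟩ = ⟨α x, hy⟩ := Subtype.ext (h2 _)
        rwa [e] at this
    intro x y hxy
    exact (hle hxy).2 x.2 y.2
  · apply orb_le
    · intro x
      change orb σ α x.1 (τ x).1
      rw [h1]
      exact orb_left σ α _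
    · intro x
      change orb σ α x.1 (β x).1
      rw [h2]
      exact orb_right σ α _

/-- the cycles of a fixed point free involution -/
theorem two_mul_ncyc {S : Type} [Finite S] (β : Perm S) (h : ∀ d, β (β d) = d)
    (hfp : ∀ d, β d ≠ d) : 2 * ncyc β = Nat.card S := by
  classical
  have hcyc : ∀ x y, β.SameCycle x y → y = x ∨ y = β x := by
    intro x y hxy
    obtain ⟨n, rfl⟩ := hxy.exists_nat_pow_eq
    clear hxy
    induction n with
    | zero => left; simp
    | succ n ih =>
      rw [pow_succ', Perm.mul_apply]
      rcases ih with ih | ih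
      · right; rw [ih]
      · left; rw [ih, h]
  let f : Quotient (Perm.SameCycle.setoid β) × Bool → S := fun p =>
    if p.2 = true then p.1.out else β p.1.out
  have hmk : ∀ q : Quotient (Perm.SameCycle.setoid β), Quotient.mk _ q.out = q := Quotient.out_eq
  have hβ : ∀ x, Quotient.mk (Perm.SameCycle.setoid β) (β x) = Quotient.mk _ x := fun x =>
    Quotient.sound (Setoid.symm' _ (sameCycle_step β x))
  have hf : Function.Bijective f := by
    constructor
    · rintro ⟨q, b⟩ ⟨q', b'⟩ hqq
      have hq : q = q' := by
        have h1 : Quotient.mk (Perm.SameCycle.setoid β) (f (q, b)) = q := by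
          by_cases hb : b = true
          · simp only [f, if_pos hb, hmk]
          · simp only [f, if_neg hb, hβ, hmk]
        have h2 : Quotient.mk (Perm.SameCycle.setoid β) (f (q', b')) = q' := by
          by_cases hb : b' = true
          · simp only [f, if_pos hb, hmk]
          · simp only [f, if_neg hb, hβ, hmk]
        rw [← h1, ← h2, hqq]
      subst hq
      have hb : b = b' := by
        by_contra hne
        cases b <;> cases b'
        · exact hne rfl
        · simp only [f] at hqq
          exact hfp _ (by simpa using hqq)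
        · simp only [f] at hqq
          exact hfp _ (by simpa using hqq.symm)
        · exact hne rfl
      rw [hb]
    · intro x
      have h1 : β.SameCycle (Quotient.mk (Perm.SameCycle.setoid β) x).out x :=
        Quotient.mk_out (s := Perm.SameCycle.setoid β) x
      rcases hcyc _ _ h1 with h2 | h2
      · exact ⟨(Quotient.mk _ x, true), by simp only [f, if_true]; exact h2.symm⟩
      · refine ⟨(Quotient.mk _ x, false), ?_⟩
        simp only [f]
        exact h2.symm
  have h1 := Nat.card_congr (Equiv.ofBijective f hf)
  rw [Nat.card_prod] at h1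
  have h2 : Nat.card Bool = 2 := by simp
  rw [h2] at h1
  unfold ncyc
  omega

/-! ### Skipping darts -/

/-- `y` is the first element of `T` after `x` on the `π`-orbit of `x` -/
inductive FR {D : Type} (π : Perm D) (T : D → Prop) : D → D → Prop
  | stop {x : D} : T (π x) → FR π T x (π x)
  | step {x y : D} : ¬ T (π x) → FR π T (π x) y → FR π T x y

theorem FR.unique {D : Type} {π : Perm D} {T : D → Prop} {x y z : D} (h1 : FR π T x y)
    (h2 : FR π T x z) : y = z := by
  induction h1 with
  | stop h =>
    cases h2 with
    | stop _ => rfl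
    | step h' _ => exact absurd h h'
  | step h _ ih =>
    cases h2 with
    | stop h' => exact absurd h' h
    | step _ h'' => exact ih h''

theorem FR_ret {D : Type} [Finite D] (π : Perm D) (T : D → Prop) (x : {d : D // T d}) :
    FR π T x.1 (ret π T x).1 := by
  obtain ⟨n, hn0, hn, hmin⟩ := ret_spec π T x
  have key : ∀ m, m < n → FR π T ((π ^ (n - 1 - m)) x.1) (ret π T x).1 := by
    intro m
    induction m with
    | zero =>
      intro _
      have e : π ((π ^ (n - 1 - 0)) x.1) = (ret π T x).1 := by
        rw [hn, ← Perm.mul_apply, ← pow_succ']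
        congr 2
        omega
      rw [← e]
      apply FR.stop
      rw [e]
      exact (ret π T x).2
    | succ m ih =>
      intro hm
      have e : π ((π ^ (n - 1 - (m + 1))) x.1) = (π ^ (n - 1 - m)) x.1 := by
        rw [← Perm.mul_apply, ← pow_succ']
        congr 2
        omega
      apply FR.step
      · rw [e]
        exact hmin _ (by omega) (by omega)
      · rw [e]
        exact ih (by omega)
  have := key (n - 1) (by omega)
  rwa [Nat.sub_self, pow_zero, Perm.one_apply] at this

/-- skipping the dart `d` does not change first returns -/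
theorem FR_skip {D : Type} [DecidableEq D] (σ : Perm D) (T : D → Prop) {d : D} (hd : ¬ T d)
    (hσd : σ d ≠ d) {x y : D} (h : FR σ T x y) :
    (x ≠ d → FR (swap d (σ d) * σ) T x y) ∧
    (x = d → (T (σ d) ∧ y = σ d) ∨ (¬ T (σ d) ∧ FR (swap d (σ d) * σ) T (σ d) y)) := by
  have e1 : ∀ x, x ≠ d → σ x ≠ d → (swap d (σ d) * σ) x = σ x := by
    intro x hx hx'
    rw [Perm.mul_apply]
    exact swap_apply_of_ne_of_ne hx' (fun he => hx (σ.injective he))
  have e2 : ∀ x, σ x = d → (swap d (σ d) * σ) x = σ d := by
    intro x hx
    rw [Perm.mul_apply, hx, swap_apply_left]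
  induction h with
  | @stop x h =>
    constructor
    · intro hx
      have hx' : σ x ≠ d := fun he => hd (he ▸ h)
      have e := e1 x hx hx'
      rw [← e]
      apply FR.stop
      rw [e]
      exact h
    · rintro rfl
      exact Or.inl ⟨h, rfl⟩
  | @step x y h hr ih =>
    constructor
    · intro hx
      by_cases hx' : σ x = d
      · rcases ih.2 hx' with ⟨h1, h2⟩ | ⟨h1, h2⟩
        · have key : FR (swap d (σ d) * σ) T x ((swap d (σ d) * σ) x) :=
            FR.stop (by rw [e2 x hx']; exact h1)
          rw [e2 x hx'] at key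
          rw [h2]
          exact key
        · apply FR.step
          · rw [e2 x hx']
            exact h1
          · rw [e2 x hx']
            exact h2
      · apply FR.step
        · rw [e1 x hx hx']
          exact h
        · rw [e1 x hx hx']
          exact ih.1 hx'
    · rintro rfl
      exact Or.inr ⟨h, ih.1 hσd⟩

theorem ret_skip {D : Type} [Finite D] [DecidableEq D] (σ : Perm D) (T : D → Prop) {d : D}
    (hd : ¬ T d) (hσd : σ d ≠ d) : ret (swap d (σ d) * σ) T = ret σ T := by
  ext x
  have h1 := (FR_skip σ T hd hσd (FR_ret σ T x)).1 (fun he => hd (he ▸ x.2))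
  exact (FR_ret (swap d (σ d) * σ) T x).unique h1

/-- a permutation fixing everything outside `T` -/
theorem gam_fixed {D : Type} [Finite D] (σ α : Perm D) (T : D → Prop)
    (hα : ∀ d, α (α d) = d) (hfp : ∀ d, α d ≠ d) (hT : ∀ d, T d → T (α d))
    (hfix : ∀ d, ¬ T d → σ d = d) :
    gam (ret σ T) (resInv α T hα hT) = gam σ α := by
  classical
  have hTσ : ∀ d, T d ↔ T (σ d) := by
    intro d
    constructor
    · intro hd
      by_contra hn
      have h1 := hfix _ hn
      have h2 : σ d = d := σ.injective h1
      rw [h2] at hn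
      exact hn hd
    · intro hd
      by_contra hn
      rw [hfix d hn] at hd
      exact hn hd
  have hTα : ∀ d, T d ↔ T (α d) := fun d => ⟨hT d, fun h => by
    have := hT _ h
    rwa [hα] at this⟩
  have hTσα : ∀ d, T d ↔ T ((σ * α) d) := fun d => by
    rw [Perm.mul_apply, ← hTσ, ← hTα]
  have hret : ∀ x : {d : D // T d}, ((ret σ T x : {d : D // T d}) : D) = σ x.1 := fun x =>
    ret_of_mem σ T x ((hTσ _).1 x.2)
  have hα' : ∀ d, ¬ T d → ¬ T (α d) := fun d hd h => hd ((hTα d).2 h)
  -- the complement
  let β : Perm {d : D // ¬ T d} := resInv α (fun d => ¬ T d) hα hα'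
  have hβ : ∀ x : {d : D // ¬ T d}, ((β x : {d : D // ¬ T d}) : D) = α x.1 := fun x => rfl
  have hβ2 : 2 * ncyc β = Nat.card {d : D // ¬ T d} := by
    apply two_mul_ncyc
    · intro x
      exact Subtype.ext (hα _)
    · intro x h
      exact hfp _ (congrArg Subtype.val h)
  -- four counts
  have c1 : Nat.card D = Nat.card {d : D // T d} + Nat.card {d : D // ¬ T d} := by
    rw [← Nat.card_sum]
    exact Nat.card_congr (Equiv.sumCompl T).symm
  have c2 : ncyc σ = ncyc (ret σ T) + Nat.card {d : D // ¬ T d} := by
    have h1 := card_split (Perm.SameCycle.setoid σ) T (closed_sameCycle σ T hTσ)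
    rw [comap_sameCycle σ T (ret σ T) hret] at h1
    have h2 : Setoid.comap (Subtype.val : {d // ¬ T d} → D) (Perm.SameCycle.setoid σ) =
        Perm.SameCycle.setoid (1 : Perm {d : D // ¬ T d}) :=
      comap_sameCycle σ (fun d => ¬ T d) 1 (fun x => (hfix _ x.2).symm)
    have h3 : Nat.card (Quotient (Perm.SameCycle.setoid (1 : Perm {d : D // ¬ T d}))) =
        Nat.card {d : D // ¬ T d} := by
      symm
      refine Nat.card_congr (Equiv.ofBijective (Quotient.mk _) ⟨?_, Quotient.mk_surjective⟩)
      intro x y hxy
      have h4 : (1 : Perm {d : D // ¬ T d}).SameCycle x y := Quotient.exact hxy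
      exact Perm.sameCycle_one.1 h4
    rw [h2, h3] at h1
    exact h1
  have c3 : ncyc (σ * α) = ncyc (ret σ T * resInv α T hα hT) + ncyc β := by
    have h1 := card_split (Perm.SameCycle.setoid (σ * α)) T (closed_sameCycle (σ * α) T hTσα)
    rw [comap_sameCycle (σ * α) T (ret σ T * resInv α T hα hT)
      (fun x => by rw [Perm.mul_apply, hret, resInv_apply, Perm.mul_apply])] at h1
    have h2 : Setoid.comap (Subtype.val : {d // ¬ T d} → D) (Perm.SameCycle.setoid (σ * α)) =
        Perm.SameCycle.setoid β :=
      comap_sameCycle (σ * α) (fun d => ¬ T d) β (fun x => by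
        rw [Perm.mul_apply, hfix _ (hα' _ x.2)]; exact hβ x)
    rw [h2] at h1
    exact h1
  have c4 : Nat.card (Quotient (orb σ α)) =
      Nat.card (Quotient (orb (ret σ T) (resInv α T hα hT))) + ncyc β := by
    have h1 := card_split (orb σ α) T (closed_orb σ α T hTσ hTα)
    rw [comap_orb σ α T (ret σ T) (resInv α T hα hT) hret (fun x => rfl) hTσ hTα] at h1
    have h2 : Setoid.comap (Subtype.val : {d // ¬ T d} → D) (orb σ α) = orb 1 β :=
      comap_orb σ α (fun d => ¬ T d) 1 β (fun x => (hfix _ x.2).symm) hβ
        (fun x => not_congr (hTσ x)) (fun x => not_congr (hTα x))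
    have h3 : orb 1 β = Perm.SameCycle.setoid β := by
      apply le_antisymm
      · apply orb_le
        · intro x
          exact Setoid.refl' _ _
        · intro x
          exact sameCycle_step β x
      · exact le_sup_right
    rw [h2, h3] at h1
    exact h1
  unfold gam
  rw [c1, c2, c3, c4]
  push_cast
  have : (2 : ℤ) * (ncyc β : ℤ) = (Nat.card {d : D // ¬ T d} : ℤ) := by exact_mod_cast hβ2
  linarith

/-- a subgraph has at most the genus of the graph -/
theorem gam_ret_le {D : Type} [Finite D] (σ α : Perm D) (T : D → Prop)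
    (hα : ∀ d, α (α d) = d) (hfp : ∀ d, α d ≠ d) (hT : ∀ d, T d → T (α d)) :
    gam (ret σ T) (resInv α T hα hT) ≤ gam σ α := by
  classical
  have key : ∀ (n : ℕ) (σ : Perm D), Nat.card {d : D // ¬ T d ∧ σ d ≠ d} = n →
      gam (ret σ T) (resInv α T hα hT) ≤ gam σ α := by
    intro n
    induction n using Nat.strong_induction_on with
    | _ n ih =>
      intro σ hn
      by_cases hfix : ∀ d, ¬ T d → σ d = d
      · exact (gam_fixed σ α T hα hfp hT hfix).le
      · push Not at hfix
        obtain ⟨d, hd, hσd⟩ := hfix
        have hsc : σ.SameCycle d (σ d) := sameCycle_step σ d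
        have h1 := gam_swap_le σ α (Ne.symm hσd) (Or.inl hsc)
        have h2 := ret_skip σ T hd hσd
        have h3 : Nat.card {x : D // ¬ T x ∧ (swap d (σ d) * σ) x ≠ x} < n := by
          rw [← hn]
          let f : {x : D // ¬ T x ∧ (swap d (σ d) * σ) x ≠ x} → {x : D // ¬ T x ∧ σ x ≠ x} :=
            fun x => ⟨x.1, x.2.1, by
              intro he
              apply x.2.2
              rw [Perm.mul_apply, he]
              apply swap_apply_of_ne_of_ne
              · intro h'
                rw [h'] at he
                exact hσd he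
              · intro h'
                rw [h'] at he
                exact hσd (σ.injective he)⟩
          have hinj : Function.Injective f := by
            intro x y hxy
            have h5 : (f x).1 = (f y).1 := congrArg Subtype.val hxy
            exact Subtype.ext h5
          refine lt_of_le_of_ne (Nat.card_le_card_of_injective f hinj) ?_
          intro he
          have hbij := (Nat.bijective_iff_injective_and_card f).2 ⟨hinj, he⟩
          obtain ⟨x, hx⟩ := hbij.2 ⟨d, hd, hσd⟩
          have hx' : x.1 = d := congrArg Subtype.val hx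
          apply x.2.2
          rw [hx', Perm.mul_apply, swap_apply_right]
        have h4 := ih _ h3 (swap d (σ d) * σ) rfl
        rw [h2] at h4
        exact h4.trans h1
  exact key _ σ rfl

end Hopper
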