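import Pool.Agent.Work.MP_85d607_co.Core
import Pool.Agent.Work.MP_85d607_co.Gam

/-!
# Module Bridge: rotation systems of graphs and combinatorial maps
-/

namespace Hopper

open Equiv

namespace Bri

theorem sameCycle_inv {D Q : Type} [Finite D] (π : Perm D) (c : D → Q)
    (hc : ∀ d, c (π d) = c d) {d e : D} (h : π.SameCycle d e) : c d = c e := by
  have key : ∀ n : ℕ, c ((π ^ n) d) = c d := by
    intro n
    induction n with
    | zero => simp
    | succ n ih => rw [pow_succ', Perm.mul_apply, hc, ih]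
  obtain ⟨n, hn⟩ := h.exists_nat_pow_eq
  rw [← hn, key]

theorem sameCycle_map {D D' : Type} (E : D ≃ D') (σ : Perm D) (σ' : Perm D')
    (hσ : ∀ d, E (σ d) = σ' (E d)) {d e : D} (h : σ.SameCycle d e) :
    σ'.SameCycle (E d) (E e) := by
  have hpow : ∀ (n : ℕ) (d : D), E ((σ ^ n) d) = (σ' ^ n) (E d) := by
    intro n
    induction n with
    | zero => intro d; simp
    | succ n ih => intro d; rw [pow_succ, Perm.mul_apply, ih, hσ, pow_succ, Perm.mul_apply]
  obtain ⟨i, hi⟩ := h
  rcases Int.eq_nat_or_neg i with ⟨n, rfl | rfl⟩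
  · refine ⟨(n : ℤ), ?_⟩
    rw [zpow_natCast] at hi ⊢
    rw [← hpow, hi]
  · have h1 : (σ ^ n) e = d := by
      rw [zpow_neg, zpow_natCast, Perm.inv_eq_iff_eq] at hi
      exact hi.symm
    have h2 : (σ' ^ n) (E e) = E d := by rw [← hpow, h1]
    exact (Perm.SameCycle.symm ⟨(n : ℤ), by rw [zpow_natCast, h2]⟩)

theorem sameCycle_iff {D D' : Type} (E : D ≃ D') (σ : Perm D) (σ' : Perm D')
    (hσ : ∀ d, E (σ d) = σ' (E d)) (d e : D) :
    σ.SameCycle d e ↔ σ'.SameCycle (E d) (E e) := by
  constructor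
  · exact sameCycle_map E σ σ' hσ
  · intro h
    have h2 := sameCycle_map E.symm σ' σ (fun d' => by
      rw [E.symm_apply_eq, hσ, E.apply_symm_apply]) h
    simpa using h2

theorem ncyc_congr {D D' : Type} (E : D ≃ D') (σ : Perm D) (σ' : Perm D')
    (hσ : ∀ d, E (σ d) = σ' (E d)) : ncyc σ = ncyc σ' :=
  Nat.card_congr (Quotient.congr E (fun d e => sameCycle_iff E σ σ' hσ d e))

theorem orb_map {D D' : Type} (E : D ≃ D') (σ α : Perm D) (σ' α' : Perm D')
    (hσ : ∀ d, E (σ d) = σ' (E d)) (hα : ∀ d, E (α d) = α' (E d)) :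
    orb σ α ≤ (orb σ' α').comap E := by
  apply sup_le
  · intro d e h
    exact (le_sup_left : Perm.SameCycle.setoid σ' ≤ orb σ' α') (sameCycle_map E σ σ' hσ h)
  · intro d e h
    exact (le_sup_right : Perm.SameCycle.setoid α' ≤ orb σ' α') (sameCycle_map E α α' hα h)

theorem gam_congr {D D' : Type} (E : D ≃ D') (σ α : Perm D) (σ' α' : Perm D')
    (hσ : ∀ d, E (σ d) = σ' (E d)) (hα : ∀ d, E (α d) = α' (E d)) :
    gam σ α = gam σ' α' := by
  have h1 : Nat.card (Quotient (orb σ α)) = Nat.card (Quotient (orb σ' α')) := by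
    refine Nat.card_congr (Quotient.congr E (fun d e => ⟨fun h => ?_, fun h => ?_⟩))
    · exact orb_map E σ α σ' α' hσ hα h
    · have h2 := orb_map E.symm σ' α' σ α (fun d' => by
        rw [E.symm_apply_eq, hσ, E.apply_symm_apply]) (fun d' => by
        rw [E.symm_apply_eq, hα, E.apply_symm_apply]) h
      have h3 : (orb σ α) (E.symm (E d)) (E.symm (E e)) := h2
      rw [E.symm_apply_apply, E.symm_apply_apply] at h3
      exact h3
  have h2 : ncyc σ = ncyc σ' := ncyc_congr E σ σ' hσ
  have h3 : ncyc (σ * α) = ncyc (σ' * α') := ncyc_congr E _ _ (fun d => by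
    rw [Perm.mul_apply, hσ, hα, Perm.mul_apply])
  rw [gam, gam, h1, h2, h3, Nat.card_congr E]

theorem card_dart {V : Type} [Finite V] (Y : SimpleGraph V) : Nat.card Y.Dart = 2 * nedges Y := by
  classical
  have := Fintype.ofFinite V
  rw [Nat.card_eq_fintype_card, SimpleGraph.dart_card_eq_twice_card_edges, nedges,
    Nat.card_eq_fintype_card, ← SimpleGraph.edgeFinset_card]

theorem finite_dart {V : Type} [Finite V] (Y : SimpleGraph V) : Finite Y.Dart := by
  classical
  have := Fintype.ofFinite V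
  infer_instance

theorem ncyc_next {V : Type} [Finite V] (G : SimpleGraph V) (R : Rotation G) :
    ncyc R.next = nverts G := by
  have := finite_dart G
  let F : Quotient (Perm.SameCycle.setoid R.next) → {v : V // ∃ w, G.Adj v w} :=
    Quotient.lift (fun d : G.Dart => (⟨d.fst, d.snd, d.adj⟩ : {v : V // ∃ w, G.Adj v w}))
      (fun d e h => Subtype.ext (sameCycle_inv R.next (fun d => d.fst) R.fst_next h))
  refine Nat.card_eq_of_bijective F ⟨?_, ?_⟩
  · intro p q
    induction p using Quotient.inductionOn with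
    | _ d =>
      induction q using Quotient.inductionOn with
      | _ e =>
        intro h
        exact Quotient.sound (R.cyclic d e (congrArg Subtype.val h))
  · rintro ⟨v, w, hvw⟩
    exact ⟨Quotient.mk _ ⟨(v, w), hvw⟩, rfl⟩

theorem orb_of_walk {V : Type} (G : SimpleGraph V) (R : Rotation G) {u v : V}
    (p : G.Walk u v) : ∀ d e : G.Dart, d.fst = u → e.fst = v → orb R.next (flip G) d e := by
  have hl : Perm.SameCycle.setoid R.next ≤ orb R.next (flip G) := le_sup_left
  have hr : Perm.SameCycle.setoid (flip G) ≤ orb R.next (flip G) := le_sup_right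
  induction p with
  | nil =>
    intro d e hd he
    exact hl (R.cyclic d e (hd.trans he.symm))
  | @cons u w v hadj p ih =>
    intro d e hd he
    let a : G.Dart := ⟨(u, w), hadj⟩
    have h1 : orb R.next (flip G) d a := hl (R.cyclic d a hd)
    have h2 : orb R.next (flip G) a a.symm := hr ⟨1, by simp [flip]⟩
    exact (orb R.next (flip G)).trans' h1 ((orb R.next (flip G)).trans' h2 (ih a.symm e rfl he))

theorem orb_card {V : Type} [Finite V] (G : SimpleGraph V) (R : Rotation G) :
    Nat.card (Quotient (orb R.next (flip G))) = ncomps G := by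
  have := finite_dart G
  have hle : orb R.next (flip G) ≤ Setoid.ker (fun d : G.Dart => G.connectedComponentMk d.fst) := by
    apply sup_le
    · intro d e h
      exact sameCycle_inv R.next (fun d : G.Dart => G.connectedComponentMk d.fst)
        (fun d => by rw [R.fst_next]) h
    · intro d e h
      refine sameCycle_inv (flip G) (fun d : G.Dart => G.connectedComponentMk d.fst)
        (fun d => ?_) h
      exact SimpleGraph.ConnectedComponent.sound d.adj.symm.reachable
  let F : Quotient (orb R.next (flip G)) →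
      {c : G.ConnectedComponent // ∃ v w, G.Adj v w ∧ G.connectedComponentMk v = c} :=
    Quotient.lift (fun d : G.Dart =>
      (⟨G.connectedComponentMk d.fst, d.fst, d.snd, d.adj, rfl⟩ :
        {c : G.ConnectedComponent // ∃ v w, G.Adj v w ∧ G.connectedComponentMk v = c}))
      (fun d e h => Subtype.ext (hle h))
  refine Nat.card_eq_of_bijective F ⟨?_, ?_⟩
  · intro p q
    induction p using Quotient.inductionOn with
    | _ d =>
      induction q using Quotient.inductionOn with
      | _ e =>
        intro h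
        have h1 : G.connectedComponentMk d.fst = G.connectedComponentMk e.fst :=
          congrArg Subtype.val h
        obtain ⟨p⟩ := SimpleGraph.ConnectedComponent.exact h1
        exact Quotient.sound (orb_of_walk G R p d e rfl rfl)
  · rintro ⟨c, v, w, hvw, hc⟩
    exact ⟨Quotient.mk _ ⟨(v, w), hvw⟩, Subtype.ext hc⟩

end Bri

open Bri

theorem gam_rotation {V : Type} [Finite V] (G : SimpleGraph V) (R : Rotation G) :
    gam R.next (flip G) = 4 * (ncomps G : ℤ) + 2 * (nedges G : ℤ) - 2 * (nverts G : ℤ)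
      - 2 * (ncyc R.face : ℤ) := by
  rw [gam, orb_card, card_dart, ncyc_next, Rotation.face]
  push_cast
  ring

theorem Embeds.real {V : Type} [Finite V] {G : SimpleGraph V} {k : ℕ} (h : Embeds G k) :
    Real G k := by
  obtain ⟨R, hR⟩ := h
  refine ⟨G.Dart, finite_dart G, R.next, flip G, fun d => some d.fst, ?_, ?_, ?_, ?_, ?_, ?_⟩
  · intro d
    exact SimpleGraph.Dart.symm_symm d
  · intro d
    exact SimpleGraph.Dart.symm_ne d
  · intro d
    exact congrArg some (R.fst_next d)
  · intro d e v hd he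
    exact R.cyclic d e ((Option.some.inj hd).trans (Option.some.inj he).symm)
  · intro a b hab
    exact ⟨⟨(a, b), hab⟩, rfl, rfl⟩
  · rw [gam_rotation]
    omega

theorem Real.embeds {V : Type} [Finite V] {G : SimpleGraph V} {k : ℕ} (h : Real G k) :
    Embeds G k := by
  classical
  obtain ⟨D, hfin, σ, α, lab, hα, hfp, hlab, hcyc, hadj, hgam⟩ := h
  have := finite_dart G
  obtain ⟨n, ⟨eV⟩⟩ := Finite.exists_equiv_fin V
  have hf : ∀ δ : G.Dart, ∃ d, lab d = some δ.fst ∧ lab (α d) = some δ.snd :=
    fun δ => hadj _ _ δ.adj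
  choose f hf1 hf2 using hf
  let τ : G.Dart → D := fun δ => if eV δ.fst < eV δ.snd then f δ else α (f δ.symm)
  have hτ1 : ∀ δ, lab (τ δ) = some δ.fst := by
    intro δ
    by_cases hlt : eV δ.fst < eV δ.snd
    · simp only [τ, if_pos hlt]; exact hf1 δ
    · simp only [τ, if_neg hlt]; exact hf2 δ.symm
  have hτs : ∀ δ : G.Dart, τ δ.symm = α (τ δ) := by
    intro δ
    have hne : eV δ.fst ≠ eV δ.snd := fun hc => δ.adj.ne (eV.injective hc)
    by_cases hlt : eV δ.fst < eV δ.snd
    · have h2 : ¬ (eV δ.symm.fst < eV δ.symm.snd) := not_lt.2 hlt.le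
      simp only [τ, if_pos hlt, if_neg h2, SimpleGraph.Dart.symm_symm]
    · have h2 : eV δ.symm.fst < eV δ.symm.snd := lt_of_le_of_ne (not_lt.1 hlt) hne.symm
      simp only [τ, if_neg hlt, if_pos h2, hα]
  have hτ2 : ∀ δ : G.Dart, lab (α (τ δ)) = some δ.snd := by
    intro δ
    rw [← hτs, hτ1]
    rfl
  have hinj : Function.Injective τ := by
    intro δ ε he
    apply SimpleGraph.Dart.ext
    have e1 := hτ1 δ
    have e2 := hτ2 δ
    rw [he, hτ1] at e1
    rw [he, hτ2] at e2
    exact Prod.ext (Option.some.inj e1).symm (Option.some.inj e2).symm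
  let T : D → Prop := fun d => ∃ δ, τ δ = d
  have hT : ∀ d, T d → T (α d) := by
    rintro d ⟨δ, rfl⟩
    exact ⟨δ.symm, hτs δ⟩
  let E : G.Dart ≃ {d : D // T d} :=
    Equiv.ofBijective (fun δ => (⟨τ δ, δ, rfl⟩ : {d : D // T d}))
      ⟨fun δ ε he => hinj (congrArg Subtype.val he), fun ⟨d, δ, hd⟩ => ⟨δ, Subtype.ext hd⟩⟩
  have hEv : ∀ δ, (E δ).1 = τ δ := fun δ => rfl
  have hlabn : ∀ (m : ℕ) (d : D), lab ((σ ^ m) d) = lab d := by
    intro m
    induction m with
    | zero => intro d; simp
    | succ m ih => intro d; rw [pow_succ, Perm.mul_apply, ih, hlab]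
  let nx : Perm G.Dart := (E.trans (ret σ T)).trans E.symm
  have hnx : ∀ δ, E (nx δ) = ret σ T (E δ) := by
    intro δ
    simp [nx]
  let R : Rotation G :=
    { next := nx
      fst_next := by
        intro δ
        have h1 : lab (E (nx δ)).1 = lab (E δ).1 := by
          rw [hnx, ret_apply, hlabn]
        rw [hEv, hEv, hτ1, hτ1] at h1
        exact Option.some.inj h1
      cyclic := by
        intro δ ε he
        have h1 : σ.SameCycle (τ δ) (τ ε) := hcyc _ _ δ.fst (hτ1 δ) (by rw [hτ1, he])
        have h2 : (ret σ T).SameCycle (E δ) (E ε) := (ret_sameCycle σ T _ _).2 h1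
        exact (sameCycle_iff E nx (ret σ T) hnx δ ε).2 h2 }
  have hRn : R.next = nx := rfl
  have hflip : ∀ δ, E (flip G δ) = resInv α T hα hT (E δ) := by
    intro δ
    apply Subtype.ext
    rw [hEv, resInv_apply, hEv, ← hτs]
    rfl
  have h1 : gam R.next (flip G) = gam (ret σ T) (resInv α T hα hT) :=
    gam_congr E _ _ _ _ hnx hflip
  have h2 := gam_ret_le σ α T hα hfp hT
  rw [gam_rotation] at h1
  refine ⟨R, ?_⟩
  omega

end Hopper
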