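import Pool.Agent.Work.MP_85d607_co.Core

/-!
# The concrete graph

`M` (vertices 0..19): layers {0}, {1,2,3}, {4,..,7}, {8,9,10}, {11,..,14}, {15,16,17}, {18}
with complete bipartite graphs between consecutive layers, and the vertex 19 adjacent to
8, 9, 10.  `G28` is `M` with null pieces at (0, 19) (vertices 20..23) and at (18, 19)
(vertices 24..27).
-/

namespace Hopper

def nbs : List (List ℕ) :=
  [[1, 2, 3, 22, 23], [0, 4, 5, 6, 7], [0, 4, 5, 6, 7], [0, 4, 5, 6, 7], [1, 2, 3, 8, 9, 10],
   [1, 2, 3, 8, 9, 10], [1, 2, 3, 8, 9, 10], [1, 2, 3, 8, 9, 10],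
   [4, 5, 6, 7, 11, 12, 13, 14, 19], [4, 5, 6, 7, 11, 12, 13, 14, 19],
   [4, 5, 6, 7, 11, 12, 13, 14, 19], [8, 9, 10, 15, 16, 17], [8, 9, 10, 15, 16, 17],
   [8, 9, 10, 15, 16, 17], [8, 9, 10, 15, 16, 17], [11, 12, 13, 14, 18], [11, 12, 13, 14, 18],
   [11, 12, 13, 14, 18], [15, 16, 17, 26, 27], [8, 9, 10, 20, 21, 24, 25], [19, 22, 23],
   [19, 22, 23], [0, 20, 21], [0, 20, 21], [19, 26, 27], [19, 26, 27], [18, 24, 25],
   [18, 24, 25]]

def adjB (a b : Fin 28) : Bool := (nbs.getD a.val []).contains b.val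

/-- The graph of the example. -/
def G28 : SimpleGraph (Fin 28) where
  Adj a b := adjB a b = true
  symm := ⟨by decide +kernel⟩
  loopless := ⟨by decide +kernel⟩

instance : DecidableRel G28.Adj := fun a b => inferInstanceAs (Decidable (adjB a b = true))

/-- `G28 + xy` with `x = 0`, `y = 18`. -/
def G28p : SimpleGraph (Fin 28) where
  Adj a b := (adjB a b || (a == 0 && b == 18) || (a == 18 && b == 0)) = true
  symm := ⟨by decide +kernel⟩
  loopless := ⟨by decide +kernel⟩

instance : DecidableRel G28p.Adj := fun a b =>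
  inferInstanceAs (Decidable ((adjB a b || (a == 0 && b == 18) || (a == 18 && b == 0)) = true))

instance {V : Type} [DecidableEq V] (G : SimpleGraph V) [DecidableRel G.Adj] (g : Fin 4 → V) :
    DecidableRel (off G g).Adj := fun a b =>
  inferInstanceAs (Decidable (G.Adj a b ∧ (∀ i, g i ≠ a) ∧ (∀ i, g i ≠ b)))

instance {V : Type} [DecidableEq V] (X : SimpleGraph V) [DecidableRel X.Adj] (u v : V) :
    DecidableRel (ident X u v).Adj := fun a b =>
  inferInstanceAs (Decidable (a ≠ b ∧ a ≠ v ∧ b ≠ v ∧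
    (X.Adj a b ∨ (a = u ∧ X.Adj v b) ∨ (b = u ∧ X.Adj v a))))

theorem G28p_eq : G28p = G28 ⊔ SimpleGraph.edge 0 18 := by
  ext a b
  rw [SimpleGraph.sup_adj, SimpleGraph.edge_adj]
  revert a b
  decide +kernel

def gA : Fin 4 → Fin 28 := ![20, 22, 21, 23]
def gB : Fin 4 → Fin 28 := ![24, 26, 25, 27]

/-- reachability from a parent function -/
theorem reach_of_par {V : Type} (X : SimpleGraph V) (r : V) (par : V → V) (rk : V → ℕ)
    (h : ∀ v w, X.Adj v w → v = r ∨ (X.Adj v (par v) ∧ rk (par v) < rk v)) :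
    ∀ a b, (∃ w, X.Adj a w) → (∃ w, X.Adj b w) → X.Reachable a b := by
  have key : ∀ n v, rk v ≤ n → (∃ w, X.Adj v w) → X.Reachable v r := by
    intro n
    induction n with
    | zero =>
      intro v hv ⟨w, hw⟩
      rcases h v w hw with h1 | h1
      · rw [h1]
      · omega
    | succ n ih =>
      intro v hv ⟨w, hw⟩
      rcases h v w hw with h1 | h1
      · rw [h1]
      · exact h1.1.reachable.trans (ih _ (by omega) ⟨v, h1.1.symm⟩)
  intro a b ha hb
  exact (key _ a le_rfl ha).trans (key _ b le_rfl hb).symm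

/-- parent function towards the vertex 8 -/
def parL (l : List ℕ) (v : Fin 28) : Fin 28 := Fin.ofNat 28 (l.getD v.val 0)
def rkL (l : List ℕ) (v : Fin 28) : ℕ := l.getD v.val 0

/-- the six graphs of the lower bound -/
def P1 : SimpleGraph (Fin 28) := off G28p gB
def P2 : SimpleGraph (Fin 28) := ident P1 18 19
def Q1 : SimpleGraph (Fin 28) := off P1 gA
def Q2 : SimpleGraph (Fin 28) := ident Q1 0 19
def Q3 : SimpleGraph (Fin 28) := off P2 gA
def Q4 : SimpleGraph (Fin 28) := ident Q3 0 18

instance : DecidableRel P1.Adj := inferInstanceAs (DecidableRel (off G28p gB).Adj)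
instance : DecidableRel P2.Adj := inferInstanceAs (DecidableRel (ident P1 18 19).Adj)
instance : DecidableRel Q1.Adj := inferInstanceAs (DecidableRel (off P1 gA).Adj)
instance : DecidableRel Q2.Adj := inferInstanceAs (DecidableRel (ident Q1 0 19).Adj)
instance : DecidableRel Q3.Adj := inferInstanceAs (DecidableRel (off P2 gA).Adj)
instance : DecidableRel Q4.Adj := inferInstanceAs (DecidableRel (ident Q3 0 18).Adj)

theorem gadget1 : Gadget G28p gB 18 19 where
  inj := by decide +kernel
  hu := by decide +kernel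
  hv := by decide +kernel
  huv := by decide +kernel
  adj := by decide +kernel

theorem gadget2 : Gadget P1 gA 0 19 where
  inj := by decide +kernel
  hu := by decide +kernel
  hv := by decide +kernel
  huv := by decide +kernel
  adj := by decide +kernel

theorem gadget3 : Gadget P2 gA 0 18 where
  inj := by decide +kernel
  hu := by decide +kernel
  hv := by decide +kernel
  huv := by decide +kernel
  adj := by decide +kernel

end Hopper
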