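import Pool.Agent.Work.MP_85d607_co.Count
import Pool.Agent.Work.MP_85d607_co.Conc

/-!
# A checker for embeddings of graphs on 28 vertices
-/

namespace Hopper

open Equiv

/-- certificate: rotation lists, face labels of the darts (aligned with the rotation lists),
parent function and rank for connectivity, number of faces. -/
structure Cert where
  rot : List (List (Fin 28))
  fc : List (List ℕ)
  par : List ℕ
  rk : List ℕ
  root : ℕ
  nf : ℕ

namespace Cert

variable (c : Cert)

def L (v : Fin 28) : List (Fin 28) := c.rot.getD v.val []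

def lab (v w : Fin 28) : ℕ := (c.fc.getD v.val []).getD ((c.L v).idxOf w) 0

end Cert

/-- decode a list of numbers from base `b` digits (each stored plus one) -/
def digs (b : ℕ) : ℕ → ℕ → List ℕ
  | 0, _ => []
  | f + 1, n => bif n == 0 then [] else (n % b - 1) :: digs b f (n / b)

/-- certificates from numbers -/
def mkCert (r f p k root nf : ℕ) : Cert :=
  ⟨(digs 340282366920938463463374607431768211456 28 r).map (fun x => (digs 32 28 x).map (Fin.ofNat 28)),
    (digs 340282366920938463463374607431768211456 28 f).map (digs 64 28), digs 32 28 p, digs 32 28 k, root, nf⟩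

theorem le_ncyc_of_surj' {D Q : Type} [Finite D] [Finite Q] (π : Perm D) (c : D → Q)
    (hc : ∀ d, c (π d) = c d) (hs : Function.Surjective c) : Nat.card Q ≤ ncyc π := by
  have h1 : ∀ d e, π.SameCycle d e → c d = c e := by
    intro d e ⟨n, hn⟩
    rw [← hn]
    have key : ∀ (m : ℕ) (x : D), c ((π ^ m) x) = c x := by
      intro m
      induction m with
      | zero => intro x; rfl
      | succ m ih => intro x; rw [pow_succ, Perm.mul_apply, ih, hc]
    rcases n with n | n
    · simpa using (key n d).symm
    · have h2 := key (n + 1) ((π ^ (Int.negSucc n)) d)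
      rw [← h2]
      congr 1
      rw [zpow_negSucc, ← Perm.mul_apply]
      simp
  let f : Quotient (Perm.SameCycle.setoid π) → Q := Quotient.lift c h1
  have hf : Function.Surjective f := by
    intro q
    obtain ⟨d, hd⟩ := hs q
    exact ⟨Quotient.mk _ d, hd⟩
  exact Nat.card_le_card_of_surjective f hf

/-- the boolean checker -/
def check (adj : Fin 28 → Fin 28 → Bool) (k : ℕ) (c : Cert) : Bool :=
  -- rotation lists list the neighbours
  (List.finRange 28).all (fun v => (c.L v).Nodup &&
    (List.finRange 28).all (fun w => (c.L v).contains w == adj v w)) &&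
  -- face labels are constant along faces
  (List.finRange 28).all (fun w => (List.range (c.L w).length).all (fun i =>
    c.lab w ((c.L w).getD ((i + 1) % (c.L w).length) 0) == c.lab ((c.L w).getD i 0) w)) &&
  -- labels are smaller than the number of faces and all occur
  (List.finRange 28).all (fun v => (c.L v).all (fun w => decide (c.lab v w < c.nf))) &&
  (List.range c.nf).all (fun j => (List.finRange 28).any (fun v =>
    (c.L v).any (fun w => c.lab v w == j))) &&
  -- connectivity
  (List.finRange 28).all (fun v => (c.L v).isEmpty || v.val == c.root ||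
    ((c.L v).contains (parL c.par v) &&
      decide (rkL c.rk (parL c.par v) < rkL c.rk v))) &&
  -- Euler
  decide (4 + ((List.finRange 28).map (fun v => (c.L v).length)).sum ≤
    2 * ((List.finRange 28).filter (fun v => !(c.L v).isEmpty)).length + 2 * c.nf + 4 * k)

section Sound

variable {Y : SimpleGraph (Fin 28)} {c : Cert}
  (hmem : ∀ v w, w ∈ c.L v ↔ Y.Adj v w) (hnd : ∀ v, (c.L v).Nodup)

include hmem hnd in
theorem formPerm_adj (d : Y.Dart) : Y.Adj d.fst ((c.L d.fst).formPerm d.snd) := by
  rw [← hmem]
  exact List.formPerm_apply_mem_of_mem ((hmem _ _).mpr d.adj)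

include hmem hnd in
theorem formPerm_inv_adj (d : Y.Dart) : Y.Adj d.fst ((c.L d.fst).formPerm⁻¹ d.snd) := by
  rw [← hmem]
  have h := (hmem _ _).mpr d.adj
  by_contra hc
  have h1 : (c.L d.fst).formPerm ((c.L d.fst).formPerm⁻¹ d.snd) = (c.L d.fst).formPerm⁻¹ d.snd :=
    List.formPerm_apply_of_notMem hc
  have h2 : (c.L d.fst).formPerm ((c.L d.fst).formPerm⁻¹ d.snd) = d.snd := by simp
  rw [h2] at h1
  rw [← h1] at hc
  exact hc h

/-- rotation system from lists -/
def rotOf : Rotation Y where
  next :=
    { toFun := fun d => ⟨(d.fst, (c.L d.fst).formPerm d.snd), formPerm_adj hmem hnd d⟩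
      invFun := fun d => ⟨(d.fst, (c.L d.fst).formPerm⁻¹ d.snd), formPerm_inv_adj hmem hnd d⟩
      left_inv := fun d => by
        apply SimpleGraph.Dart.ext
        simp
      right_inv := fun d => by
        apply SimpleGraph.Dart.ext
        simp }
  fst_next := fun d => rfl
  cyclic := by
    intro d e h
    have hcyc := (hnd d.fst).isCycleOn_formPerm
    have h1 : d.snd ∈ {a | a ∈ c.L d.fst} := (hmem _ _).mpr d.adj
    have h2 : e.snd ∈ {a | a ∈ c.L d.fst} := by
      rw [h]
      exact (hmem _ _).mpr e.adj
    obtain ⟨n, hn⟩ := (hcyc.2 h1 h2).exists_nat_pow_eq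
    refine ⟨(n : ℤ), ?_⟩
    rw [zpow_natCast]
    have key : ∀ (m : ℕ) (x : Y.Dart), (((
        { toFun := fun d => ⟨(d.fst, (c.L d.fst).formPerm d.snd), formPerm_adj hmem hnd d⟩
          invFun := fun d => ⟨(d.fst, (c.L d.fst).formPerm⁻¹ d.snd), formPerm_inv_adj hmem hnd d⟩
          left_inv := fun d => by
            apply SimpleGraph.Dart.ext
            simp
          right_inv := fun d => by
            apply SimpleGraph.Dart.ext
            simp } : Perm Y.Dart) ^ m) x).toProd =
        (x.fst, ((c.L x.fst).formPerm ^ m) x.snd) := by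
      intro m
      induction m with
      | zero => intro x; rfl
      | succ m ih =>
        intro x
        rw [pow_succ, Perm.mul_apply, ih]
        rfl
    apply SimpleGraph.Dart.ext
    rw [key, hn]
    exact Prod.ext h rfl

end Sound

theorem check_sound (Y : SimpleGraph (Fin 28)) (adj : Fin 28 → Fin 28 → Bool)
    (hY : ∀ a b, Y.Adj a b ↔ adj a b = true) (k : ℕ) (c : Cert) (h : check adj k c = true) :
    Embeds Y k := by
  classical
  unfold check at h
  simp only [Bool.and_eq_true, List.all_eq_true, List.mem_finRange, forall_const, beq_iff_eq,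
    decide_eq_true_eq, List.any_eq_true, List.mem_range, Bool.or_eq_true, true_and,
    List.isEmpty_iff] at h
  obtain ⟨⟨⟨⟨⟨h1, h2⟩, h3⟩, h4⟩, h5⟩, h6⟩ := h
  have hmem : ∀ v w, w ∈ c.L v ↔ Y.Adj v w := by
    intro v w
    rw [hY, ← (h1 v).2 w]
    simp
  have hnd : ∀ v, (c.L v).Nodup := fun v => (h1 v).1
  refine ⟨rotOf hmem hnd, ?_⟩
  -- components
  have hc : ncomps Y ≤ 1 := by
    apply ncomps_le_one
    by_cases hr : c.root < 28
    · apply reach_of_par Y ⟨c.root, hr⟩ (parL c.par) (rkL c.rk)
      intro v w hvw
      rcases h5 v with (h | h) | h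
      · exfalso
        have := (hmem v w).mpr hvw
        rw [h] at this
        simp at this
      · exact Or.inl (Fin.ext h)
      · right
        refine ⟨?_, h.2⟩
        rw [← hmem]
        simpa using h.1
    · apply reach_of_par Y 0 (parL c.par) (rkL c.rk)
      intro v w hvw
      rcases h5 v with (h | h) | h
      · exfalso
        have := (hmem v w).mpr hvw
        rw [h] at this
        simp at this
      · exfalso
        exact hr (h ▸ v.2)
      · right
        refine ⟨?_, h.2⟩
        rw [← hmem]
        simpa using h.1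
  -- faces
  have hf : c.nf ≤ ncyc (rotOf hmem hnd).face := by
    have hlt : ∀ d : Y.Dart, c.lab d.fst d.snd < c.nf := fun d =>
      h3 d.fst d.snd ((hmem _ _).mpr d.adj)
    have := le_ncyc_of_surj' (rotOf hmem hnd).face
      (fun d : Y.Dart => (⟨c.lab d.fst d.snd, hlt d⟩ : Fin c.nf)) ?_ ?_
    · simpa using this
    · intro d
      apply Fin.ext
      have hv : d.fst ∈ c.L d.snd := (hmem _ _).mpr d.adj.symm
      obtain ⟨i, hi, hi'⟩ := List.getElem_of_mem hv
      have h7 := h2 d.snd i hi
      have h8 : (c.L d.snd).formPerm d.fst = (c.L d.snd)[(i + 1) % (c.L d.snd).length]'(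
          Nat.mod_lt _ (by omega)) := by
        rw [← hi']
        exact List.formPerm_apply_getElem _ (hnd _) i hi
      have h9 : (i + 1) % (c.L d.snd).length < (c.L d.snd).length := Nat.mod_lt _ (by omega)
      rw [List.getD_eq_getElem _ _ h9, List.getD_eq_getElem _ _ hi, hi', ← h8] at h7
      exact h7
    · intro j
      obtain ⟨v, w, hw, hj⟩ := h4 j.1 j.2
      exact ⟨⟨(v, w), (hmem _ _).mp hw⟩, Fin.ext hj⟩
  -- edges
  have hE : 2 * nedges Y = ((List.finRange 28).map (fun v => (c.L v).length)).sum := by
    rw [two_nedges_eq, ← List.sum_toFinset _ (List.nodup_finRange 28)]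
    have : (List.finRange 28).toFinset = Finset.univ := by
      ext x
      simp
    rw [this]
    refine Finset.sum_congr rfl fun v _ => ?_
    rw [← List.toFinset_card_of_nodup (hnd v)]
    congr 1
    ext w
    simp [hmem]
  have hV : ((List.finRange 28).filter (fun v => !(c.L v).isEmpty)).length = nverts Y := by
    rw [nverts_eq, ← List.toFinset_card_of_nodup ((List.nodup_finRange 28).filter _)]
    congr 1
    ext v
    simp only [List.toFinset_filter, Finset.mem_filter, List.mem_toFinset, List.mem_finRange,
      true_and, Finset.mem_univ, Bool.not_eq_true', List.isEmpty_eq_false_iff]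
    constructor
    · intro hne
      obtain ⟨w, hw⟩ := List.exists_mem_of_ne_nil _ hne
      exact ⟨w, (hmem _ _).mp hw⟩
    · rintro ⟨w, hw⟩ hne
      have := (hmem v w).mpr hw
      rw [hne] at this
      simp at this
  omega

end Hopper
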