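import Pool.Agent.Work.MP_85d607_co.Defs

/-!
# Core definitions: combinatorial maps, genus, first return permutations

A combinatorial map is a finite type `D` of darts with a permutation `σ` (rotation) and a fixed
point free involution `α` (reversal).  Its faces are the cycles of `σ * α`.
-/

namespace Hopper

open Equiv

/-- The equivalence relation generated by two permutations (components of a map). -/
def orb {D : Type} (σ α : Perm D) : Setoid D :=
  Perm.SameCycle.setoid σ ⊔ Perm.SameCycle.setoid α

/-- Four times the genus of a map: `4 c + |D| - 2 V - 2 F`. -/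
noncomputable def gam {D : Type} (σ α : Perm D) : ℤ :=
  4 * (Nat.card (Quotient (orb σ α)) : ℤ) + (Nat.card D : ℤ) - 2 * (ncyc σ : ℤ)
    - 2 * (ncyc (σ * α) : ℤ)

/-- `G` is a subgraph of the multigraph of a map of genus at most `k`.  Darts may be labelled
`none` (then they do not belong to a vertex of `G`), and labelled darts need not be edges of
`G`. -/
def Real {V : Type} (G : SimpleGraph V) (k : ℕ) : Prop :=
  ∃ (D : Type) (_ : Finite D) (σ α : Perm D) (lab : D → Option V),
    (∀ d, α (α d) = d) ∧ (∀ d, α d ≠ d) ∧ (∀ d, lab (σ d) = lab d) ∧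
    (∀ d e v, lab d = some v → lab e = some v → σ.SameCycle d e) ∧
    (∀ a b, G.Adj a b → ∃ d, lab d = some a ∧ lab (α d) = some b) ∧
    gam σ α ≤ 4 * (k : ℤ)

section Ret

variable {D : Type} [Finite D] (π : Perm D) (T : D → Prop)

theorem exists_ret (x : D) (hx : T x) : ∃ n, 0 < n ∧ T ((π ^ n) x) := by
  refine ⟨orderOf π, orderOf_pos π, ?_⟩
  rw [pow_orderOf_eq_one]
  exact hx

open Classical in
/-- The first return time. -/
noncomputable def retTime (x : {d : D // T d}) : ℕ := Nat.find (exists_ret π T x.1 x.2)

open Classical in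
theorem retTime_pos (x : {d : D // T d}) : 0 < retTime π T x :=
  (Nat.find_spec (exists_ret π T x.1 x.2)).1

open Classical in
theorem retTime_mem (x : {d : D // T d}) : T ((π ^ (retTime π T x)) x.1) :=
  (Nat.find_spec (exists_ret π T x.1 x.2)).2

open Classical in
theorem retTime_min (x : {d : D // T d}) {m : ℕ} (h0 : 0 < m) (hm : m < retTime π T x) :
    ¬ T ((π ^ m) x.1) := fun h => Nat.find_min (exists_ret π T x.1 x.2) hm ⟨h0, h⟩

/-- The first return map. -/
noncomputable def retFun (x : {d : D // T d}) : {d : D // T d} :=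
  ⟨(π ^ (retTime π T x)) x.1, retTime_mem π T x⟩

theorem retFun_injective : Function.Injective (retFun π T) := by
  have key : ∀ x y : {d : D // T d}, retTime π T x ≤ retTime π T y →
      retFun π T x = retFun π T y → x = y := by
    intro x y hle h
    have h1 : (π ^ (retTime π T x)) x.1 = (π ^ (retTime π T y)) y.1 := congrArg Subtype.val h
    obtain ⟨m, hm⟩ := Nat.exists_eq_add_of_le hle
    rw [hm, pow_add, Perm.mul_apply] at h1
    have h2 : x.1 = (π ^ m) y.1 := (π ^ (retTime π T x)).injective h1
    rcases Nat.eq_zero_or_pos m with h0 | h0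
    · subst h0
      exact Subtype.ext (by simpa using h2)
    · exfalso
      have h3 : m < retTime π T y := by
        have := retTime_pos π T x
        omega
      exact retTime_min π T y h0 h3 (h2 ▸ x.2)
  intro x y h
  rcases le_total (retTime π T x) (retTime π T y) with hle | hle
  · exact key x y hle h
  · exact (key y x hle h.symm).symm

/-- The first return permutation of `π` on the subset `T`. -/
noncomputable def ret : Perm {d : D // T d} :=
  Equiv.ofBijective (retFun π T) (Finite.injective_iff_bijective.mp (retFun_injective π T))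

theorem ret_apply (x : {d : D // T d}) :
    ((ret π T x : {d : D // T d}) : D) = (π ^ (retTime π T x)) x.1 := rfl

/-- First return property. -/
theorem ret_spec (x : {d : D // T d}) : ∃ n, 0 < n ∧
    ((ret π T x : {d : D // T d}) : D) = (π ^ n) x.1 ∧ ∀ m, 0 < m → m < n → ¬ T ((π ^ m) x.1) :=
  ⟨retTime π T x, retTime_pos π T x, ret_apply π T x,
    fun _ h0 hm => retTime_min π T x h0 hm⟩

/-- If the image stays in `T` the first return map is just `π`. -/
theorem ret_of_mem (x : {d : D // T d}) (h : T (π x.1)) :
    ((ret π T x : {d : D // T d}) : D) = π x.1 := by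
  have h1 : retTime π T x = 1 := by
    rcases Nat.lt_or_ge 1 (retTime π T x) with h2 | h2
    · exact absurd (by simpa using h) (retTime_min π T x Nat.one_pos h2)
    · have := retTime_pos π T x
      omega
  rw [ret_apply, h1, pow_one]

theorem ret_sameCycle (x y : {d : D // T d}) :
    (ret π T).SameCycle x y ↔ π.SameCycle x.1 y.1 := by
  constructor
  · have key : ∀ (n : ℕ) (x : {d : D // T d}), π.SameCycle x.1 (((ret π T) ^ n) x).1 := by
      intro n
      induction n with
      | zero => intro x; exact Perm.SameCycle.refl _ _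
      | succ n ih =>
        intro x
        rw [pow_succ, Perm.mul_apply]
        refine Perm.SameCycle.trans ?_ (ih _)
        rw [ret_apply]
        exact ⟨(retTime π T x : ℤ), by simp⟩
    intro h
    obtain ⟨n, hn⟩ := h.exists_nat_pow_eq
    rw [← hn]
    exact key n x
  · have key : ∀ (n : ℕ) (x y : {d : D // T d}), (π ^ n) x.1 = y.1 →
        (ret π T).SameCycle x y := by
      intro n
      induction n using Nat.strong_induction_on with
      | _ n ih =>
        intro x y h
        rcases Nat.eq_zero_or_pos n with h0 | h0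
        · subst h0
          have : x = y := Subtype.ext (by simpa using h)
          rw [this]
        · have hle : retTime π T x ≤ n := by
            by_contra hlt
            push Not at hlt
            exact retTime_min π T x h0 hlt (h ▸ y.2)
          have h1 : (π ^ (n - retTime π T x)) (ret π T x).1 = y.1 := by
            rw [ret_apply, ← Perm.mul_apply, ← pow_add, Nat.sub_add_cancel hle, h]
          have h2 := ih (n - retTime π T x) (by have := retTime_pos π T x; omega) _ _ h1
          refine Perm.SameCycle.trans ?_ h2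
          exact ⟨1, by simp⟩
    intro h
    obtain ⟨n, hn⟩ := h.exists_nat_pow_eq
    exact key n x y hn

end Ret

/-- Restriction of an involution to an invariant subset. -/
def resInv {D : Type} (α : Perm D) (T : D → Prop) (hα : ∀ d, α (α d) = d)
    (hT : ∀ d, T d → T (α d)) : Perm {d : D // T d} where
  toFun x := ⟨α x.1, hT _ x.2⟩
  invFun x := ⟨α x.1, hT _ x.2⟩
  left_inv x := Subtype.ext (hα x.1)
  right_inv x := Subtype.ext (hα x.1)

@[simp] theorem resInv_apply {D : Type} (α : Perm D) (T : D → Prop) (hα : ∀ d, α (α d) = d)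
    (hT : ∀ d, T d → T (α d)) (x : {d : D // T d}) :
    ((resInv α T hα hT x : {d : D // T d}) : D) = α x.1 := rfl

/-- Remove the four vertices of a gadget. -/
def off {V : Type} (G : SimpleGraph V) (g : Fin 4 → V) : SimpleGraph V where
  Adj a b := G.Adj a b ∧ (∀ i, g i ≠ a) ∧ (∀ i, g i ≠ b)
  symm := ⟨fun _ _ h => ⟨h.1.symm, h.2.2, h.2.1⟩⟩
  loopless := ⟨fun _ h => h.1.ne rfl⟩

/-- Merge the vertex `v` into `u` (on the same vertex type, `v` becomes isolated). -/
def ident {V : Type} (X : SimpleGraph V) (u v : V) : SimpleGraph V where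
  Adj a b := a ≠ b ∧ a ≠ v ∧ b ≠ v ∧
    (X.Adj a b ∨ (a = u ∧ X.Adj v b) ∨ (b = u ∧ X.Adj v a))
  symm := ⟨fun _ _ h => ⟨h.1.symm, h.2.2.1, h.2.1, h.2.2.2.elim (fun h => Or.inl h.symm)
    (fun h => h.elim (fun h => Or.inr (Or.inr h)) (fun h => Or.inr (Or.inl h)))⟩⟩
  loopless := ⟨fun _ h => h.1 rfl⟩

/-- A null piece `K_{3,3}` minus an edge attached at `u` and `v`: a 4-cycle `g 0, g 1, g 2, g 3`
whose vertices are alternately adjacent to `v` and to `u`. -/
structure Gadget {V : Type} (G : SimpleGraph V) (g : Fin 4 → V) (u v : V) : Prop where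
  inj : Function.Injective g
  hu : ∀ i, g i ≠ u
  hv : ∀ i, g i ≠ v
  huv : u ≠ v
  adj : ∀ i w, G.Adj (g i) w ↔
    w = g (i + 1) ∨ w = g (i - 1) ∨ w = (if i = 0 ∨ i = 2 then v else u)

end Hopper
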