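import Pool.Agent.Work.MP_85d607_co.Core

/-!
# Counting vertices, edges, components
-/

namespace Hopper

theorem nverts_eq {V : Type} [Fintype V] (Y : SimpleGraph V) [DecidableRel Y.Adj] :
    nverts Y = (Finset.univ.filter (fun v => ∃ w, Y.Adj v w)).card := by
  unfold nverts
  rw [Nat.card_eq_fintype_card, Fintype.card_subtype]

theorem two_nedges_eq {V : Type} [Fintype V] [DecidableEq V] (Y : SimpleGraph V)
    [DecidableRel Y.Adj] :
    2 * nedges Y = ∑ v : V, (Finset.univ.filter (fun w => Y.Adj v w)).card := by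
  unfold nedges
  rw [Nat.card_eq_fintype_card, ← SimpleGraph.edgeFinset_card,
    ← SimpleGraph.sum_degrees_eq_twice_card_edges]
  refine Finset.sum_congr rfl fun v _ => ?_
  rw [← SimpleGraph.card_neighborFinset_eq_degree]
  congr 1
  ext w
  simp

theorem ncomps_pos {V : Type} [Finite V] (Y : SimpleGraph V) {a b : V} (h : Y.Adj a b) :
    1 ≤ ncomps Y := by
  unfold ncomps
  have : Nonempty {c : Y.ConnectedComponent // ∃ v w, Y.Adj v w ∧
      Y.connectedComponentMk v = c} := ⟨⟨_, a, b, h, rfl⟩⟩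
  have hf : Finite {c : Y.ConnectedComponent // ∃ v w, Y.Adj v w ∧
      Y.connectedComponentMk v = c} := inferInstance
  exact Nat.card_pos

theorem ncomps_le_one {V : Type} [Finite V] (Y : SimpleGraph V)
    (h : ∀ a b, (∃ w, Y.Adj a w) → (∃ w, Y.Adj b w) → Y.Reachable a b) : ncomps Y ≤ 1 := by
  unfold ncomps
  have hf : Finite {c : Y.ConnectedComponent // ∃ v w, Y.Adj v w ∧
      Y.connectedComponentMk v = c} := inferInstance
  have : Subsingleton {c : Y.ConnectedComponent // ∃ v w, Y.Adj v w ∧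
      Y.connectedComponentMk v = c} := by
    refine ⟨?_⟩
    rintro ⟨_, v, w, hv, rfl⟩ ⟨_, v', w', hv', rfl⟩
    apply Subtype.ext
    exact SimpleGraph.ConnectedComponent.sound (h v v' ⟨w, hv⟩ ⟨w', hv'⟩)
  exact Finite.card_le_one_iff_subsingleton.mpr this

end Hopper
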