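import Pool.Agent.Work.MP_85d607_co.Mono
import Pool.Agent.Work.MP_85d607_co.Bridge
import Pool.Agent.Work.MP_85d607_co.Certs

/-!
# The minors of the example embed
-/

namespace Hopper

open Equiv

theorem ident_swap {V : Type} [DecidableEq V] {G : SimpleGraph V} {k : ℕ} (a b : V)
    (h : Real (ident G a b) k) : Real (ident G b a) k := by
  refine Real.mono (swap a b) (swap a b).injective ?_ h
  intro x y hxy
  obtain ⟨h1, h2, h3, h4⟩ := hxy
  have key : ∀ z, z ≠ a → swap a b z = if z = b then a else z := by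
    intro z hz
    split_ifs with hb
    · rw [hb, swap_apply_right]
    · exact swap_apply_of_ne_of_ne hz hb
  have hb : ∀ z, z ≠ a → swap a b z ≠ b := by
    intro z hz
    rw [key z hz]
    split_ifs with hzb
    · rintro rfl
      exact hz hzb
    · exact hzb
  refine ⟨fun e => h1 ((swap a b).injective e), hb x h2, hb y h3, ?_⟩
  rw [key x h2, key y h3]
  rcases h4 with h4 | ⟨h4, h5⟩ | ⟨h4, h5⟩
  · by_cases hx : x = b
    · rw [if_pos hx]
      by_cases hy : y = b
      · exact absurd (hx.trans hy.symm) h1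
      · rw [if_neg hy]
        exact Or.inr (Or.inl ⟨rfl, hx ▸ h4⟩)
    · rw [if_neg hx]
      by_cases hy : y = b
      · rw [if_pos hy]
        exact Or.inr (Or.inr ⟨rfl, hy ▸ h4.symm⟩)
      · rw [if_neg hy]
        exact Or.inl h4
  · rw [if_pos h4]
    by_cases hy : y = b
    · exact absurd (h4.trans hy.symm) h1
    · rw [if_neg hy]
      exact Or.inl h5
  · rw [if_pos h4]
    by_cases hx : x = b
    · exact absurd (hx.trans h4.symm) h1
    · rw [if_neg hx]
      exact Or.inl h5.symm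

theorem del_adj (a b v w : Fin 28) :
    (G28.deleteEdges {s(a, b)}).Adj v w ↔ adjDel a b v w = true := by
  rw [SimpleGraph.deleteEdges_adj]
  simp only [Set.mem_singleton_iff, Sym2.eq_iff, adjDel, Bool.and_eq_true, Bool.not_eq_true',
    Bool.or_eq_false_iff, Bool.and_eq_false_iff, beq_eq_false_iff_ne, ne_eq, not_or, not_and,
    G28]
  tauto

theorem con_adj (a b v w : Fin 28) :
    (ident G28 a b).Adj v w ↔ adjCon a b v w = true := by
  simp only [ident, G28, adjCon, Bool.and_eq_true, Bool.or_eq_true, bne_iff_ne, ne_eq,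
    beq_iff_eq]
  tauto

def repL : List ℕ :=
  [0, 1, 1, 1, 4, 4, 4, 4, 8, 8, 8, 11, 11, 11, 11, 15, 15, 15, 18, 19, 20, 20, 22, 22, 24, 24,
    26, 26]

def rep (v : Fin 28) : Fin 28 := Fin.ofNat 28 (repL.getD v.val 0)

theorem rep_adj : ∀ a v, G28.Adj a v ↔ G28.Adj (rep a) v := by decide +kernel

theorem swap_auto {V : Type} [DecidableEq V] (X : SimpleGraph V) (a a' : V)
    (h : ∀ v, X.Adj a v ↔ X.Adj a' v) (v w : V) :
    X.Adj (swap a a' v) (swap a a' w) ↔ X.Adj v w := by
  have h1 : ∀ v w, X.Adj (swap a a' v) w ↔ X.Adj v w := by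
    intro v w
    by_cases hv : v = a
    · rw [hv, swap_apply_left]
      exact (h w).symm
    · by_cases hv' : v = a'
      · rw [hv', swap_apply_right]
        exact h w
      · rw [swap_apply_of_ne_of_ne hv hv']
  rw [h1, X.adj_comm, h1, X.adj_comm]

/-- the automorphism moving the edge `ab` to its representative -/
def mv (a b : Fin 28) : Perm (Fin 28) := swap a (rep a) * swap b (rep b)

theorem mv_auto (a b v w : Fin 28) : G28.Adj (mv a b v) (mv a b w) ↔ G28.Adj v w := by
  unfold mv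
  rw [Perm.mul_apply, Perm.mul_apply, swap_auto G28 a (rep a) (rep_adj a),
    swap_auto G28 b (rep b) (rep_adj b)]

theorem mv_apply : ∀ a b, G28.Adj a b → mv a b a = rep a ∧ mv a b b = rep b := by
  decide +kernel

theorem types_del : ∀ a b, G28.Adj a b → ∃ t ∈ certsDel,
    (t.1 = rep a ∧ t.2.1 = rep b) ∨ (t.1 = rep b ∧ t.2.1 = rep a) := by
  decide +kernel

theorem types_con : ∀ a b, G28.Adj a b → ∃ t ∈ certsCon,
    (t.1 = rep a ∧ t.2.1 = rep b) ∨ (t.1 = rep b ∧ t.2.1 = rep a) := by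
  decide +kernel

theorem data_del (a b : Fin 28) (h : G28.Adj a b) : Real (G28.deleteEdges {s(a, b)}) 7 := by
  have key : Real (G28.deleteEdges {s(rep a, rep b)}) 7 := by
    obtain ⟨t, ht, h1⟩ := types_del a b h
    have h2 := List.all_eq_true.mp certsDel_ok t ht
    have h3 := check_sound (G28.deleteEdges {s(t.1, t.2.1)}) _ (del_adj t.1 t.2.1) 7 t.2.2 h2
    rcases h1 with ⟨h4, h5⟩ | ⟨h4, h5⟩
    · rw [← h4, ← h5]
      exact h3.real
    · rw [← h4, ← h5, Sym2.eq_swap]
      exact h3.real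
  refine Real.mono (mv a b) (mv a b).injective ?_ key
  intro x y hxy
  rw [SimpleGraph.deleteEdges_adj] at hxy ⊢
  refine ⟨(mv_auto a b x y).mpr hxy.1, fun e => hxy.2 ?_⟩
  obtain ⟨h1, h2⟩ := mv_apply a b h
  rw [Set.mem_singleton_iff, ← h1, ← h2, Sym2.eq_iff] at e
  rw [Set.mem_singleton_iff, Sym2.eq_iff]
  rcases e with ⟨e1, e2⟩ | ⟨e1, e2⟩
  · exact Or.inl ⟨(mv a b).injective e1, (mv a b).injective e2⟩
  · exact Or.inr ⟨(mv a b).injective e1, (mv a b).injective e2⟩

theorem data_con (a b : Fin 28) (h : G28.Adj a b) : Real (ident G28 a b) 7 := by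
  have key : Real (ident G28 (rep a) (rep b)) 7 := by
    obtain ⟨t, ht, h1⟩ := types_con a b h
    have h2 := List.all_eq_true.mp certsCon_ok t ht
    have h3 := (check_sound (ident G28 t.1 t.2.1) _ (con_adj t.1 t.2.1) 7 t.2.2 h2).real
    rcases h1 with ⟨h4, h5⟩ | ⟨h4, h5⟩
    · rw [← h4, ← h5]
      exact h3
    · rw [← h4, ← h5]
      exact ident_swap _ _ h3
  refine Real.mono (mv a b) (mv a b).injective ?_ key
  obtain ⟨h1, h2⟩ := mv_apply a b h
  rintro x y ⟨h3, h4, h5, h6⟩
  refine ⟨fun e => h3 ((mv a b).injective e), ?_, ?_, ?_⟩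
  · rw [← h2]
    exact fun e => h4 ((mv a b).injective e)
  · rw [← h2]
    exact fun e => h5 ((mv a b).injective e)
  · rcases h6 with h6 | ⟨h6, h7⟩ | ⟨h6, h7⟩
    · exact Or.inl ((mv_auto a b x y).mpr h6)
    · right; left
      exact ⟨by rw [h6, h1], by rw [← h2]; exact (mv_auto a b b y).mpr h7⟩
    · right; right
      exact ⟨by rw [h6, h1], by rw [← h2]; exact (mv_auto a b b x).mpr h7⟩

theorem data_xy : Real (ident G28 0 18) 8 :=
  (check_sound (ident G28 0 18) _ (con_adj 0 18) 8 certXY certXY_ok).real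

end Hopper
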