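import Mathlib

/-!
# Definitions for MP_85d607_co: graphs `G` and `G + xy` that are both surface obstructions

Embeddings of finite graphs in orientable surfaces are described by rotation systems
(Heffter, Edmonds).
-/

namespace Hopper

/-- The number of cycles (orbits, fixed points included) of a permutation. -/
noncomputable def ncyc {D : Type} (π : Equiv.Perm D) : ℕ :=
  Nat.card (Quotient (Equiv.Perm.SameCycle.setoid π))

/-- A rotation system of a simple graph: `next` permutes the darts (oriented edges) of `G`,
it preserves the initial vertex, and the darts leaving a vertex form a single cycle. -/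
structure Rotation {V : Type} (G : SimpleGraph V) where
  next : Equiv.Perm G.Dart
  fst_next : ∀ d : G.Dart, (next d).fst = d.fst
  cyclic : ∀ d e : G.Dart, d.fst = e.fst → next.SameCycle d e

/-- Reversal of darts. -/
def flip {V : Type} (G : SimpleGraph V) : Equiv.Perm G.Dart :=
  Function.Involutive.toPerm SimpleGraph.Dart.symm SimpleGraph.Dart.symm_involutive

/-- The face permutation of a rotation system: after the dart `d = (a, b)` the boundary of the
face continues with the dart that follows `(b, a)` in the rotation at `b`. -/
def Rotation.face {V : Type} {G : SimpleGraph V} (R : Rotation G) : Equiv.Perm G.Dart :=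
  R.next * flip G

/-- Number of edges. -/
noncomputable def nedges {V : Type} (G : SimpleGraph V) : ℕ := Nat.card G.edgeSet

/-- Number of non-isolated vertices. -/
noncomputable def nverts {V : Type} (G : SimpleGraph V) : ℕ := Nat.card {v : V // ∃ w, G.Adj v w}

/-- Number of connected components that contain an edge. -/
noncomputable def ncomps {V : Type} (G : SimpleGraph V) : ℕ :=
  Nat.card {c : G.ConnectedComponent // ∃ v w, G.Adj v w ∧ G.connectedComponentMk v = c}

/-- `G` embeds in the orientable surface of genus `k`: for some rotation system the sum of the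
genera `g_c` of its components, given by Euler's formula `V - E + F = 2 - 2 g_c`, is at most `k`.
(Isolated vertices play no role.) -/
def Embeds {V : Type} (G : SimpleGraph V) (k : ℕ) : Prop :=
  ∃ R : Rotation G, 2 * ncomps G + nedges G ≤ nverts G + ncyc R.face + 2 * k

/-- A finite simple graph together with its vertex type. -/
structure FG where
  V : Type
  fin : Finite V
  G : SimpleGraph V

/-- Delete the edge `ab`. -/
def FG.delEdge (X : FG) (a b : X.V) : FG :=
  ⟨X.V, X.fin, X.G.deleteEdges {s(a, b)}⟩

/-- Delete the vertex `v`. -/
def FG.delVert (X : FG) (v : X.V) : FG :=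
  ⟨{w : X.V // w ≠ v}, by have := X.fin; infer_instance, X.G.comap Subtype.val⟩

/-- Contract the edge `ab`: the vertex `b` is merged into `a`; multiple edges are replaced by
single edges. -/
def contr {V : Type} (G : SimpleGraph V) (a b : V) : SimpleGraph {w : V // w ≠ b} where
  Adj x y := x ≠ y ∧ (G.Adj x y ∨ (x.1 = a ∧ G.Adj b y) ∨ (y.1 = a ∧ G.Adj b x))
  symm := ⟨fun x y h => ⟨h.1.symm, h.2.elim (fun h => Or.inl h.symm)
    (fun h => h.elim (fun h => Or.inr (Or.inr h)) (fun h => Or.inr (Or.inl h)))⟩⟩
  loopless := ⟨fun x h => h.1 rfl⟩

def FG.contract (X : FG) (a b : X.V) : FG :=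
  ⟨{w : X.V // w ≠ b}, by have := X.fin; infer_instance, contr X.G a b⟩

/-- Elementary minor operations (and isomorphisms). -/
inductive Step : FG → FG → Prop
  | iso (X Y : FG) : Nonempty (X.G ≃g Y.G) → Step X Y
  | delEdge (X : FG) (a b : X.V) : X.G.Adj a b → Step X (X.delEdge a b)
  | delVert (X : FG) (v : X.V) : Step X (X.delVert v)
  | contract (X : FG) (a b : X.V) : X.G.Adj a b → Step X (X.contract a b)

/-- `IsMinor X Y`: the graph `Y` is (isomorphic to) a minor of `X`. -/
def IsMinor (X Y : FG) : Prop := Relation.ReflTransGen Step X Y

/-- `X` is an obstruction for the orientable surface of genus `k`: it does not embed, but every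
proper minor (a minor not isomorphic to `X`) does. -/
def IsObstruction (X : FG) (k : ℕ) : Prop :=
  ¬ Embeds X.G k ∧ ∀ Y : FG, IsMinor X Y → ¬ Nonempty (X.G ≃g Y.G) → Embeds Y.G k

end Hopper
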