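import Pool.Agent.Work.MP_85d607_co.Core

/-!
# Module Euler: face counting in levelled graphs
-/

namespace Hopper

open Equiv

namespace Eul

theorem sum_le {D : Type} [Finite D] (π : Perm D)
    [Fintype (Quotient (Perm.SameCycle.setoid π))]
    (w : Quotient (Perm.SameCycle.setoid π) → ℕ)
    (hS : ∀ d : D, ∃ S : Finset D, w (Quotient.mk _ d) ≤ S.card ∧ ∀ e ∈ S, π.SameCycle d e) :
    ∑ q, w q ≤ Nat.card D := by
  classical
  have := Fintype.ofFinite D
  have hS' : ∀ q : Quotient (Perm.SameCycle.setoid π), ∃ S : Finset D, w q ≤ S.card ∧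
      ∀ e ∈ S, (Quotient.mk _ e : Quotient (Perm.SameCycle.setoid π)) = q := by
    intro q
    induction q using Quotient.inductionOn with
    | _ d =>
      obtain ⟨S, h1, h2⟩ := hS d
      refine ⟨S, h1, ?_⟩
      intro e he
      exact Quotient.sound (h2 e he).symm
  choose S h1 h2 using hS'
  have hdisj : ∀ q ∈ (Finset.univ : Finset (Quotient (Perm.SameCycle.setoid π))),
      ∀ r ∈ (Finset.univ : Finset (Quotient (Perm.SameCycle.setoid π))), q ≠ r →
      Disjoint (S q) (S r) := by
    intro q _ r _ hqr
    rw [Finset.disjoint_left]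
    intro e he he'
    exact hqr ((h2 q e he).symm.trans (h2 r e he'))
  calc ∑ q, w q ≤ ∑ q, (S q).card := Finset.sum_le_sum (fun q _ => h1 q)
    _ = (Finset.univ.biUnion S).card := (Finset.card_biUnion hdisj).symm
    _ ≤ Fintype.card D := Finset.card_le_univ _
    _ = Nat.card D := (Nat.card_eq_fintype_card).symm

theorem four {D : Type} (π : Perm D) (d : D) (h1 : π d ≠ d) (h2 : π (π d) ≠ d)
    (h3 : π (π (π d)) ≠ d) :
    ∃ S : Finset D, 4 ≤ S.card ∧ ∀ e ∈ S, π.SameCycle d e := by
  classical
  refine ⟨{d, π d, π (π d), π (π (π d))}, ?_, ?_⟩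
  · rw [Finset.card_insert_of_notMem, Finset.card_insert_of_notMem, Finset.card_insert_of_notMem,
      Finset.card_singleton]
    · intro h
      rw [Finset.mem_singleton] at h
      exact h1 (π.injective (π.injective h)).symm
    · intro h
      rw [Finset.mem_insert, Finset.mem_singleton] at h
      rcases h with h | h
      · exact h1 (π.injective h).symm
      · exact h2 (π.injective h).symm
    · intro h
      rw [Finset.mem_insert, Finset.mem_insert, Finset.mem_singleton] at h
      rcases h with h | h | h
      · exact h1 h.symm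
      · exact h2 h.symm
      · exact h3 h.symm
  · intro e he
    rw [Finset.mem_insert, Finset.mem_insert, Finset.mem_insert, Finset.mem_singleton] at he
    rcases he with rfl | rfl | rfl | rfl
    · exact Perm.SameCycle.refl _ _
    · exact ⟨1, by simp⟩
    · exact ⟨2, by simp [zpow_ofNat, pow_succ]⟩
    · exact ⟨3, by simp [zpow_ofNat, pow_succ]⟩

/-- crossing a threshold along a cycle -/
theorem cross {D : Type} [Finite D] (π : Perm D) (P : D → Prop) {d d' : D} (h : π.SameCycle d d')
    (hd : P d) (hd' : ¬ P d') : ∃ e, π.SameCycle d e ∧ P e ∧ ¬ P (π e) := by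
  by_contra hne
  push Not at hne
  have key : ∀ n : ℕ, P ((π ^ n) d) := by
    intro n
    induction n with
    | zero => simpa using hd
    | succ n ih =>
      have := hne ((π ^ n) d) ⟨(n : ℤ), by simp⟩ ih
      rw [pow_succ', Perm.mul_apply]
      exact this
  obtain ⟨n, hn⟩ := h.exists_nat_pow_eq
  exact hd' (hn ▸ key n)

section Rot

variable {V : Type} {Y : SimpleGraph V} (R : Rotation Y)

theorem face_apply (d : Y.Dart) : R.face d = R.next d.symm := rfl

theorem face_fst (d : Y.Dart) : (R.face d).fst = d.snd := by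
  rw [face_apply, R.fst_next]
  rfl

theorem face_ne_symm (hdeg : ∀ a b, Y.Adj a b → ∃ c, c ≠ b ∧ Y.Adj a c) (d : Y.Dart) :
    R.face d ≠ d.symm := by
  intro h
  rw [face_apply] at h
  obtain ⟨c, hc, hadj⟩ := hdeg d.snd d.fst d.adj.symm
  let e : Y.Dart := ⟨(d.snd, c), hadj⟩
  have hs := R.cyclic d.symm e rfl
  have := hs.eq_of_left h
  have h2 : d.symm.snd = e.snd := by rw [this]
  exact hc h2.symm

theorem face_snd_ne (hdeg : ∀ a b, Y.Adj a b → ∃ c, c ≠ b ∧ Y.Adj a c) (d : Y.Dart) :
    (R.face d).snd ≠ d.fst := by
  intro h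
  apply face_ne_symm R hdeg d
  apply SimpleGraph.Dart.ext
  exact Prod.ext (face_fst R d) h

theorem face1 (d : Y.Dart) : R.face d ≠ d := by
  intro h
  have h1 := face_fst R d
  rw [h] at h1
  exact d.adj.ne h1

theorem face2 (hdeg : ∀ a b, Y.Adj a b → ∃ c, c ≠ b ∧ Y.Adj a c) (d : Y.Dart) :
    R.face (R.face d) ≠ d := by
  intro h
  have h1 := face_fst R (R.face d)
  rw [h] at h1
  exact face_snd_ne R hdeg d h1.symm

theorem face3 (h : V → ℤ) (d : Y.Dart)
    (h1 : h d.fst = h d.snd + 1 ∨ h d.snd = h d.fst + 1)
    (h2 : h (R.face d).fst = h (R.face d).snd + 1 ∨ h (R.face d).snd = h (R.face d).fst + 1)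
    (h3 : h (R.face (R.face d)).fst = h (R.face (R.face d)).snd + 1 ∨
      h (R.face (R.face d)).snd = h (R.face (R.face d)).fst + 1) :
    R.face (R.face (R.face d)) ≠ d := by
  intro he
  have e1 := face_fst R d
  have e2 := face_fst R (R.face d)
  have e3 := face_fst R (R.face (R.face d))
  rw [he] at e3
  rw [e1] at h2
  rw [e2] at h3
  rw [← e3] at h3
  omega

end Rot

/-- kinds of darts by the levels of their ends -/
def kd (D u v : ℤ) : ℕ :=
  if u = 0 ∧ v = D then 0
  else if u = D ∧ v = 0 then 1
  else if u = D then 2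
  else if v = D then 4
  else if u = 0 then 6
  else if v = 0 then 8
  else if u = 1 ∨ u = -1 then 7
  else if v = 1 ∨ v = -1 then 9
  else if u = D + 1 ∨ u = D - 1 then 3
  else 5

theorem kd0 (D u v : ℤ) (h : u = 0 ∧ v = D) : kd D u v = 0 := by
  rw [kd, if_pos h]

theorem kd1 (D u v : ℤ) (hD : 4 ≤ D) (h : u = D ∧ v = 0) : kd D u v = 1 := by
  rw [kd, if_neg (by omega), if_pos h]

theorem kd2 (D u v : ℤ) (hD : 4 ≤ D) (h : u = D) (h' : v = D + 1 ∨ v = D - 1) :
    kd D u v = 2 := by
  rw [kd, if_neg (by omega), if_neg (by omega), if_pos h]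

theorem kd3 (D u v : ℤ) (hD : 4 ≤ D) (h : (u = D + 1 ∧ v = D + 2) ∨ (u = D - 1 ∧ v = D - 2)) :
    kd D u v = 3 := by
  rw [kd, if_neg (by omega), if_neg (by omega), if_neg (by omega), if_neg (by omega),
    if_neg (by omega), if_neg (by omega), if_neg (by omega), if_neg (by omega), if_pos (by omega)]

theorem kd4 (D u v : ℤ) (hD : 4 ≤ D) (h : v = D) (h' : u = D + 1 ∨ u = D - 1) :
    kd D u v = 4 := by
  rw [kd, if_neg (by omega), if_neg (by omega), if_neg (by omega), if_pos h]

theorem kd5 (D u v : ℤ) (hD : 4 ≤ D) (h : (v = D + 1 ∧ u = D + 2) ∨ (v = D - 1 ∧ u = D - 2)) :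
    kd D u v = 5 := by
  rw [kd, if_neg (by omega), if_neg (by omega), if_neg (by omega), if_neg (by omega),
    if_neg (by omega), if_neg (by omega), if_neg (by omega), if_neg (by omega), if_neg (by omega)]

theorem kd6 (D u v : ℤ) (hD : 4 ≤ D) (h : u = 0) (h' : v = 1 ∨ v = -1) :
    kd D u v = 6 := by
  rw [kd, if_neg (by omega), if_neg (by omega), if_neg (by omega), if_neg (by omega), if_pos h]

theorem kd7 (D u v : ℤ) (hD : 4 ≤ D) (h : (u = 1 ∧ v = 2) ∨ (u = -1 ∧ v = -2)) :
    kd D u v = 7 := by
  rw [kd, if_neg (by omega), if_neg (by omega), if_neg (by omega), if_neg (by omega),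
    if_neg (by omega), if_neg (by omega), if_pos (by omega)]

theorem kd8 (D u v : ℤ) (hD : 4 ≤ D) (h : v = 0) (h' : u = 1 ∨ u = -1) :
    kd D u v = 8 := by
  rw [kd, if_neg (by omega), if_neg (by omega), if_neg (by omega), if_neg (by omega),
    if_neg (by omega), if_pos h]

theorem kd9 (D u v : ℤ) (hD : 4 ≤ D) (h : (v = 1 ∧ u = 2) ∨ (v = -1 ∧ u = -2)) :
    kd D u v = 9 := by
  rw [kd, if_neg (by omega), if_neg (by omega), if_neg (by omega), if_neg (by omega),
    if_neg (by omega), if_neg (by omega), if_neg (by omega), if_pos (by omega)]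

theorem card_dart {V : Type} [Finite V] (Y : SimpleGraph V) : Nat.card Y.Dart = 2 * nedges Y := by
  classical
  have := Fintype.ofFinite V
  rw [Nat.card_eq_fintype_card, SimpleGraph.dart_card_eq_twice_card_edges, nedges,
    Nat.card_eq_fintype_card, ← SimpleGraph.edgeFinset_card]

end Eul

open Eul

/-- no special edge -/
theorem euler_plain {V : Type} [Finite V] (Y : SimpleGraph V) (h : V → ℤ)
    (hh : ∀ a b, Y.Adj a b → h a = h b + 1 ∨ h b = h a + 1)
    (hdeg : ∀ a b, Y.Adj a b → ∃ c, c ≠ b ∧ Y.Adj a c) (R : Rotation Y) :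
    4 * ncyc R.face ≤ 2 * nedges Y := by
  classical
  have : Fintype V := Fintype.ofFinite V
  have : Fintype (Quotient (Perm.SameCycle.setoid R.face)) := Fintype.ofFinite _
  have key := sum_le R.face (fun _ => 4) (fun d => four R.face d (face1 R d) (face2 R hdeg d)
    (face3 R h d (hh _ _ d.adj) (hh _ _ (R.face d).adj) (hh _ _ (R.face (R.face d)).adj)))
  rw [card_dart] at key
  rw [Finset.sum_const, Finset.card_univ, smul_eq_mul, mul_comm] at key
  rw [ncyc, Nat.card_eq_fintype_card]
  exact key

/-- one special edge `x y` joining the only vertex of level `0` to the only vertex of level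
`D` -/
theorem euler_special {V : Type} [Finite V] (Y : SimpleGraph V) (h : V → ℤ) (x y : V) (D : ℕ)
    (hD : 4 ≤ D) (hD' : D ≤ 6) (hxy : Y.Adj x y) (hx : h x = 0) (hy : h y = D)
    (hx' : ∀ a b, Y.Adj a b → h a = 0 → a = x) (hy' : ∀ a b, Y.Adj a b → h a = D → a = y)
    (hh : ∀ a b, Y.Adj a b → h a = h b + 1 ∨ h b = h a + 1 ∨ (a = x ∧ b = y) ∨ (a = y ∧ b = x))
    (hdeg : ∀ a b, Y.Adj a b → ∃ c, c ≠ b ∧ Y.Adj a c) (R : Rotation Y) :
    4 * ncyc R.face + 2 * D ≤ 2 * nedges Y + 6 := by
  classical
  have : Fintype V := Fintype.ofFinite V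
  have : Fintype (Quotient (Perm.SameCycle.setoid R.face)) := Fintype.ofFinite _
  obtain ⟨dxy, xy1, xy2⟩ : ∃ d : Y.Dart, d.fst = x ∧ d.snd = y := ⟨⟨(x, y), hxy⟩, rfl, rfl⟩
  obtain ⟨dyx, yx1, yx2⟩ : ∃ d : Y.Dart, d.fst = y ∧ d.snd = x := ⟨⟨(y, x), hxy.symm⟩, rfl, rfl⟩
  -- ordinary darts
  have hord : ∀ d : Y.Dart, d ≠ dxy → d ≠ dyx → h d.fst = h d.snd + 1 ∨ h d.snd = h d.fst + 1 := by
    intro d h1 h2
    rcases hh _ _ d.adj with h3 | h3 | h3 | h3
    · exact Or.inl h3
    · exact Or.inr h3
    · exact absurd (SimpleGraph.Dart.ext _ _ (Prod.ext (h3.1.trans xy1.symm) (h3.2.trans xy2.symm))) h1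
    · exact absurd (SimpleGraph.Dart.ext _ _ (Prod.ext (h3.1.trans yx1.symm) (h3.2.trans yx2.symm))) h2
  -- cycles without special darts
  have hfour : ∀ d : Y.Dart, ¬ R.face.SameCycle d dxy → ¬ R.face.SameCycle d dyx →
      ∃ S : Finset Y.Dart, 4 ≤ S.card ∧ ∀ e ∈ S, R.face.SameCycle d e := by
    intro d h1 h2
    have hcyc : ∀ e, R.face.SameCycle d e → h e.fst = h e.snd + 1 ∨ h e.snd = h e.fst + 1 := by
      intro e he
      refine hord e ?_ ?_
      · rintro rfl; exact h1 he
      · rintro rfl; exact h2 he
    exact four R.face d (face1 R d) (face2 R hdeg d)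
      (face3 R h d (hcyc _ (Perm.SameCycle.refl _ _)) (hcyc _ ⟨1, by simp⟩)
        (hcyc _ ⟨2, by simp [zpow_ofNat, pow_succ]⟩))
  by_cases hsame : R.face.SameCycle dxy dyx
  · -- same cycle: ten darts
    have hten : ∃ S : Finset Y.Dart, 10 ≤ S.card ∧ ∀ e ∈ S, R.face.SameCycle dxy e := by
      -- the three darts after dxy and the ones before dyx
      set a1 := R.face dxy with ha1
      set a2 := R.face a1 with ha2
      set b1 := R.face.symm dyx with hb1
      set b2 := R.face.symm b1 with hb2
      set c1 := R.face dyx with hc1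
      set c2 := R.face c1 with hc2
      set e1 := R.face.symm dxy with he1
      set e2 := R.face.symm e1 with he2
      have fb1 : R.face b1 = dyx := R.face.apply_symm_apply _
      have fb2 : R.face b2 = b1 := R.face.apply_symm_apply _
      have fe1 : R.face e1 = dxy := R.face.apply_symm_apply _
      have fe2 : R.face e2 = e1 := R.face.apply_symm_apply _
      have ta1 : a1.fst = y := (face_fst R dxy).trans xy2
      have ta2 : a2.fst = a1.snd := face_fst R a1
      have tc1 : c1.fst = x := (face_fst R dyx).trans yx2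
      have tc2 : c2.fst = c1.snd := face_fst R c1
      have tb1 : b1.snd = y := by have := face_fst R b1; rw [fb1, yx1] at this; exact this.symm
      have tb2 : b2.snd = b1.fst := by have := face_fst R b2; rw [fb2] at this; exact this.symm
      have te1 : e1.snd = x := by have := face_fst R e1; rw [fe1, xy1] at this; exact this.symm
      have te2 : e2.snd = e1.fst := by have := face_fst R e2; rw [fe2] at this; exact this.symm
      have na1 : a1.snd ≠ x := by have := face_snd_ne R hdeg dxy; rw [xy1] at this; exact this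
      have na2 : a2.snd ≠ y := by have := face_snd_ne R hdeg a1; rw [ta1] at this; exact this
      have nc1 : c1.snd ≠ y := by have := face_snd_ne R hdeg dyx; rw [yx1] at this; exact this
      have nc2 : c2.snd ≠ x := by have := face_snd_ne R hdeg c1; rw [tc1] at this; exact this
      have nb1 : b1.fst ≠ x := by
        have := face_snd_ne R hdeg b1; rw [fb1, yx2] at this; exact fun h => this h.symm
      have nb2 : b2.fst ≠ y := by
        have := face_snd_ne R hdeg b2; rw [fb2, tb1] at this; exact fun h => this h.symm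
      have ne1 : e1.fst ≠ y := by
        have := face_snd_ne R hdeg e1; rw [fe1, xy2] at this; exact fun h => this h.symm
      have ne2 : e2.fst ≠ x := by
        have := face_snd_ne R hdeg e2; rw [fe2, te1] at this; exact fun h => this h.symm
      have hne : x ≠ y := hxy.ne
      -- levels
      have la1 : h a1.fst = D := by rw [ta1, hy]
      have la1' : h a1.snd = D + 1 ∨ h a1.snd = D - 1 := by
        rcases hh _ _ a1.adj with h3 | h3 | h3 | h3
        · right; omega
        · left; omega
        · exact absurd (h3.1.symm.trans ta1) hne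
        · exact absurd h3.2 na1
      have la2 : h a2.snd ≠ D := fun hc => na2 (hy' _ _ a2.adj.symm hc)
      have la2' : (h a2.fst = D + 1 ∧ h a2.snd = D + 2) ∨ (h a2.fst = D - 1 ∧ h a2.snd = D - 2) := by
        rw [← ta2] at la1' na1
        rcases hh _ _ a2.adj with h3 | h3 | h3 | h3
        · omega
        · omega
        · exact absurd h3.1 na1
        · exact absurd h3.1 (by intro hc; rw [hc, hy] at la1'; omega)
      have lc1 : h c1.fst = 0 := by rw [tc1, hx]
      have lc1' : h c1.snd = 1 ∨ h c1.snd = -1 := by
        rcases hh _ _ c1.adj with h3 | h3 | h3 | h3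
        · right; omega
        · left; omega
        · exact absurd h3.2 nc1
        · exact absurd (h3.1.symm.trans tc1) hne.symm
      have lc2 : h c2.snd ≠ 0 := fun hc => nc2 (hx' _ _ c2.adj.symm hc)
      have lc2' : (h c2.fst = 1 ∧ h c2.snd = 2) ∨ (h c2.fst = -1 ∧ h c2.snd = -2) := by
        rw [← tc2] at lc1' nc1
        rcases hh _ _ c2.adj with h3 | h3 | h3 | h3
        · omega
        · omega
        · exact absurd h3.1 (by intro hc; rw [hc, hx] at lc1'; omega)
        · exact absurd h3.1 nc1
      have lb1 : h b1.snd = D := by rw [tb1, hy]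
      have lb1' : h b1.fst = D + 1 ∨ h b1.fst = D - 1 := by
        rcases hh _ _ b1.adj with h3 | h3 | h3 | h3
        · left; omega
        · right; omega
        · exact absurd h3.1 nb1
        · exact absurd (h3.2.symm.trans tb1) hne
      have lb2 : h b2.fst ≠ D := fun hc => nb2 (hy' _ _ b2.adj hc)
      have lb2' : (h b2.snd = D + 1 ∧ h b2.fst = D + 2) ∨ (h b2.snd = D - 1 ∧ h b2.fst = D - 2) := by
        rw [← tb2] at lb1' nb1
        rcases hh _ _ b2.adj with h3 | h3 | h3 | h3
        · omega
        · omega
        · exact absurd h3.2 (by intro hc; rw [hc, hy] at lb1'; omega)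
        · exact absurd h3.2 nb1
      have le1 : h e1.snd = 0 := by rw [te1, hx]
      have le1' : h e1.fst = 1 ∨ h e1.fst = -1 := by
        rcases hh _ _ e1.adj with h3 | h3 | h3 | h3
        · left; omega
        · right; omega
        · exact absurd (h3.2.symm.trans te1) hne.symm
        · exact absurd h3.1 ne1
      have le2 : h e2.fst ≠ 0 := fun hc => ne2 (hx' _ _ e2.adj hc)
      have le2' : (h e2.snd = 1 ∧ h e2.fst = 2) ∨ (h e2.snd = -1 ∧ h e2.fst = -2) := by
        rw [← te2] at le1' ne1
        rcases hh _ _ e2.adj with h3 | h3 | h3 | h3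
        · omega
        · omega
        · exact absurd h3.2 ne1
        · exact absurd h3.2 (by intro hc; rw [hc, hx] at le1'; omega)
      have lxy : h dxy.fst = 0 ∧ h dxy.snd = D := by rw [xy1, xy2]; exact ⟨hx, hy⟩
      have lyx : h dyx.fst = D ∧ h dyx.snd = 0 := by rw [yx1, yx2]; exact ⟨hy, hx⟩
      have hDz : (4 : ℤ) ≤ (D : ℤ) := by exact_mod_cast hD
      have hnd : [dxy, dyx, a1, a2, b1, b2, c1, c2, e1, e2].Nodup := by
        apply List.Nodup.of_map (fun d : Y.Dart => kd D (h d.fst) (h d.snd))
        have : List.map (fun d : Y.Dart => kd D (h d.fst) (h d.snd))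
            [dxy, dyx, a1, a2, b1, b2, c1, c2, e1, e2] = [0, 1, 2, 3, 4, 5, 6, 7, 8, 9] := by
          simp only [List.map_cons, List.map_nil]
          rw [kd0 _ _ _ lxy, kd1 _ _ _ hDz lyx, kd2 _ _ _ hDz la1 la1', kd3 _ _ _ hDz la2',
            kd4 _ _ _ hDz lb1 lb1', kd5 _ _ _ hDz lb2', kd6 _ _ _ hDz lc1 lc1',
            kd7 _ _ _ hDz lc2', kd8 _ _ _ hDz le1 le1', kd9 _ _ _ hDz le2']
        rw [this]
        decide
      refine ⟨[dxy, dyx, a1, a2, b1, b2, c1, c2, e1, e2].toFinset, ?_, ?_⟩
      · rw [List.toFinset_card_of_nodup hnd]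
        simp
      · have s1 : R.face.SameCycle dxy a1 := ⟨1, by simp [ha1]⟩
        have s2 : R.face.SameCycle dxy a2 := s1.trans ⟨1, by simp [ha2]⟩
        have s3 : R.face.SameCycle dyx b1 := Perm.SameCycle.symm ⟨1, by simp [fb1]⟩
        have s4 : R.face.SameCycle b1 b2 := Perm.SameCycle.symm ⟨1, by simp [fb2]⟩
        have s5 : R.face.SameCycle dyx c1 := ⟨1, by simp [hc1]⟩
        have s6 : R.face.SameCycle c1 c2 := ⟨1, by simp [hc2]⟩
        have s7 : R.face.SameCycle dxy e1 := Perm.SameCycle.symm ⟨1, by simp [fe1]⟩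
        have s8 : R.face.SameCycle e1 e2 := Perm.SameCycle.symm ⟨1, by simp [fe2]⟩
        intro e he
        rw [List.mem_toFinset] at he
        simp only [List.mem_cons, List.not_mem_nil, or_false] at he
        rcases he with rfl | rfl | rfl | rfl | rfl | rfl | rfl | rfl | rfl | rfl
        · exact Perm.SameCycle.refl _ _
        · exact hsame
        · exact s1
        · exact s2
        · exact hsame.trans s3
        · exact (hsame.trans s3).trans s4
        · exact hsame.trans s5
        · exact (hsame.trans s5).trans s6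
        · exact s7
        · exact s7.trans s8
    obtain ⟨S0, hS0, hS0'⟩ := hten
    have key := sum_le R.face
      (fun q => 4 + (if q = (Quotient.mk _ dxy) then 6 else 0)) (by
        intro d
        by_cases hd : R.face.SameCycle d dxy
        · refine ⟨S0, ?_, fun e he => hd.trans (hS0' e he)⟩
          have : (4 + (if (Quotient.mk (Perm.SameCycle.setoid R.face) d) = (Quotient.mk _ dxy)
            then 6 else 0)) ≤ 10 := by split_ifs <;> omega
          exact this.trans hS0
        · obtain ⟨S, hS, hS'⟩ := hfour d hd (fun hc => hd (hc.trans hsame.symm))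
          refine ⟨S, ?_, hS'⟩
          rw [if_neg]
          · simpa using hS
          · intro hc
            exact hd (Quotient.exact hc))
    rw [card_dart, Finset.sum_add_distrib, Finset.sum_const, Finset.card_univ, smul_eq_mul,
      Finset.sum_ite_eq' Finset.univ, if_pos (Finset.mem_univ _)] at key
    rw [ncyc, Nat.card_eq_fintype_card]
    omega
  · -- different cycles
    have hlong1 : ∃ S : Finset Y.Dart, D + 1 ≤ S.card ∧ ∀ e ∈ S, R.face.SameCycle dxy e := by
      have hstep : ∀ i : ℕ, i < D → ∃ e : Y.Dart, R.face.SameCycle dxy e ∧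
          h e.fst = i + 1 ∧ h e.snd = i := by
        intro i hi
        have s1 : R.face.SameCycle (R.face dxy) dxy := Perm.SameCycle.symm ⟨1, by simp⟩
        obtain ⟨e, he1, he2, he3⟩ := cross R.face (fun d => (i : ℤ) < h d.fst) s1
          (by rw [face_fst, xy2, hy]; exact_mod_cast hi) (by rw [xy1, hx]; omega)
        rw [face_fst] at he3
        have he4 : R.face.SameCycle dxy e := s1.symm.trans he1
        have he5 : e ≠ dyx := by
          rintro rfl; exact hsame he4
        have he6 : e ≠ dxy := by
          rintro rfl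
          rw [xy1, hx] at he2
          omega
        refine ⟨e, he4, ?_, ?_⟩
        · rcases hord e he6 he5 with h3 | h3 <;> omega
        · rcases hord e he6 he5 with h3 | h3 <;> omega
      have : Nonempty Y.Dart := ⟨dxy⟩
      choose! g hg1 hg2 hg3 using hstep
      refine ⟨insert dxy ((Finset.range D).image g), ?_, ?_⟩
      · rw [Finset.card_insert_of_notMem, Finset.card_image_of_injOn, Finset.card_range]
        · intro i hi j hj hij
          have h1 := hg3 i (by simpa using hi)
          have h2 := hg3 j (by simpa using hj)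
          have hij' : g i = g j := hij
          rw [hij'] at h1
          omega
        · intro hc
          obtain ⟨i, hi, hi'⟩ := Finset.mem_image.1 hc
          have h1 := hg2 i (by simpa using hi)
          rw [hi', xy1, hx] at h1
          omega
      · intro e he
        rcases Finset.mem_insert.1 he with rfl | he
        · exact Perm.SameCycle.refl _ _
        · obtain ⟨i, hi, rfl⟩ := Finset.mem_image.1 he
          exact hg1 i (by simpa using hi)
    have hlong2 : ∃ S : Finset Y.Dart, D + 1 ≤ S.card ∧ ∀ e ∈ S, R.face.SameCycle dyx e := by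
      have hstep : ∀ i : ℕ, i < D → ∃ e : Y.Dart, R.face.SameCycle dyx e ∧
          h e.fst = i ∧ h e.snd = i + 1 := by
        intro i hi
        have s1 : R.face.SameCycle (R.face dyx) dyx := Perm.SameCycle.symm ⟨1, by simp⟩
        obtain ⟨e, he1, he2, he3⟩ := cross R.face (fun d => h d.fst ≤ (i : ℤ)) s1
          (by rw [face_fst, yx2, hx]; omega) (by rw [yx1, hy]; omega)
        rw [face_fst] at he3
        have he4 : R.face.SameCycle dyx e := s1.symm.trans he1
        have he5 : e ≠ dxy := by
          rintro rfl; exact hsame he4.symm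
        have he6 : e ≠ dyx := by
          rintro rfl
          rw [yx1, hy] at he2
          omega
        refine ⟨e, he4, ?_, ?_⟩
        · rcases hord e he5 he6 with h3 | h3 <;> omega
        · rcases hord e he5 he6 with h3 | h3 <;> omega
      have : Nonempty Y.Dart := ⟨dxy⟩
      choose! g hg1 hg2 hg3 using hstep
      refine ⟨insert dyx ((Finset.range D).image g), ?_, ?_⟩
      · rw [Finset.card_insert_of_notMem, Finset.card_image_of_injOn, Finset.card_range]
        · intro i hi j hj hij
          have h1 := hg3 i (by simpa using hi)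
          have h2 := hg3 j (by simpa using hj)
          have hij' : g i = g j := hij
          rw [hij'] at h1
          omega
        · intro hc
          obtain ⟨i, hi, hi'⟩ := Finset.mem_image.1 hc
          have hi2 : i < D := by simpa using hi
          have h1 := hg2 i hi2
          rw [hi', yx1, hy] at h1
          omega
      · intro e he
        rcases Finset.mem_insert.1 he with rfl | he
        · exact Perm.SameCycle.refl _ _
        · obtain ⟨i, hi, rfl⟩ := Finset.mem_image.1 he
          exact hg1 i (by simpa using hi)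
    obtain ⟨S1, hS1, hS1'⟩ := hlong1
    obtain ⟨S2, hS2, hS2'⟩ := hlong2
    have key := sum_le R.face
      (fun q => 4 + (if q = (Quotient.mk _ dxy) then D - 3 else 0)
        + (if q = (Quotient.mk _ dyx) then D - 3 else 0)) (by
        intro d
        by_cases hd : R.face.SameCycle d dxy
        · refine ⟨S1, ?_, fun e he => hd.trans (hS1' e he)⟩
          have hn : (Quotient.mk (Perm.SameCycle.setoid R.face) d) ≠ (Quotient.mk _ dyx) := by
            intro hc
            exact hsame (hd.symm.trans (Quotient.exact hc))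
          have : (4 + (if (Quotient.mk (Perm.SameCycle.setoid R.face) d) = (Quotient.mk _ dxy)
            then D - 3 else 0) + (if (Quotient.mk (Perm.SameCycle.setoid R.face) d)
              = (Quotient.mk _ dyx) then D - 3 else 0)) ≤ D + 1 := by
            rw [if_neg hn]
            split_ifs <;> omega
          exact this.trans hS1
        · by_cases hd' : R.face.SameCycle d dyx
          · refine ⟨S2, ?_, fun e he => hd'.trans (hS2' e he)⟩
            have hn : (Quotient.mk (Perm.SameCycle.setoid R.face) d) ≠ (Quotient.mk _ dxy) := by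
              intro hc
              exact hd (Quotient.exact hc)
            have : (4 + (if (Quotient.mk (Perm.SameCycle.setoid R.face) d) = (Quotient.mk _ dxy)
              then D - 3 else 0) + (if (Quotient.mk (Perm.SameCycle.setoid R.face) d)
                = (Quotient.mk _ dyx) then D - 3 else 0)) ≤ D + 1 := by
              rw [if_neg hn]
              split_ifs <;> omega
            exact this.trans hS2
          · obtain ⟨S, hS, hS'⟩ := hfour d hd hd'
            refine ⟨S, ?_, hS'⟩
            rw [if_neg, if_neg]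
            · simpa using hS
            · intro hc
              exact hd' (Quotient.exact hc)
            · intro hc
              exact hd (Quotient.exact hc))
    rw [card_dart, Finset.sum_add_distrib, Finset.sum_add_distrib, Finset.sum_const,
      Finset.card_univ, smul_eq_mul, Finset.sum_ite_eq' Finset.univ,
      Finset.sum_ite_eq' Finset.univ, if_pos (Finset.mem_univ _), if_pos (Finset.mem_univ _)] at key
    rw [ncyc, Nat.card_eq_fintype_card]
    omega

end Hopper
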