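import Pool.Agent.Work.MP_85d607_co.Gam

/-!
# Module Mono: subgraphs, contraction of an edge, addition of an edge (flexible realisations)
-/

namespace Hopper

open Equiv

theorem Real.mono {V W : Type} {G : SimpleGraph V} {H : SimpleGraph W} {k : ℕ} (f : W → V)
    (hf : Function.Injective f) (hadj : ∀ x y, H.Adj x y → G.Adj (f x) (f y)) (h : Real G k) :
    Real H k := by
  classical
  obtain ⟨D, hD, σ, α, lab, h1, h2, h3, h4, h5, h6⟩ := h
  let F : Option V → Option W := fun o =>
    if hw : ∃ w, o = some (f w) then some hw.choose else none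
  have hF : ∀ o w, F o = some w ↔ o = some (f w) := by
    intro o w
    by_cases hw : ∃ w, o = some (f w)
    · have e1 : F o = some hw.choose := dif_pos hw
      rw [e1, Option.some_inj]
      constructor
      · intro e
        rw [← e]
        exact hw.choose_spec
      · intro e
        have := hw.choose_spec.symm.trans e
        exact hf (Option.some_inj.mp this)
    · have e1 : F o = none := dif_neg hw
      rw [e1]
      constructor
      · intro e
        cases e
      · intro e
        exact absurd ⟨w, e⟩ hw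
  refine ⟨D, hD, σ, α, fun d => F (lab d), h1, h2, ?_, ?_, ?_, h6⟩
  · intro d
    show F (lab (σ d)) = F (lab d)
    rw [h3 d]
  · intro d e v hd he
    exact h4 d e (f v) ((hF _ _).mp hd) ((hF _ _).mp he)
  · intro a b hab
    obtain ⟨d, hd1, hd2⟩ := h5 _ _ (hadj a b hab)
    exact ⟨d, (hF _ _).mpr hd1, (hF _ _).mpr hd2⟩

/-- characterisation of the first return permutation -/
private theorem mono_ret_eq {D : Type} [Finite D] (π : Perm D) (T : D → Prop)
    (x : {d : D // T d}) (n : ℕ) (hn : 0 < n) (hT : T ((π ^ n) x.1))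
    (hmin : ∀ m, 0 < m → m < n → ¬ T ((π ^ m) x.1)) :
    ((ret π T x : {d : D // T d}) : D) = (π ^ n) x.1 := by
  obtain ⟨r, hr0, hr1, hr2⟩ := ret_spec π T x
  have h : r = n := by
    rcases lt_trichotomy r n with h | h | h
    · exact absurd (hr1 ▸ (ret π T x).2) (hmin r hr0 h)
    · exact h
    · exact absurd hT (hr2 n hn h)
  rw [hr1, h]

private theorem mono_chain {D : Type} (σ : Perm D) (T : D → Prop) (τ : Perm {d : D // T d})
    (hτ : ∀ x : {d : D // T d}, T (σ x.1) → (τ x).1 = σ x.1) (y : {d : D // T d}) (n : ℕ) :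
    ∀ x : {d : D // T d}, (σ ^ n) x.1 = y.1 → (∀ m, m ≤ n → T ((σ ^ m) x.1)) →
      τ.SameCycle x y := by
  induction n with
  | zero =>
    intro x h _
    have : x = y := Subtype.ext (by simpa using h)
    rw [this]
  | succ n ih =>
    intro x h hm
    have h1 : T (σ x.1) := by simpa using hm 1 (by omega)
    have h2 := ih (τ x) (by
      rw [hτ x h1]
      rw [pow_succ, Perm.mul_apply] at h
      exact h) (by
      intro m hmn
      rw [hτ x h1]
      have := hm (m + 1) (by omega)
      rw [pow_succ, Perm.mul_apply] at this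
      exact this)
    exact Perm.SameCycle.trans ⟨1, by simp⟩ h2

private theorem mono_first {D : Type} [Finite D] (σ : Perm D) (T : D → Prop)
    (τ : Perm {d : D // T d})
    (hτ : ∀ x : {d : D // T d}, T (σ x.1) → (τ x).1 = σ x.1) (δ : D)
    (hδ : ∀ z, σ.SameCycle δ z → z ≠ δ → T z) (hδ' : ¬ T δ)
    (y : {d : D // T d}) (hy : σ.SameCycle δ y.1) :
    ∃ h : T (σ δ), τ.SameCycle ⟨σ δ, h⟩ y := by
  classical
  have hex : ∃ n : ℕ, (σ ^ n) δ = y.1 := hy.exists_nat_pow_eq
  obtain ⟨N, hN, hmin⟩ : ∃ N, (σ ^ N) δ = y.1 ∧ ∀ m < N, (σ ^ m) δ ≠ y.1 :=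
    ⟨Nat.find hex, Nat.find_spec hex, fun m hm => Nat.find_min hex hm⟩
  have hN0 : N ≠ 0 := by
    intro h0
    rw [h0, pow_zero, Perm.one_apply] at hN
    exact hδ' (hN ▸ y.2)
  have hTm : ∀ m, 0 < m → m ≤ N → T ((σ ^ m) δ) := by
    intro m hm0 hmN
    refine hδ _ ⟨m, by simp⟩ ?_
    intro hm
    have h1 : (σ ^ (N - m)) δ = y.1 := by
      rw [← hN]
      conv_rhs => rw [← Nat.sub_add_cancel hmN, pow_add, Perm.mul_apply, hm]
    exact hmin (N - m) (by omega) h1
  obtain ⟨M, rfl⟩ : ∃ M, N = M + 1 := ⟨N - 1, by omega⟩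
  have h1 : T (σ δ) := by simpa using hTm 1 (by omega) (by omega)
  refine ⟨h1, mono_chain σ T τ hτ y M _ ?_ ?_⟩
  · rw [← hN, pow_succ, Perm.mul_apply]
  · intro m hm
    have := hTm (m + 1) (by omega) (by omega)
    rw [pow_succ, Perm.mul_apply] at this
    exact this

/-- contraction of an edge -/
theorem Real.ident {V : Type} {G : SimpleGraph V} {k : ℕ} (a b : V) (hab : G.Adj a b)
    (h : Real G k) : Real (ident G a b) k := by
  classical
  obtain ⟨D, hD, σ, α, lab, h1, h2, h3, h4, h5, h6⟩ := h
  obtain ⟨d, hda, hdb⟩ := h5 a b hab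
  have hne : a ≠ b := hab.ne
  let T : D → Prop := fun x => x ≠ d ∧ x ≠ α d
  have hTdef : ∀ x, T x ↔ (x ≠ d ∧ x ≠ α d) := fun x => Iff.rfl
  have hT : ∀ x, T x → T (α x) := by
    intro x hx
    refine ⟨?_, ?_⟩
    · intro e
      apply hx.2
      rw [← e, h1]
    · intro e
      exact hx.1 (α.injective e)
  let L : Option V → Option V := fun o => if o = some b then some a else o
  have hLb : L (some b) = some a := if_pos rfl
  have hLo : ∀ o, o ≠ some b → L o = o := fun o ho => if_neg ho
  have hLa : L (some a) = some a := hLo _ (by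
    intro e
    exact hne (Option.some_inj.mp e))
  let τ : Perm {x : D // T x} := ret (σ * α) T * resInv α T h1 hT
  have hτ0 : ∀ x : {x : D // T x}, τ x = ret (σ * α) T (resInv α T h1 hT x) := fun x => rfl
  have hφ : ∀ z : D, (σ * α) (α z) = σ z := by
    intro z
    rw [Perm.mul_apply, h1]
  have hτ : ∀ x : {x : D // T x}, T (σ x.1) → (τ x).1 = σ x.1 := by
    intro x hx
    rw [hτ0, ret_of_mem, resInv_apply, hφ]
    rw [resInv_apply, hφ]
    exact hx
  -- labels
  have hlab : ∀ x : {x : D // T x}, L (lab (τ x).1) = L (lab x.1) := by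
    intro x
    obtain ⟨n, hn0, hn1, hn2⟩ := ret_spec (σ * α) T (resInv α T h1 hT x)
    rw [resInv_apply] at hn1 hn2
    rw [hτ0, hn1]
    have key : ∀ m, m + 1 ≤ n → L (lab (((σ * α) ^ (m + 1)) (α x.1))) = L (lab x.1) := by
      intro m
      induction m with
      | zero =>
        intro _
        rw [zero_add, pow_one, hφ, h3]
      | succ m ih =>
        intro hm
        have ih' := ih (by omega)
        have hnot := hn2 (m + 1) (by omega) (by omega)
        rw [pow_succ', Perm.mul_apply]
        set z := ((σ * α) ^ (m + 1)) (α x.1) with hz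
        rw [← ih']
        have hzz : z = d ∨ z = α d := by
          by_contra hcon
          push Not at hcon
          exact hnot hcon
        rw [Perm.mul_apply, h3]
        rcases hzz with e | e
        · rw [e, hdb, hda, hLb, hLa]
        · rw [e, h1, hda, hdb, hLb, hLa]
    obtain ⟨m, rfl⟩ : ∃ m, n = m + 1 := ⟨n - 1, by omega⟩
    exact key m le_rfl
  -- neighbourhood facts of the two exceptional darts
  have hlabcyc : ∀ x y, σ.SameCycle x y → lab y = lab x := by
    intro x y hxy
    obtain ⟨n, hn⟩ := hxy.exists_nat_pow_eq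
    rw [← hn]
    clear hn hxy
    induction n with
    | zero => rfl
    | succ n ih => rw [pow_succ', Perm.mul_apply, h3, ih]
  have hcyc1 : ∀ z, σ.SameCycle d z → z ≠ d → T z := by
    intro z hz hzd
    refine ⟨hzd, ?_⟩
    intro e
    have := hlabcyc _ _ hz
    rw [e, hdb, hda, Option.some_inj] at this
    exact hne this.symm
  have hcyc2 : ∀ z, σ.SameCycle (α d) z → z ≠ α d → T z := by
    intro z hz hzd
    refine ⟨?_, hzd⟩
    intro e
    have := hlabcyc _ _ hz
    rw [e, hdb, hda, Option.some_inj] at this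
    exact hne this
  have hnT1 : ¬ T d := fun h => h.1 rfl
  have hnT2 : ¬ T (α d) := fun h => h.2 rfl
  have hA : ∀ y : {x : D // T x}, lab y.1 = some a →
      ∃ h : T (σ d), τ.SameCycle ⟨σ d, h⟩ y := fun y hy =>
    mono_first σ T τ hτ d hcyc1 hnT1 y (h4 _ _ a hda hy)
  have hB : ∀ y : {x : D // T x}, lab y.1 = some b →
      ∃ h : T (σ (α d)), τ.SameCycle ⟨σ (α d), h⟩ y := fun y hy =>
    mono_first σ T τ hτ (α d) hcyc2 hnT2 y (h4 _ _ b hdb hy)
  have hC : ∀ (ha : T (σ d)) (hb : T (σ (α d))), τ.SameCycle ⟨σ d, ha⟩ ⟨σ (α d), hb⟩ := by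
    intro ha hb
    -- the dart before `d`
    have hx1 : σ (σ⁻¹ d) = d := by simp
    have hx2 : T (σ⁻¹ d) := by
      refine hcyc1 _ ⟨-1, by simp⟩ ?_
      intro e
      have h0 : σ d = d := by
        rw [e] at hx1
        exact hx1
      rw [h0] at ha
      exact hnT1 ha
    have hx3 : lab (σ⁻¹ d) = some a := by
      rw [← hda, ← h3 (σ⁻¹ d), hx1]
    obtain ⟨_, hxA⟩ := hA ⟨σ⁻¹ d, hx2⟩ hx3
    refine hxA.trans ⟨1, ?_⟩
    rw [zpow_one]
    apply Subtype.ext
    rw [hτ0]
    have hpow1 : ((σ * α) ^ 1) (α (σ⁻¹ d)) = d := by rw [pow_one, hφ, hx1]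
    have hpow2 : ((σ * α) ^ 2) (α (σ⁻¹ d)) = σ (α d) := by
      rw [pow_succ', Perm.mul_apply, hpow1, Perm.mul_apply]
    rw [mono_ret_eq (σ * α) T _ 2 (by norm_num), resInv_apply, hpow2]
    · rw [resInv_apply, hpow2]
      exact hb
    · intro m hm0 hm2
      have hm : m = 1 := by omega
      subst hm
      rw [resInv_apply, hpow1]
      exact hnT1
  refine ⟨{x : D // T x}, inferInstance, τ, resInv α T h1 hT, fun x => L (lab x.1), ?_, ?_, ?_, ?_,
    ?_, ?_⟩
  · intro x
    exact Subtype.ext (h1 _)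
  · intro x e
    exact h2 x.1 (congrArg Subtype.val e)
  · exact hlab
  · intro x y v hx hy
    by_cases hva : v = a
    · subst hva
      have hcase : ∀ o : Option V, L o = some v → o = some v ∨ o = some b := by
        intro o ho
        by_cases hob : o = some b
        · exact Or.inr hob
        · rw [hLo o hob] at ho
          exact Or.inl ho
      rcases hcase _ hx with ex | ex <;> rcases hcase _ hy with ey | ey
      · obtain ⟨_, e1⟩ := hA x ex
        obtain ⟨_, e2⟩ := hA y ey
        exact e1.symm.trans e2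
      · obtain ⟨t1, e1⟩ := hA x ex
        obtain ⟨t2, e2⟩ := hB y ey
        exact e1.symm.trans ((hC t1 t2).trans e2)
      · obtain ⟨t1, e1⟩ := hB x ex
        obtain ⟨t2, e2⟩ := hA y ey
        exact e1.symm.trans ((hC t2 t1).symm.trans e2)
      · obtain ⟨_, e1⟩ := hB x ex
        obtain ⟨_, e2⟩ := hB y ey
        exact e1.symm.trans e2
    · have hcase : ∀ o : Option V, L o = some v → o = some v ∧ v ≠ b := by
        intro o ho
        by_cases hob : o = some b
        · rw [hob, hLb, Option.some_inj] at ho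
          exact absurd ho.symm hva
        · rw [hLo o hob] at ho
          refine ⟨ho, ?_⟩
          intro e
          rw [e] at ho
          exact hob ho
      obtain ⟨ex, hvb⟩ := hcase _ hx
      obtain ⟨ey, _⟩ := hcase _ hy
      obtain ⟨n, hn⟩ := (h4 _ _ v ex ey).exists_nat_pow_eq
      refine mono_chain σ T τ hτ y n x hn ?_
      intro m _
      have hl : lab ((σ ^ m) x.1) = some v := by
        rw [← ex]
        exact hlabcyc _ _ ⟨m, by simp⟩
      refine ⟨?_, ?_⟩
      · intro e
        rw [e, hda, Option.some_inj] at hl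
        exact hva hl.symm
      · intro e
        rw [e, hdb, Option.some_inj] at hl
        exact hvb hl.symm
  · intro x y hxy
    obtain ⟨hxy0, hxb, hyb, hor⟩ := hxy
    have hnb : ∀ z : V, z ≠ b → (some z : Option V) ≠ some b := fun z hz e =>
      hz (Option.some_inj.mp e)
    rcases hor with h | ⟨rfl, h⟩ | ⟨rfl, h⟩
    · obtain ⟨e, he1, he2⟩ := h5 x y h
      have hTe : T e := by
        refine ⟨?_, ?_⟩
        · intro q
          rw [q, hdb, Option.some_inj] at he2
          exact hyb he2.symm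
        · intro q
          rw [q, hdb, Option.some_inj] at he1
          exact hxb he1.symm
      refine ⟨⟨e, hTe⟩, ?_, ?_⟩
      · show L (lab e) = some x
        rw [he1, hLo _ (hnb x hxb)]
      · show L (lab (α e)) = some y
        rw [he2, hLo _ (hnb y hyb)]
    · obtain ⟨e, he1, he2⟩ := h5 b y h
      have hTe : T e := by
        refine ⟨?_, ?_⟩
        · intro q
          rw [q, hda, Option.some_inj] at he1
          exact hne he1
        · intro q
          rw [q, h1, hda, Option.some_inj] at he2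
          exact hxy0 he2
      refine ⟨⟨e, hTe⟩, ?_, ?_⟩
      · show L (lab e) = some x
        rw [he1, hLb]
      · show L (lab (α e)) = some y
        rw [he2, hLo _ (hnb y hyb)]
    · obtain ⟨e, he1, he2⟩ := h5 b x h
      have hTe : T e := by
        refine ⟨?_, ?_⟩
        · intro q
          rw [q, hda, Option.some_inj] at he1
          exact hne he1
        · intro q
          rw [q, h1, hda, Option.some_inj] at he2
          exact hxy0 he2.symm
      refine ⟨⟨α e, hT e hTe⟩, ?_, ?_⟩
      · show L (lab (α e)) = some x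
        rw [he2, hLo _ (hnb x hxb)]
      · show L (lab (α (α e))) = some y
        rw [h1, he1, hLb]
  · have e1 : gam τ (resInv α T h1 hT) = gam (ret (σ * α) T) (resInv α T h1 hT) :=
      gam_dual (ret (σ * α) T) (resInv α T h1 hT) (fun x => Subtype.ext (h1 _))
    have e2 : gam (ret (σ * α) T) (resInv α T h1 hT) ≤ gam (σ * α) α :=
      gam_ret_le (σ * α) α T h1 h2 hT
    have e3 : gam (σ * α) α = gam σ α := gam_dual σ α h1
    linarith

/-- a setoid containing all pairs `(x, σ x)` contains the cycles of `σ` -/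
private theorem mono_cyc_le {D : Type} [Finite D] (σ : Perm D) (s : Setoid D)
    (h : ∀ x, s x (σ x)) : ∀ x y, σ.SameCycle x y → s x y := by
  intro x y hxy
  obtain ⟨n, hn⟩ := hxy.exists_nat_pow_eq
  rw [← hn]
  clear hn hxy
  induction n with
  | zero => exact s.refl _
  | succ n ih =>
    rw [pow_succ', Perm.mul_apply]
    exact s.trans ih (h _)

/-- glue two classes of a setoid -/
private def mono_glue {D : Type} (s : Setoid D) (a b : D) : Setoid D where
  r x y := s x y ∨ (s x a ∧ s y b) ∨ (s x b ∧ s y a)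
  iseqv := by
    refine ⟨fun x => Or.inl (s.refl x), ?_, ?_⟩
    · intro x y h
      rcases h with h | h | h
      · exact Or.inl (s.symm h)
      · exact Or.inr (Or.inr ⟨h.2, h.1⟩)
      · exact Or.inr (Or.inl ⟨h.2, h.1⟩)
    · intro x y z h h'
      rcases h with h | ⟨h1, h2⟩ | ⟨h1, h2⟩ <;> rcases h' with h' | ⟨h3, h4⟩ | ⟨h3, h4⟩
      · exact Or.inl (s.trans h h')
      · exact Or.inr (Or.inl ⟨s.trans h h3, h4⟩)
      · exact Or.inr (Or.inr ⟨s.trans h h3, h4⟩)
      · exact Or.inr (Or.inl ⟨h1, s.trans (s.symm h') h2⟩)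
      · exact Or.inr (Or.inl ⟨h1, h4⟩)
      · exact Or.inl (s.trans h1 (s.symm h4))
      · exact Or.inr (Or.inr ⟨h1, s.trans (s.symm h') h2⟩)
      · exact Or.inl (s.trans h1 (s.symm h4))
      · exact Or.inr (Or.inr ⟨h1, h4⟩)

theorem Real.addEdge {V : Type} {G : SimpleGraph V} {k : ℕ} (a b : V) (hab : a ≠ b)
    (ha : ∃ w, G.Adj a w) (hb : ∃ w, G.Adj b w) (h : Real G k) :
    Real (G ⊔ SimpleGraph.edge a b) (k + 1) := by
  classical
  obtain ⟨D, hD, σ, α, lab, h1, h2, h3, h4, h5, h6⟩ := h
  obtain ⟨wa, hwa⟩ := ha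
  obtain ⟨wb, hwb⟩ := hb
  obtain ⟨da, hda, -⟩ := h5 a wa hwa
  obtain ⟨db, hdb, -⟩ := h5 b wb hwb
  have hdd : da ≠ db := by
    intro e
    rw [e, hdb, Option.some_inj] at hda
    exact hab hda.symm
  let e1 : D ⊕ Bool := Sum.inr true
  let e2 : D ⊕ Bool := Sum.inr false
  let τ : Perm (D ⊕ Bool) :=
    swap (Sum.inl db) e2 * (swap (Sum.inl da) e1 * Equiv.Perm.sumCongr σ 1)
  let β : Perm (D ⊕ Bool) := Equiv.Perm.sumCongr α Equiv.boolNot
  have hτ1 : ∀ x, σ x = da → τ (Sum.inl x) = e1 := by
    intro x hx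
    show swap (Sum.inl db) e2 (swap (Sum.inl da) e1 (Sum.inl (σ x))) = e1
    rw [hx, swap_apply_left, swap_apply_of_ne_of_ne]
    · exact Sum.inr_ne_inl
    · intro e
      simp [e1, e2] at e
  have hτ2 : ∀ x, σ x = db → τ (Sum.inl x) = e2 := by
    intro x hx
    show swap (Sum.inl db) e2 (swap (Sum.inl da) e1 (Sum.inl (σ x))) = e2
    rw [hx, swap_apply_of_ne_of_ne (a := Sum.inl da), swap_apply_left]
    · intro e
      exact hdd (Sum.inl_injective e).symm
    · exact Sum.inl_ne_inr
  have hτ3 : ∀ x, σ x ≠ da → σ x ≠ db → τ (Sum.inl x) = Sum.inl (σ x) := by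
    intro x hx hx'
    show swap (Sum.inl db) e2 (swap (Sum.inl da) e1 (Sum.inl (σ x))) = Sum.inl (σ x)
    rw [swap_apply_of_ne_of_ne (a := Sum.inl da), swap_apply_of_ne_of_ne]
    · intro e
      exact hx' (Sum.inl_injective e)
    · exact Sum.inl_ne_inr
    · intro e
      exact hx (Sum.inl_injective e)
    · exact Sum.inl_ne_inr
  have hτ4 : τ e1 = Sum.inl da := by
    show swap (Sum.inl db) e2 (swap (Sum.inl da) e1 e1) = Sum.inl da
    rw [swap_apply_right, swap_apply_of_ne_of_ne]
    · intro e
      exact hdd (Sum.inl_injective e)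
    · exact Sum.inl_ne_inr
  have hτ5 : τ e2 = Sum.inl db := by
    show swap (Sum.inl db) e2 (swap (Sum.inl da) e1 e2) = Sum.inl db
    rw [swap_apply_of_ne_of_ne (a := Sum.inl da), swap_apply_right]
    · exact Sum.inr_ne_inl
    · intro e
      simp [e1, e2] at e
  have hβ1 : ∀ x, β (Sum.inl x) = Sum.inl (α x) := fun x => rfl
  have hβ2 : β e1 = e2 := rfl
  have hβ3 : β e2 = e1 := rfl
  -- projection to the old darts
  let pr : D ⊕ Bool → D := fun z => Sum.elim id (fun t => if t then da else db) z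
  have hpr1 : ∀ x, pr (Sum.inl x) = x := fun x => rfl
  have hpr2 : pr e1 = da := rfl
  have hpr3 : pr e2 = db := rfl
  have hall : ∀ P : D ⊕ Bool → Prop, (∀ x, P (Sum.inl x)) → P e1 → P e2 → ∀ z, P z := by
    intro P p1 p2 p3 z
    rcases z with x | t
    · exact p1 x
    · cases t
      · exact p3
      · exact p2
  have hstep : ∀ x, τ.SameCycle (Sum.inl x) (Sum.inl (σ x)) := by
    intro x
    by_cases c1 : σ x = da
    · refine ⟨1 + 1, ?_⟩
      rw [zpow_add, zpow_one, Perm.mul_apply, hτ1 x c1, hτ4, c1]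
    · by_cases c2 : σ x = db
      · refine ⟨1 + 1, ?_⟩
        rw [zpow_add, zpow_one, Perm.mul_apply, hτ2 x c2, hτ5, c2]
      · refine ⟨1, ?_⟩
        rw [zpow_one, hτ3 x c1 c2]
  have hcyc : ∀ x y, σ.SameCycle x y → τ.SameCycle (Sum.inl x) (Sum.inl y) :=
    mono_cyc_le σ ((Perm.SameCycle.setoid τ).comap Sum.inl) hstep
  have hprcyc : ∀ z, τ.SameCycle z (Sum.inl (pr z)) := by
    apply hall
    · intro x
      exact Perm.SameCycle.refl _ _
    · exact ⟨1, by rw [zpow_one, hτ4, hpr2]⟩
    · exact ⟨1, by rw [zpow_one, hτ5, hpr3]⟩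
  have hprτ : ∀ z, σ.SameCycle (pr z) (pr (τ z)) := by
    apply hall
    · intro x
      by_cases c1 : σ x = da
      · rw [hτ1 x c1, hpr1, hpr2, ← c1]
        exact ⟨1, by simp⟩
      · by_cases c2 : σ x = db
        · rw [hτ2 x c2, hpr1, hpr3, ← c2]
          exact ⟨1, by simp⟩
        · rw [hτ3 x c1 c2, hpr1, hpr1]
          exact ⟨1, by simp⟩
    · rw [hτ4, hpr1, hpr2]
    · rw [hτ5, hpr1, hpr3]
  have hlabcyc : ∀ x y, σ.SameCycle x y → lab y = lab x := by
    intro x y hxy
    obtain ⟨n, hn⟩ := hxy.exists_nat_pow_eq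
    rw [← hn]
    clear hn hxy
    induction n with
    | zero => rfl
    | succ n ih => rw [pow_succ', Perm.mul_apply, h3, ih]
  refine ⟨D ⊕ Bool, inferInstance, τ, β, fun z => lab (pr z), ?_, ?_, ?_, ?_, ?_, ?_⟩
  · apply hall
    · intro x
      rw [hβ1, hβ1, h1]
    · rw [hβ2, hβ3]
    · rw [hβ3, hβ2]
  · apply hall
    · intro x e
      exact h2 x (Sum.inl_injective e)
    · intro e
      rw [hβ2] at e
      simp [e1, e2] at e
    · intro e
      rw [hβ3] at e
      simp [e1, e2] at e
  · intro z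
    exact hlabcyc _ _ (hprτ z)
  · intro z w v hz hw
    exact (hprcyc z).trans ((hcyc _ _ (h4 _ _ v hz hw)).trans (hprcyc w).symm)
  · intro x y hxy
    rw [SimpleGraph.sup_adj, SimpleGraph.edge_adj] at hxy
    rcases hxy with hxy | ⟨⟨rfl, rfl⟩ | ⟨rfl, rfl⟩, -⟩
    · obtain ⟨d, hd1, hd2⟩ := h5 x y hxy
      exact ⟨Sum.inl d, hd1, hd2⟩
    · exact ⟨e1, hda, hdb⟩
    · exact ⟨e2, hdb, hda⟩
  · -- genus
    have hV : ncyc σ ≤ ncyc τ := by
      refine le_ncyc_of_surj τ (fun z => (Quotient.mk (Perm.SameCycle.setoid σ) (pr z))) ?_ ?_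
      · intro z
        exact Quotient.sound (hprτ z).symm
      · intro c
        obtain ⟨x, rfl⟩ := Quotient.exists_rep c
        exact ⟨Sum.inl x, rfl⟩
    have hF : ncyc (σ * α) ≤ ncyc (τ * β) + 1 := by
      let s : Setoid D := Perm.SameCycle.setoid (σ * α)
      let t : Setoid D := mono_glue s da db
      have hst : s ≤ t := fun _ _ h => Or.inl h
      have h7 : Nat.card (Quotient s) ≤ Nat.card (Quotient t) + 1 :=
        card_glue s t da db (fun x y h => h) hst
      have htab : t da db := Or.inr (Or.inl ⟨s.refl _, s.refl _⟩)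
      have h8 : Nat.card (Quotient t) ≤ ncyc (τ * β) := by
        refine le_ncyc_of_surj (τ * β) (fun z => (Quotient.mk t (pr z))) ?_ ?_
        · apply hall
          · intro x
            apply Quotient.sound
            have hx0 : s x (σ (α x)) := ⟨1, by simp⟩
            have hx1 : t x (σ (α x)) := hst hx0
            show t (pr (τ (β (Sum.inl x)))) (pr (Sum.inl x))
            rw [hβ1, hpr1]
            by_cases c1 : σ (α x) = da
            · rw [hτ1 _ c1, hpr2, ← c1]
              exact t.symm hx1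
            · by_cases c2 : σ (α x) = db
              · rw [hτ2 _ c2, hpr3, ← c2]
                exact t.symm hx1
              · rw [hτ3 _ c1 c2, hpr1]
                exact t.symm hx1
          · apply Quotient.sound
            show t (pr (τ (β e1))) (pr e1)
            rw [hβ2, hτ5, hpr1, hpr2]
            exact t.symm htab
          · apply Quotient.sound
            show t (pr (τ (β e2))) (pr e2)
            rw [hβ3, hτ4, hpr1, hpr3]
            exact htab
        · intro c
          obtain ⟨x, rfl⟩ := Quotient.exists_rep c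
          exact ⟨Sum.inl x, rfl⟩
      exact le_trans h7 (Nat.add_le_add_right h8 1)
    have hc : Nat.card (Quotient (orb τ β)) ≤ Nat.card (Quotient (orb σ α)) := by
      have hle : orb σ α ≤ (orb τ β).comap Sum.inl := by
        refine sup_le ?_ ?_
        · intro x y hxy
          have := hcyc x y hxy
          exact (le_sup_left : Perm.SameCycle.setoid τ ≤ orb τ β) this
        · intro x y hxy
          refine mono_cyc_le α ((orb τ β).comap Sum.inl) ?_ x y hxy
          intro z
          have h9 : β.SameCycle (Sum.inl z) (Sum.inl (α z)) := ⟨1, by rw [zpow_one, hβ1]⟩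
          exact (le_sup_right : Perm.SameCycle.setoid β ≤ orb τ β) h9
      let g : Quotient (orb σ α) → Quotient (orb τ β) :=
        Quotient.map' Sum.inl (fun x y h => hle h)
      have hg : Function.Surjective g := by
        intro c
        obtain ⟨z, rfl⟩ := Quotient.exists_rep c
        refine ⟨Quotient.mk (orb σ α) (pr z), ?_⟩
        show Quotient.mk (orb τ β) (Sum.inl (pr z)) = _
        apply Quotient.sound
        exact (orb τ β).symm ((le_sup_left : Perm.SameCycle.setoid τ ≤ orb τ β) (hprcyc z))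
      exact Nat.card_le_card_of_surjective g hg
    have hcard : Nat.card (D ⊕ Bool) = Nat.card D + 2 := by
      rw [Nat.card_sum, Nat.card_eq_fintype_card (α := Bool), Fintype.card_bool]
    unfold gam at h6 ⊢
    rw [hcard]
    push_cast
    have hV' : (ncyc σ : ℤ) ≤ ncyc τ := by exact_mod_cast hV
    have hF' : (ncyc (σ * α) : ℤ) ≤ ncyc (τ * β) + 1 := by exact_mod_cast hF
    have hc' : (Nat.card (Quotient (orb τ β)) : ℤ) ≤ Nat.card (Quotient (orb σ α)) := by
      exact_mod_cast hc
    linarith

end Hopper
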