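import Pool.Agent.Work.MP_85d607_co.Bridge
import Pool.Agent.Work.MP_85d607_co.Mono

/-!
# Module Minors: if all single deletions and contractions are realisable, all proper minors embed
-/

namespace Hopper

theorem minors_embed (X : FG) (k : ℕ) (hiso : ∀ v, ∃ w, X.G.Adj v w)
    (hd : ∀ a b, X.G.Adj a b → Real (X.G.deleteEdges {s(a, b)}) k)
    (hc : ∀ a b, X.G.Adj a b → Real (ident X.G a b) k)
    (Y : FG) (hY : IsMinor X Y) (hn : ¬ Nonempty (X.G ≃g Y.G)) : Embeds Y.G k := by
  have key : Nonempty (X.G ≃g Y.G) ∨ Real Y.G k := by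
    clear hn
    induction hY with
    | refl => exact Or.inl ⟨SimpleGraph.Iso.refl⟩
    | @tail Y Z hXY hYZ ih =>
      rcases ih with ⟨⟨e⟩⟩ | hR
      · cases hYZ with
        | iso _ f =>
          obtain ⟨f⟩ := f
          exact Or.inl ⟨e.trans f⟩
        | delEdge a b hab =>
          right
          refine Real.mono (fun x : Y.V => e.symm x) e.symm.injective ?_
            (hd (e.symm a) (e.symm b) (e.symm.map_adj_iff.mpr hab))
          intro (x : Y.V) (y : Y.V) hxy
          have hxy' : (Y.G.deleteEdges {s(a, b)}).Adj x y := hxy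
          rw [SimpleGraph.deleteEdges_adj, Set.mem_singleton_iff, Sym2.eq_iff] at hxy' ⊢
          refine ⟨e.symm.map_adj_iff.mpr hxy'.1, ?_⟩
          intro h
          apply hxy'.2
          rcases h with ⟨h1, h2⟩ | ⟨h1, h2⟩
          · exact Or.inl ⟨e.symm.injective h1, e.symm.injective h2⟩
          · exact Or.inr ⟨e.symm.injective h1, e.symm.injective h2⟩
        | delVert v =>
          right
          obtain ⟨w, hw⟩ := hiso (e.symm v)
          refine Real.mono (fun x : {w : Y.V // w ≠ v} => e.symm x.1)
            (fun x y h => Subtype.ext (e.symm.injective h)) ?_ (hd (e.symm v) w hw)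
          intro x y hxy
          have hxy' : Y.G.Adj x.1 y.1 := hxy
          rw [SimpleGraph.deleteEdges_adj, Set.mem_singleton_iff, Sym2.eq_iff]
          refine ⟨e.symm.map_adj_iff.mpr hxy', ?_⟩
          intro h
          rcases h with ⟨h1, h2⟩ | ⟨h1, h2⟩
          · exact x.2 (e.symm.injective h1)
          · exact y.2 (e.symm.injective h2)
        | contract a b hab =>
          right
          refine Real.mono (fun x : {w : Y.V // w ≠ b} => e.symm x.1)
            (fun x y h => Subtype.ext (e.symm.injective h)) ?_
            (hc (e.symm a) (e.symm b) (e.symm.map_adj_iff.mpr hab))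
          intro x y hxy
          have hxy' : x ≠ y ∧ (Y.G.Adj x.1 y.1 ∨ (x.1 = a ∧ Y.G.Adj b y.1) ∨
            (y.1 = a ∧ Y.G.Adj b x.1)) := hxy
          refine ⟨?_, ?_, ?_, ?_⟩
          · intro h
            exact hxy'.1 (Subtype.ext (e.symm.injective h))
          · intro h
            exact x.2 (e.symm.injective h)
          · intro h
            exact y.2 (e.symm.injective h)
          · rcases hxy'.2 with h | ⟨h1, h2⟩ | ⟨h1, h2⟩
            · exact Or.inl (e.symm.map_adj_iff.mpr h)
            · exact Or.inr (Or.inl ⟨by rw [h1], e.symm.map_adj_iff.mpr h2⟩)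
            · exact Or.inr (Or.inr ⟨by rw [h1], e.symm.map_adj_iff.mpr h2⟩)
      · right
        cases hYZ with
        | iso _ f =>
          obtain ⟨f⟩ := f
          exact Real.mono (fun x : Z.V => f.symm x) f.symm.injective
            (fun x y h => f.symm.map_adj_iff.mpr h) hR
        | delEdge a b hab =>
          refine Real.mono (fun x : Y.V => x) Function.injective_id ?_ hR
          intro (x : Y.V) (y : Y.V) hxy
          have hxy' : (Y.G.deleteEdges {s(a, b)}).Adj x y := hxy
          rw [SimpleGraph.deleteEdges_adj] at hxy'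
          exact hxy'.1
        | delVert v =>
          exact Real.mono (fun x : {w : Y.V // w ≠ v} => x.1) Subtype.val_injective
            (fun x y h => h) hR
        | contract a b hab =>
          refine Real.mono (fun x : {w : Y.V // w ≠ b} => x.1) Subtype.val_injective ?_
            (Real.ident a b hab hR)
          intro x y hxy
          have hxy' : x ≠ y ∧ (Y.G.Adj x.1 y.1 ∨ (x.1 = a ∧ Y.G.Adj b y.1) ∨
            (y.1 = a ∧ Y.G.Adj b x.1)) := hxy
          exact ⟨fun h => hxy'.1 (Subtype.ext h), x.2, y.2, hxy'.2⟩
  rcases key with h | h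
  · exact absurd h hn
  · have := Y.fin
    exact h.embeds

end Hopper
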