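import Pool.Agent.Work.MP_85d607_co.Lower
import Pool.Agent.Work.MP_85d607_co.Data
import Pool.Agent.Work.MP_85d607_co.Minors

/-!
# Assembly
-/

namespace Hopper

/-- the graph of the example as a finite graph -/
def X28 : FG := ⟨Fin 28, inferInstance, G28⟩

def X28p : FG := ⟨Fin 28, inferInstance, G28 ⊔ SimpleGraph.edge 0 18⟩

theorem not_adj : ¬ G28.Adj 0 18 := by decide +kernel

theorem G28_nonisol : ∀ v, ∃ w, G28.Adj v w := by decide +kernel

theorem two_nb : ∀ v, ∃ w1 w2, w1 ≠ w2 ∧ G28.Adj v w1 ∧ G28.Adj v w2 := by decide +kernel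

theorem nonisol_del (a b v : Fin 28) : ∃ w, (G28.deleteEdges {s(a, b)}).Adj v w := by
  obtain ⟨w1, w2, h12, h6, h7⟩ := two_nb v
  by_cases h8 : s(v, w1) = s(a, b)
  · refine ⟨w2, SimpleGraph.deleteEdges_adj.mpr ⟨h7, fun h9 => h12 ?_⟩⟩
    have h10 : s(v, w1) = s(v, w2) := h8.trans (Set.mem_singleton_iff.mp h9).symm
    rw [Sym2.eq_iff] at h10
    rcases h10 with ⟨_, h10⟩ | ⟨h10, h11⟩
    · exact h10
    · exact h11.trans h10
  · exact ⟨w1, SimpleGraph.deleteEdges_adj.mpr ⟨h6, h8⟩⟩

theorem G28_not : ¬ Embeds G28 7 := by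
  intro h
  have h1 := Real.addEdge 0 18 (by decide) (G28_nonisol 0) (G28_nonisol 18) h.real
  rw [← G28p_eq] at h1
  exact G28p_not h1.embeds

theorem obstruction_G : IsObstruction X28 7 :=
  ⟨G28_not, fun Y hY hn => minors_embed X28 7 G28_nonisol data_del data_con Y hY hn⟩

/-- deletion from `G + xy` -/
theorem del_p (a b : Fin 28) (h : G28p.Adj a b) : Real (G28p.deleteEdges {s(a, b)}) 8 := by
  have hne : a ≠ b := h.ne
  by_cases hab : G28.Adj a b
  · have h1 := data_del a b hab
    have h3 := nonisol_del a b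
    have h4 := Real.addEdge 0 18 (by decide) (h3 0) (h3 18) h1
    refine Real.mono id Function.injective_id ?_ h4
    intro x y hxy
    rw [SimpleGraph.deleteEdges_adj, G28p_eq, SimpleGraph.sup_adj] at hxy
    rw [SimpleGraph.sup_adj]
    rcases hxy with ⟨h5 | h5, h6⟩
    · left
      exact SimpleGraph.deleteEdges_adj.mpr ⟨h5, h6⟩
    · right
      exact h5
  · -- the deleted edge is xy
    have h1 := data_del 0 1 (by decide +kernel)
    have h3 := nonisol_del 0 1
    have h4 := Real.addEdge 0 1 (by decide) (h3 0) (h3 1) h1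
    refine Real.mono id Function.injective_id ?_ h4
    intro x y hxy
    rw [SimpleGraph.deleteEdges_adj, G28p_eq, SimpleGraph.sup_adj] at hxy
    rw [SimpleGraph.sup_adj]
    have h5 : G28.Adj x y := by
      rcases hxy with ⟨h5 | h5, h6⟩
      · exact h5
      · exfalso
        rw [G28p_eq, SimpleGraph.sup_adj] at h
        rcases h with h | h
        · exact hab h
        · rw [SimpleGraph.edge_adj] at h h5
          apply h6
          rw [Set.mem_singleton_iff, Sym2.eq_iff]
          rcases h.1 with ⟨e1, e2⟩ | ⟨e1, e2⟩ <;> rcases h5.1 with ⟨e3, e4⟩ | ⟨e3, e4⟩ <;>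
            simp [e1, e2, e3, e4]
    by_cases h6 : s(x, y) = s(0, 1)
    · right
      rw [SimpleGraph.edge_adj]
      rw [Sym2.eq_iff] at h6
      refine ⟨?_, h5.ne⟩
      rcases h6 with ⟨e1, e2⟩ | ⟨e1, e2⟩
      · exact Or.inl ⟨e1, e2⟩
      · exact Or.inr ⟨e1, e2⟩
    · left
      exact SimpleGraph.deleteEdges_adj.mpr ⟨h5, h6⟩

/-- contraction of an edge of `G + xy` -/
theorem con_p (a b : Fin 28) (h : G28p.Adj a b) : Real (ident G28p a b) 8 := by
  by_cases hab : G28.Adj a b
  · have h1 := data_con a b hab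
    -- images of x and y
    have h5 : ∀ v, v ≠ b → ∃ w, (ident G28 a b).Adj v w := by
      intro v hv
      obtain ⟨w1, w2, h12, h6, h7⟩ := two_nb v
      by_cases h8 : w1 = b
      · exact ⟨w2, h7.ne, hv, fun e => h12 (h8.trans e.symm), Or.inl h7⟩
      · exact ⟨w1, h6.ne, hv, h8, Or.inl h6⟩
    have hne : a ≠ b := hab.ne
    let f : Fin 28 → Fin 28 := fun v => if v = b then a else v
    have hf : ∀ v, f v ≠ b := by
      intro v
      by_cases hv : v = b
      · simp only [f, if_pos hv]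
        exact hne
      · simp only [f, if_neg hv]
        exact hv
    have hfne : f 0 ≠ f 18 := by
      intro e
      have h6 : ∀ a b : Fin 28, adjB a b = true →
          (if (0 : Fin 28) = b then a else 0) ≠ (if (18 : Fin 28) = b then a else 18) := by
        decide +kernel
      exact h6 a b hab e
    have h6 := Real.addEdge (f 0) (f 18) hfne (h5 _ (hf 0)) (h5 _ (hf 18)) h1
    refine Real.mono id Function.injective_id ?_ h6
    rintro x y ⟨h7, h8, h9, h10⟩
    rw [SimpleGraph.sup_adj]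
    have key : ∀ u v : Fin 28, G28p.Adj u v → G28.Adj u v ∨ (u = 0 ∧ v = 18) ∨
        (u = 18 ∧ v = 0) := by
      intro u v huv
      rw [G28p_eq, SimpleGraph.sup_adj, SimpleGraph.edge_adj] at huv
      rcases huv with huv | ⟨huv, _⟩
      · exact Or.inl huv
      · exact Or.inr huv
    have fin : (x = f 0 ∧ y = f 18 ∨ x = f 18 ∧ y = f 0) →
        (SimpleGraph.edge (f 0) (f 18)).Adj (id x) (id y) := by
      intro e
      rw [SimpleGraph.edge_adj]
      exact ⟨e, h7⟩
    have fx : ∀ z, z ≠ b → f z = z := fun z hz => by simp only [f, if_neg hz]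
    have fb : f b = a := by simp only [f, if_true]
    rcases h10 with h10 | ⟨h10, h11⟩ | ⟨h10, h11⟩
    · rcases key x y h10 with h12 | ⟨h12, h13⟩ | ⟨h12, h13⟩
      · exact Or.inl ⟨h7, h8, h9, Or.inl h12⟩
      · right; apply fin; left
        rw [← h12, ← h13, fx x h8, fx y h9]
        exact ⟨rfl, rfl⟩
      · right; apply fin; right
        rw [← h12, ← h13, fx x h8, fx y h9]
        exact ⟨rfl, rfl⟩
    · rcases key b y h11 with h12 | ⟨h12, h13⟩ | ⟨h12, h13⟩
      · exact Or.inl ⟨h7, h8, h9, Or.inr (Or.inl ⟨h10, h12⟩)⟩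
      · right; apply fin; left
        rw [← h12, ← h13, fb, fx y h9]
        exact ⟨h10, rfl⟩
      · right; apply fin; right
        rw [← h12, ← h13, fb, fx y h9]
        exact ⟨h10, rfl⟩
    · rcases key b x h11 with h12 | ⟨h12, h13⟩ | ⟨h12, h13⟩
      · exact Or.inl ⟨h7, h8, h9, Or.inr (Or.inr ⟨h10, h12⟩)⟩
      · right; apply fin; right
        rw [← h12, ← h13, fb, fx x h8]
        exact ⟨rfl, h10⟩
      · right; apply fin; left
        rw [← h12, ← h13, fb, fx x h8]
        exact ⟨rfl, h10⟩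
  · have h1 : (a = 0 ∧ b = 18) ∨ (a = 18 ∧ b = 0) := by
      rw [G28p_eq, SimpleGraph.sup_adj, SimpleGraph.edge_adj] at h
      rcases h with h | h
      · exact absurd h hab
      · exact h.1
    have h2 : Real (ident G28p 0 18) 8 := by
      refine Real.mono id Function.injective_id ?_ data_xy
      have : ∀ x y : Fin 28, (ident G28p 0 18).Adj x y → (ident G28 0 18).Adj x y := by
        decide +kernel
      exact this
    rcases h1 with ⟨e1, e2⟩ | ⟨e1, e2⟩
    · rw [e1, e2]
      exact h2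
    · rw [e1, e2]
      exact ident_swap _ _ h2

theorem obstruction_Gp : IsObstruction X28p 8 := by
  refine ⟨?_, fun Y hY hn => ?_⟩
  · change ¬ Embeds (G28 ⊔ SimpleGraph.edge 0 18) 8
    rw [← G28p_eq]
    exact G28p_not
  · refine minors_embed X28p 8 ?_ ?_ ?_ Y hY hn
    · intro v
      obtain ⟨w, hw⟩ := G28_nonisol v
      exact ⟨w, Or.inl hw⟩
    · change ∀ a b : Fin 28, (G28 ⊔ SimpleGraph.edge 0 18).Adj a b →
        Real ((G28 ⊔ SimpleGraph.edge 0 18).deleteEdges {s(a, b)}) 8
      rw [← G28p_eq]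
      exact del_p
    · change ∀ a b : Fin 28, (G28 ⊔ SimpleGraph.edge 0 18).Adj a b →
        Real (ident (G28 ⊔ SimpleGraph.edge 0 18) a b) 8
      rw [← G28p_eq]
      exact con_p

/-- Hoppers exist. -/
theorem hopper : ∃ (V : Type) (_ : Finite V) (G : SimpleGraph V) (x y : V), x ≠ y ∧ ¬ G.Adj x y ∧
    IsObstruction ⟨V, inferInstance, G⟩ 7 ∧
    IsObstruction ⟨V, inferInstance, G ⊔ SimpleGraph.edge x y⟩ 8 :=
  ⟨Fin 28, inferInstance, G28, 0, 18, by decide, not_adj, obstruction_G, obstruction_Gp⟩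

end Hopper
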