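import Pool.Agent.Work.MP_85d607_co.Core

/-!
# Modules N1: a null piece with spokes on both sides
-/

namespace Hopper

open Equiv

/-- A null piece in a map: the 4-cycle has vertices `0, 1, 2, 3`; `s i` is the dart from vertex
`i` to its terminal, `n i` the dart from vertex `i` to vertex `i + 1`, `p i` the dart from vertex
`i` to vertex `i - 1`.  `side i` tells on which side of the 4-cycle the edge of `s i` lies. -/
structure GMap {D : Type} (σ α : Perm D) (s n p : Fin 4 → D) (side : Fin 4 → Bool) : Prop where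
  inv : ∀ d, α (α d) = d
  fp : ∀ d, α d ≠ d
  hn : ∀ i, α (n i) = p (i + 1)
  hL : ∀ i, side i = true → σ (p i) = s i ∧ σ (s i) = n i ∧ σ (n i) = p i
  hR : ∀ i, side i = false → σ (n i) = s i ∧ σ (s i) = p i ∧ σ (p i) = n i
  inj_s : Function.Injective s
  inj_n : Function.Injective n
  inj_p : Function.Injective p
  s_n : ∀ i j, s i ≠ n j
  s_p : ∀ i j, s i ≠ p j
  n_p : ∀ i j, n i ≠ p j
  s_s' : ∀ i j, s i ≠ α (s j)
  n_s' : ∀ i j, n i ≠ α (s j)
  p_s' : ∀ i j, p i ≠ α (s j)

/-- The darts outside the null piece. -/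
def GT {D : Type} (α : Perm D) (s n p : Fin 4 → D) (d : D) : Prop :=
  ∀ i, d ≠ s i ∧ d ≠ α (s i) ∧ d ≠ n i ∧ d ≠ p i

theorem GT_inv {D : Type} {σ α : Perm D} {s n p : Fin 4 → D} {side : Fin 4 → Bool}
    (h : GMap σ α s n p side) : ∀ d, GT α s n p d → GT α s n p (α d) := by
  intro d hd i
  refine ⟨?_, ?_, ?_, ?_⟩
  · intro e; apply (hd i).2.1; rw [← e, h.inv]
  · intro e; apply (hd i).1; exact α.injective e
  · intro e
    apply (hd (i + 1)).2.2.2
    rw [← h.hn i, ← e, h.inv]
  · intro e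
    apply (hd (i - 1)).2.2.1
    have h1 := h.hn (i - 1)
    rw [sub_add_cancel] at h1
    exact α.injective (e.trans h1.symm)

/-! ### Basic facts -/

section Basic

variable {D : Type} {σ α : Perm D} {s n p : Fin 4 → D} {side : Fin 4 → Bool}

/-- The darts at the four vertices of the null piece. -/
def GIn (s n p : Fin 4 → D) (d : D) : Prop := ∃ i, d = s i ∨ d = n i ∨ d = p i

theorem GIn_iff (h : GMap σ α s n p side) (d : D) : GIn s n p (σ d) ↔ GIn s n p d := by
  constructor
  · rintro ⟨i, hi⟩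
    refine ⟨i, ?_⟩
    rcases hs : side i with _ | _
    · obtain ⟨h1, h2, h3⟩ := h.hR i hs
      rcases hi with e | e | e
      · exact Or.inr (Or.inl (σ.injective (e.trans h1.symm)))
      · exact Or.inr (Or.inr (σ.injective (e.trans h3.symm)))
      · exact Or.inl (σ.injective (e.trans h2.symm))
    · obtain ⟨h1, h2, h3⟩ := h.hL i hs
      rcases hi with e | e | e
      · exact Or.inr (Or.inr (σ.injective (e.trans h1.symm)))
      · exact Or.inl (σ.injective (e.trans h2.symm))
      · exact Or.inr (Or.inl (σ.injective (e.trans h3.symm)))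
  · rintro ⟨i, hi⟩
    refine ⟨i, ?_⟩
    rcases hs : side i with _ | _
    · obtain ⟨h1, h2, h3⟩ := h.hR i hs
      rcases hi with rfl | rfl | rfl
      · exact Or.inr (Or.inr h2)
      · exact Or.inl h1
      · exact Or.inr (Or.inl h3)
    · obtain ⟨h1, h2, h3⟩ := h.hL i hs
      rcases hi with rfl | rfl | rfl
      · exact Or.inr (Or.inl h2)
      · exact Or.inr (Or.inr h3)
      · exact Or.inl h1

theorem GIn_pow (h : GMap σ α s n p side) (m : ℕ) (d : D) :
    GIn s n p ((σ ^ m) d) ↔ GIn s n p d := by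
  induction m with
  | zero => simp
  | succ m ih => rw [pow_succ', Perm.mul_apply, GIn_iff h, ih]

theorem GIn_same [Finite D] (h : GMap σ α s n p side) {d e : D} (hde : σ.SameCycle d e) :
    GIn s n p e ↔ GIn s n p d := by
  obtain ⟨m, hm⟩ := hde.exists_nat_pow_eq
  rw [← hm, GIn_pow h]

theorem GT_not_in {d : D} (hd : GT α s n p d) : ¬ GIn s n p d := by
  rintro ⟨i, e | e | e⟩
  · exact (hd i).1 e
  · exact (hd i).2.2.1 e
  · exact (hd i).2.2.2 e

/-- trichotomy -/
theorem GT_or {d : D} (hd : ¬ GT α s n p d) (hi : ¬ GIn s n p d) : ∃ i, d = α (s i) := by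
  unfold GT at hd
  push Not at hd
  obtain ⟨i, hi'⟩ := hd
  by_contra hno
  push Not at hno
  have h1 : d ≠ s i := fun e => hi ⟨i, Or.inl e⟩
  have h2 : d ≠ n i := fun e => hi ⟨i, Or.inr (Or.inl e)⟩
  exact hi ⟨i, Or.inr (Or.inr (hi' h1 (hno i) h2))⟩

theorem not_in_s' (h : GMap σ α s n p side) (i : Fin 4) : ¬ GIn s n p (α (s i)) := by
  rintro ⟨j, e | e | e⟩
  · exact h.s_s' j i e.symm
  · exact h.n_s' j i e.symm
  · exact h.p_s' j i e.symm

theorem same_s_n (h : GMap σ α s n p side) (i : Fin 4) : σ.SameCycle (s i) (n i) := by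
  rcases hs : side i with _ | _
  · obtain ⟨h1, h2, h3⟩ := h.hR i hs
    exact ⟨2, by rw [zpow_ofNat, pow_two, Perm.mul_apply, h2, h3]⟩
  · obtain ⟨h1, h2, h3⟩ := h.hL i hs
    exact ⟨1, by rw [zpow_one, h2]⟩

theorem same_s_p (h : GMap σ α s n p side) (i : Fin 4) : σ.SameCycle (s i) (p i) := by
  rcases hs : side i with _ | _
  · obtain ⟨h1, h2, h3⟩ := h.hR i hs
    exact ⟨1, by rw [zpow_one, h2]⟩
  · obtain ⟨h1, h2, h3⟩ := h.hL i hs
    exact ⟨2, by rw [zpow_ofNat, pow_two, Perm.mul_apply, h2, h3]⟩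

theorem hp (h : GMap σ α s n p side) (i : Fin 4) : α (p i) = n (i - 1) := by
  have h1 := h.hn (i - 1)
  rw [sub_add_cancel] at h1
  rw [← h1, h.inv]

/-- all terminals have outer darts -/
theorem term_all (hv : σ.SameCycle (α (s 0)) (α (s 2))) (hu : σ.SameCycle (α (s 1)) (α (s 3)))
    (tv : ∃ t, GT α s n p t ∧ σ.SameCycle (α (s 0)) t)
    (tu : ∃ t, GT α s n p t ∧ σ.SameCycle (α (s 1)) t) (i : Fin 4) :
    ∃ t, GT α s n p t ∧ σ.SameCycle (α (s i)) t := by
  obtain ⟨t, ht, ht'⟩ := tv
  obtain ⟨r, hr, hr'⟩ := tu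
  fin_cases i
  · exact ⟨t, ht, ht'⟩
  · exact ⟨r, hr, hr'⟩
  · exact ⟨t, ht, hv.symm.trans ht'⟩
  · exact ⟨r, hr, hu.symm.trans hr'⟩

end Basic

/-! ### Counting classes -/

/-- lower bound for the number of cycles by an invariant function -/
theorem n1_le_ncyc {D Q : Type} [Finite D] (π : Perm D) (c : D → Q)
    (hc : ∀ d, c (π d) = c d) (hs : Function.Surjective c) : Nat.card Q ≤ ncyc π := by
  have hpow : ∀ (m : ℕ) (d : D), c ((π ^ m) d) = c d := by
    intro m d
    induction m with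
    | zero => simp
    | succ m ih => rw [pow_succ', Perm.mul_apply, hc, ih]
  let f : Quotient (Perm.SameCycle.setoid π) → Q := Quotient.lift c (by
    intro x y hxy
    obtain ⟨m, hm⟩ := Perm.SameCycle.exists_nat_pow_eq hxy
    rw [← hm, hpow])
  have hf : Function.Surjective f := by
    intro q
    obtain ⟨d, rfl⟩ := hs q
    exact ⟨Quotient.mk _ d, rfl⟩
  exact Nat.card_le_card_of_surjective f hf

/-- gluing one pair decreases the number of classes by at most one -/
theorem n1_card_glue {D : Type} [Finite D] (s t : Setoid D) (a b : D)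
    (h : ∀ x y, t x y → s x y ∨ (s x a ∧ s y b) ∨ (s x b ∧ s y a)) (hst : s ≤ t) :
    Nat.card (Quotient s) ≤ Nat.card (Quotient t) + 1 := by
  classical
  let f : Quotient s → Option (Quotient t) := Quotient.lift
    (fun x => if s x b then none else some (Quotient.mk t x)) (by
      intro x y hxy
      have hxy' : s x y := hxy
      by_cases hx : s x b
      · have hy : s y b := s.trans' (s.symm' hxy') hx
        simp only [hx, hy, if_true]
      · have hy : ¬ s y b := fun hy => hx (s.trans' hxy' hy)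
        simp only [hx, hy, if_false]
        exact congrArg some (Quotient.sound (hst hxy')))
  have hf : Function.Injective f := by
    intro q r
    induction q using Quotient.inductionOn with
    | _ x =>
      induction r using Quotient.inductionOn with
      | _ y =>
        intro hqr
        apply Quotient.sound
        change (if s x b then none else some (Quotient.mk t x)) =
          (if s y b then none else some (Quotient.mk t y)) at hqr
        by_cases hx : s x b <;> by_cases hy : s y b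
        · exact s.trans' hx (s.symm' hy)
        · simp [hx, hy] at hqr
        · simp [hx, hy] at hqr
        · simp only [hx, hy, if_false, Option.some.injEq] at hqr
          rcases h x y (Quotient.exact hqr) with e | ⟨_, e⟩ | ⟨e, _⟩
          · exact e
          · exact absurd e hy
          · exact absurd e hx
  have := Nat.card_le_card_of_injective f hf
  rwa [Finite.card_option] at this

/-! ### Gluing one pair -/

/-- The equivalence relation generated by `s` and one more pair. -/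
def glue {D : Type} (s : Setoid D) (a b : D) : Setoid D where
  r x y := s x y ∨ (s x a ∧ s y b) ∨ (s x b ∧ s y a)
  iseqv := by
    refine ⟨fun x => Or.inl (s.refl' x), ?_, ?_⟩
    · rintro x y (h | ⟨h1, h2⟩ | ⟨h1, h2⟩)
      · exact Or.inl (s.symm' h)
      · exact Or.inr (Or.inr ⟨h2, h1⟩)
      · exact Or.inr (Or.inl ⟨h2, h1⟩)
    · rintro x y z (h | ⟨h1, h2⟩ | ⟨h1, h2⟩) (k | ⟨k1, k2⟩ | ⟨k1, k2⟩)
      · exact Or.inl (s.trans' h k)
      · exact Or.inr (Or.inl ⟨s.trans' h k1, k2⟩)
      · exact Or.inr (Or.inr ⟨s.trans' h k1, k2⟩)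
      · exact Or.inr (Or.inl ⟨h1, s.trans' (s.symm' k) h2⟩)
      · exact Or.inr (Or.inl ⟨h1, k2⟩)
      · exact Or.inl (s.trans' h1 (s.symm' k2))
      · exact Or.inr (Or.inr ⟨h1, s.trans' (s.symm' k) h2⟩)
      · exact Or.inl (s.trans' h1 (s.symm' k2))
      · exact Or.inr (Or.inr ⟨h1, k2⟩)

theorem glue_pair {D : Type} (s : Setoid D) (a b : D) : glue s a b a b :=
  Or.inr (Or.inl ⟨s.refl' a, s.refl' b⟩)

theorem le_glue {D : Type} (s : Setoid D) (a b : D) : s ≤ glue s a b :=
  fun _ _ h => Or.inl h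

theorem card_glue' {D : Type} [Finite D] (s : Setoid D) (a b : D) :
    Nat.card (Quotient s) ≤ Nat.card (Quotient (glue s a b)) + 1 :=
  n1_card_glue s (glue s a b) a b (fun _ _ h => h) (le_glue s a b)

/-- The finite combinatorics of the four sides. -/
theorem pairs_core (a : Fin 4 → Bool) (hmix : (∃ i, a i = true) ∧ (∃ i, a i = false)) :
    ∃ i j : Fin 4, ∀ (Q : Type) (N P S S' : Fin 4 → Q),
      (∀ i, S' i = if a i = true then N i else P i) →
      (∀ i, N i = if a (i + 1) = true then S (i + 1) else N (i + 1)) →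
      (∀ i, P i = if a (i - 1) = true then P (i - 1) else S (i - 1)) →
      S' i = S i → S' j = S j → ∀ k, S' k = S k := by
  have f0 : (0 : Fin 4) + 1 = 1 := rfl
  have f1 : (1 : Fin 4) + 1 = 2 := rfl
  have f2 : (2 : Fin 4) + 1 = 3 := rfl
  have f3 : (3 : Fin 4) + 1 = 0 := rfl
  have g0 : (0 : Fin 4) - 1 = 3 := rfl
  have g1 : (1 : Fin 4) - 1 = 0 := rfl
  have g2 : (2 : Fin 4) - 1 = 1 := rfl
  have g3 : (3 : Fin 4) - 1 = 2 := rfl
  have hall : ∀ b : Bool, a 0 = b → a 1 = b → a 2 = b → a 3 = b → False := by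
    intro b h0 h1 h2 h3
    obtain ⟨⟨i, hi⟩, ⟨j, hj⟩⟩ := hmix
    have h : ∀ k, a k = b := by
      intro k; fin_cases k <;> assumption
    rw [h] at hi hj
    rw [hi] at hj
    exact absurd hj (by decide)
  have key : ∀ (Q : Type) (N P S S' : Fin 4 → Q),
      (∀ i, S' i = if a i = true then N i else P i) →
      (∀ i, N i = if a (i + 1) = true then S (i + 1) else N (i + 1)) →
      (∀ i, P i = if a (i - 1) = true then P (i - 1) else S (i - 1)) →
      (S' 0 = (if a 0 = true then N 0 else P 0) ∧ S' 1 = (if a 1 = true then N 1 else P 1) ∧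
      S' 2 = (if a 2 = true then N 2 else P 2) ∧ S' 3 = (if a 3 = true then N 3 else P 3)) ∧
      (N 0 = (if a 1 = true then S 1 else N 1) ∧ N 1 = (if a 2 = true then S 2 else N 2) ∧
      N 2 = (if a 3 = true then S 3 else N 3) ∧ N 3 = (if a 0 = true then S 0 else N 0)) ∧
      (P 0 = (if a 3 = true then P 3 else S 3) ∧ P 1 = (if a 0 = true then P 0 else S 0) ∧
      P 2 = (if a 1 = true then P 1 else S 1) ∧ P 3 = (if a 2 = true then P 2 else S 2)) := by
    intro Q N P S S' h1 h2 h3
    exact ⟨⟨h1 0, h1 1, h1 2, h1 3⟩, ⟨h2 0, h2 1, h2 2, h2 3⟩, ⟨h3 0, h3 1, h3 2, h3 3⟩⟩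
  have four : ∀ (Q : Type) (S S' : Fin 4 → Q), S' 0 = S 0 → S' 1 = S 1 → S' 2 = S 2 →
      S' 3 = S 3 → ∀ k, S' k = S k := by
    intro Q S S' h0 h1 h2 h3 k
    fin_cases k <;> assumption
  -- omitted: i0 and j0, the others are used
  have fin : ∀ i j : Fin 4, (∀ (Q : Type) (N P S S' : Fin 4 → Q),
      (∀ i, S' i = if a i = true then N i else P i) →
      (∀ i, N i = if a (i + 1) = true then S (i + 1) else N (i + 1)) →
      (∀ i, P i = if a (i - 1) = true then P (i - 1) else S (i - 1)) →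
      S' i = S i → S' j = S j → (S' 0 = S 0 ∧ S' 1 = S 1 ∧ S' 2 = S 2 ∧ S' 3 = S 3)) →
      ∃ i j : Fin 4, ∀ (Q : Type) (N P S S' : Fin 4 → Q),
      (∀ i, S' i = if a i = true then N i else P i) →
      (∀ i, N i = if a (i + 1) = true then S (i + 1) else N (i + 1)) →
      (∀ i, P i = if a (i - 1) = true then P (i - 1) else S (i - 1)) →
      S' i = S i → S' j = S j → ∀ k, S' k = S k := by
    intro i j hij
    refine ⟨i, j, ?_⟩
    intro Q N P S S' h1 h2 h3 e1 e2
    obtain ⟨k0, k1, k2, k3⟩ := hij Q N P S S' h1 h2 h3 e1 e2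
    exact four Q S S' k0 k1 k2 k3
  rcases hs0 : a 0 with _ | _ <;> rcases hs1 : a 1 with _ | _ <;>
    rcases hs2 : a 2 with _ | _ <;> rcases hs3 : a 3 with _ | _
  · exact (hall false hs0 hs1 hs2 hs3).elim
  on_goal 15 => exact (hall true hs0 hs1 hs2 hs3).elim
  all_goals
    first
    | refine fin 0 1 ?_
      intro Q N P S S' h1 h2 h3 e1 e2
      obtain ⟨⟨b0, b1, b2, b3⟩, ⟨c0, c1, c2, c3⟩, ⟨d0, d1, d2, d3⟩⟩ := key Q N P S S' h1 h2 h3
      clear h1 h2 h3 hall hmix key four fin f0 f1 f2 f3 g0 g1 g2 g3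
      simp only [hs0, hs1, hs2, hs3, if_true, if_false, Bool.false_eq_true] at b0 b1 b2 b3 c0 c1 c2 c3 d0 d1 d2 d3
      grind
    | refine fin 0 2 ?_
      intro Q N P S S' h1 h2 h3 e1 e2
      obtain ⟨⟨b0, b1, b2, b3⟩, ⟨c0, c1, c2, c3⟩, ⟨d0, d1, d2, d3⟩⟩ := key Q N P S S' h1 h2 h3
      clear h1 h2 h3 hall hmix key four fin f0 f1 f2 f3 g0 g1 g2 g3
      simp only [hs0, hs1, hs2, hs3, if_true, if_false, Bool.false_eq_true] at b0 b1 b2 b3 c0 c1 c2 c3 d0 d1 d2 d3
      grind
    | refine fin 1 2 ?_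
      intro Q N P S S' h1 h2 h3 e1 e2
      obtain ⟨⟨b0, b1, b2, b3⟩, ⟨c0, c1, c2, c3⟩, ⟨d0, d1, d2, d3⟩⟩ := key Q N P S S' h1 h2 h3
      clear h1 h2 h3 hall hmix key four fin f0 f1 f2 f3 g0 g1 g2 g3
      simp only [hs0, hs1, hs2, hs3, if_true, if_false, Bool.false_eq_true] at b0 b1 b2 b3 c0 c1 c2 c3 d0 d1 d2 d3
      grind

/-- With spokes on both sides, two of the four pairs `(α (s i), s i)` suffice. -/
theorem two_pairs {D : Type} {σ α : Perm D} {s n p : Fin 4 → D} {side : Fin 4 → Bool}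
    (h : GMap σ α s n p side) (hmix : (∃ i, side i = true) ∧ (∃ i, side i = false)) :
    ∃ i j : Fin 4, ∀ (Q : Type) (c : D → Q), (∀ d, c (σ (α d)) = c d) →
      c (α (s i)) = c (s i) → c (α (s j)) = c (s j) → ∀ k, c (α (s k)) = c (s k) := by
  obtain ⟨i, j, hij⟩ := pairs_core side hmix
  refine ⟨i, j, ?_⟩
  intro Q c hc e1 e2 k
  refine hij Q (fun i => c (n i)) (fun i => c (p i)) (fun i => c (s i)) (fun i => c (α (s i)))
    ?_ ?_ ?_ e1 e2 k
  · intro i
    rcases hi : side i with _ | _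
    · simp only [Bool.false_eq_true, if_false]
      rw [← hc (α (s i)), h.inv, (h.hR i hi).2.1]
    · simp only [if_true]
      rw [← hc (α (s i)), h.inv, (h.hL i hi).2.1]
  · intro i
    rcases hi : side (i + 1) with _ | _
    · simp only [Bool.false_eq_true, if_false]
      rw [← hc (n i), h.hn, (h.hR _ hi).2.2]
    · simp only [if_true]
      rw [← hc (n i), h.hn, (h.hL _ hi).1]
  · intro i
    rcases hi : side (i - 1) with _ | _
    · simp only [Bool.false_eq_true, if_false]
      rw [← hc (p i), hp h, (h.hR _ hi).1]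
    · simp only [if_true]
      rw [← hc (p i), hp h, (h.hL _ hi).2.2]

/-- Following `σ` from a point to the first outer dart, an invariant function does not change. -/
theorem first_T {D Q : Type} {σ α : Perm D} {s n p : Fin 4 → D} {side : Fin 4 → Bool}
    (h : GMap σ α s n p side) (c : D → Q) (hs : ∀ i, c (σ (α (s i))) = c (α (s i)))
    (x : D) (hx : ¬ GIn s n p x) (m : ℕ)
    (hm : ∀ j, j < m → ¬ GT α s n p ((σ ^ j) x)) : c ((σ ^ m) x) = c x := by
  induction m with
  | zero => simp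
  | succ m ih =>
    have h1 := ih (fun j hj => hm j (Nat.lt_succ_of_lt hj))
    obtain ⟨i, hi⟩ := GT_or (hm m (Nat.lt_succ_self m)) (by rwa [GIn_pow h])
    rw [pow_succ', Perm.mul_apply, hi, hs i, ← hi, h1]

/-- Module N1: spokes on both sides: at most two faces are lost when the null piece is
removed. -/
theorem N1_faces {D : Type} [Finite D] {σ α : Perm D} {s n p : Fin 4 → D} {side : Fin 4 → Bool}
    (h : GMap σ α s n p side)
    (hv : σ.SameCycle (α (s 0)) (α (s 2))) (hu : σ.SameCycle (α (s 1)) (α (s 3)))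
    (tv : ∃ t, GT α s n p t ∧ σ.SameCycle (α (s 0)) t)
    (tu : ∃ t, GT α s n p t ∧ σ.SameCycle (α (s 1)) t)
    (hmix : (∃ i, side i = true) ∧ (∃ i, side i = false)) :
    ncyc (σ * α) ≤
      ncyc (ret σ (GT α s n p) * resInv α (GT α s n p) h.inv (GT_inv h)) + 2 := by
  classical
  obtain ⟨i0, j0, hij⟩ := two_pairs h hmix
  set E1 := glue (Perm.SameCycle.setoid (σ * α)) (α (s i0)) (s i0) with hE1
  set E2 := glue E1 (α (s j0)) (s j0) with hE2
  have hc1 : ncyc (σ * α) ≤ Nat.card (Quotient E1) + 1 := card_glue' _ _ _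
  have hc2 : Nat.card (Quotient E1) ≤ Nat.card (Quotient E2) + 1 := card_glue' _ _ _
  let c : D → Quotient E2 := fun d => Quotient.mk E2 d
  have hcφ : ∀ d, c (σ (α d)) = c d := by
    intro d
    apply Quotient.sound
    apply le_glue E1
    apply le_glue
    show (σ * α).SameCycle (σ (α d)) d
    exact Perm.SameCycle.symm ⟨1, by simp⟩
  have hp1 : c (α (s i0)) = c (s i0) := Quotient.sound (le_glue E1 _ _ (glue_pair _ _ _))
  have hp2 : c (α (s j0)) = c (s j0) := Quotient.sound (glue_pair _ _ _)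
  have hall := hij _ c hcφ hp1 hp2
  have hσs : ∀ i, c (σ (α (s i))) = c (α (s i)) := by
    intro i
    rw [hcφ, hall]
  -- the classes meet the outer darts
  have good_s' : ∀ i, ∃ t, GT α s n p t ∧ c t = c (α (s i)) := by
    intro i
    obtain ⟨t, ht, ht'⟩ := term_all hv hu tv tu i
    obtain ⟨m, hm⟩ := ht'.exists_nat_pow_eq
    have hex : ∃ m, GT α s n p ((σ ^ m) (α (s i))) := ⟨m, by rw [hm]; exact ht⟩
    refine ⟨(σ ^ (Nat.find hex)) (α (s i)), Nat.find_spec hex, ?_⟩
    exact first_T h c hσs _ (not_in_s' h i) _ (fun j hj => Nat.find_min hex hj)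
  have good_s : ∀ i, ∃ t, GT α s n p t ∧ c t = c (s i) := by
    intro i
    rw [← hall i]
    exact good_s' i
  have good_n : ∀ i, ∃ t, GT α s n p t ∧ c t = c (n i) := by
    have A : ∀ i, side (i + 1) = true → ∃ t, GT α s n p t ∧ c t = c (n i) := by
      intro i hi
      have : c (n i) = c (s (i + 1)) := by rw [← hcφ (n i), h.hn, (h.hL _ hi).1]
      rw [this]; exact good_s _
    have B : ∀ i, (∃ t, GT α s n p t ∧ c t = c (n (i + 1))) →
        ∃ t, GT α s n p t ∧ c t = c (n i) := by
      intro i hi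
      rcases hs : side (i + 1) with _ | _
      · have : c (n i) = c (n (i + 1)) := by rw [← hcφ (n i), h.hn, (h.hR _ hs).2.2]
        rw [this]; exact hi
      · exact A i hs
    obtain ⟨j, hj⟩ := hmix.1
    have s1 := A (j - 1) (by rw [sub_add_cancel]; exact hj)
    have s2 := B (j - 1 - 1) (by rw [sub_add_cancel]; exact s1)
    have s3 := B (j - 1 - 1 - 1) (by rw [sub_add_cancel]; exact s2)
    have s4 := B (j - 1 - 1 - 1 - 1) (by rw [sub_add_cancel]; exact s3)
    intro i
    have aux : ∀ i j : Fin 4, i = j - 1 ∨ i = j - 1 - 1 ∨ i = j - 1 - 1 - 1 ∨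
        i = j - 1 - 1 - 1 - 1 := by decide
    have := aux i j
    rcases this with e | e | e | e <;> rw [e] <;> assumption
  have good_p : ∀ i, ∃ t, GT α s n p t ∧ c t = c (p i) := by
    have A : ∀ i, side (i - 1) = false → ∃ t, GT α s n p t ∧ c t = c (p i) := by
      intro i hi
      have : c (p i) = c (s (i - 1)) := by rw [← hcφ (p i), hp h, (h.hR _ hi).1]
      rw [this]; exact good_s _
    have B : ∀ i, (∃ t, GT α s n p t ∧ c t = c (p (i - 1))) →
        ∃ t, GT α s n p t ∧ c t = c (p i) := by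
      intro i hi
      rcases hs : side (i - 1) with _ | _
      · exact A i hs
      · have : c (p i) = c (p (i - 1)) := by rw [← hcφ (p i), hp h, (h.hL _ hs).2.2]
        rw [this]; exact hi
    obtain ⟨j, hj⟩ := hmix.2
    have s1 := A (j + 1) (by rw [add_sub_cancel_right]; exact hj)
    have s2 := B (j + 1 + 1) (by rw [add_sub_cancel_right]; exact s1)
    have s3 := B (j + 1 + 1 + 1) (by rw [add_sub_cancel_right]; exact s2)
    have s4 := B (j + 1 + 1 + 1 + 1) (by rw [add_sub_cancel_right]; exact s3)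
    intro i
    have aux : ∀ i j : Fin 4, i = j + 1 ∨ i = j + 1 + 1 ∨ i = j + 1 + 1 + 1 ∨
        i = j + 1 + 1 + 1 + 1 := by decide
    have := aux i j
    rcases this with e | e | e | e <;> rw [e] <;> assumption
  have good : ∀ d, ∃ t, GT α s n p t ∧ c t = c d := by
    intro d
    by_cases hd : GT α s n p d
    · exact ⟨d, hd, rfl⟩
    · by_cases hi : GIn s n p d
      · obtain ⟨i, rfl | rfl | rfl⟩ := hi
        · exact good_s i
        · exact good_n i
        · exact good_p i
      · obtain ⟨i, rfl⟩ := GT_or hd hi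
        exact good_s' i
  have hc3 : Nat.card (Quotient E2) ≤
      ncyc (ret σ (GT α s n p) * resInv α (GT α s n p) h.inv (GT_inv h)) := by
    refine n1_le_ncyc _ (fun x : {d : D // GT α s n p d} => c x.1) ?_ ?_
    · intro x
      have hy : GT α s n p (α x.1) := GT_inv h _ x.2
      show c ((ret σ (GT α s n p) ⟨α x.1, hy⟩ : {d : D // GT α s n p d}) : D) = c x.1
      obtain ⟨m, hm0, hm, hmin⟩ := ret_spec σ (GT α s n p) ⟨α x.1, hy⟩
      rw [hm]
      obtain ⟨k, rfl⟩ : ∃ k, m = k + 1 := ⟨m - 1, by omega⟩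
      rw [pow_succ, Perm.mul_apply, ← hcφ x.1]
      refine first_T h c hσs _ ?_ k ?_
      · show ¬ GIn s n p (σ (α x.1))
        rw [GIn_iff h]; exact GT_not_in hy
      · intro j hj
        have := hmin (j + 1) (by omega) (by omega)
        rwa [pow_succ, Perm.mul_apply] at this
    · intro q
      obtain ⟨d, rfl⟩ := Quotient.exists_rep q
      obtain ⟨t, ht, htc⟩ := good d
      exact ⟨⟨t, ht⟩, htc⟩
  omega

/-- Module N1: vertices: exactly the four vertices of the 4-cycle disappear. -/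
theorem N1_verts {D : Type} [Finite D] {σ α : Perm D} {s n p : Fin 4 → D} {side : Fin 4 → Bool}
    (h : GMap σ α s n p side)
    (tv : ∀ i, ∃ t, GT α s n p t ∧ σ.SameCycle (α (s i)) t) :
    ncyc σ ≤ ncyc (ret σ (GT α s n p)) + 4 := by
  classical
  let f : Quotient (Perm.SameCycle.setoid (ret σ (GT α s n p))) ⊕ Fin 4 →
      Quotient (Perm.SameCycle.setoid σ) :=
    Sum.elim (Quotient.lift (fun x => Quotient.mk (Perm.SameCycle.setoid σ) x.1) (by
      intro x y hxy
      apply Quotient.sound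
      exact (ret_sameCycle σ (GT α s n p) x y).mp hxy))
      (fun i => Quotient.mk (Perm.SameCycle.setoid σ) (s i))
  have hf : Function.Surjective f := by
    intro q
    obtain ⟨d, rfl⟩ := Quotient.exists_rep q
    by_cases hd : GT α s n p d
    · exact ⟨Sum.inl (Quotient.mk _ ⟨d, hd⟩), rfl⟩
    · by_cases hi : GIn s n p d
      · obtain ⟨i, rfl | rfl | rfl⟩ := hi
        · exact ⟨Sum.inr i, rfl⟩
        · exact ⟨Sum.inr i, Quotient.sound (same_s_n h i)⟩
        · exact ⟨Sum.inr i, Quotient.sound (same_s_p h i)⟩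
      · obtain ⟨i, rfl⟩ := GT_or hd hi
        obtain ⟨t, ht, ht'⟩ := tv i
        exact ⟨Sum.inl (Quotient.mk _ ⟨t, ht⟩), Quotient.sound ht'.symm⟩
  have hcard := Nat.card_le_card_of_surjective f hf
  rw [Nat.card_sum, Nat.card_fin] at hcard
  exact hcard

end Hopper
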