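import Pool.Agent.Work.MP_85d607_co.N1

/-!
# Module N2: a null piece with all spokes on the same side
-/

namespace Hopper

open Equiv

section N2

variable {D : Type} {σ α : Perm D} {s n p : Fin 4 → D} {side : Fin 4 → Bool}

/-- terminals at odd positions and at even positions -/
theorem term_odd (hv : σ.SameCycle (α (s 0)) (α (s 2))) (hu : σ.SameCycle (α (s 1)) (α (s 3)))
    (i : Fin 4) : σ.SameCycle (α (s i)) (α (s (i + 2))) := by
  fin_cases i
  · exact hv
  · exact hu
  · exact hv.symm
  · exact hu.symm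

theorem term_ne (hv : σ.SameCycle (α (s 0)) (α (s 2))) (hu : σ.SameCycle (α (s 1)) (α (s 3)))
    (huv : ¬ σ.SameCycle (α (s 0)) (α (s 1))) (i : Fin 4) :
    ¬ σ.SameCycle (α (s i)) (α (s (i + 1))) := by
  fin_cases i
  · exact huv
  · intro h; exact huv (hv.trans h.symm)
  · intro h; exact huv (hv.trans (h.trans hu.symm))
  · intro h; exact huv (h.symm.trans hu.symm)

theorem phi_s' (h : GMap σ α s n p side) (hside : ∀ i, side i = true) (i : Fin 4) :
    σ (α (α (s i))) = n i := by rw [h.inv, (h.hL i (hside i)).2.1]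

theorem phi_n (h : GMap σ α s n p side) (hside : ∀ i, side i = true) (i : Fin 4) :
    σ (α (n i)) = s (i + 1) := by rw [h.hn, (h.hL _ (hside _)).1]

theorem phi_p (h : GMap σ α s n p side) (hside : ∀ i, side i = true) (i : Fin 4) :
    σ (α (p i)) = p (i - 1) := by rw [hp h, (h.hL _ (hside _)).2.2]

/-- A set containing an element and closed under a permutation contains its cycle. -/
theorem same_closed [Finite D] (π : Perm D) (P : D → Prop) (hP : ∀ x, P x → P (π x)) {x y : D}
    (hx : P x) (hxy : π.SameCycle x y) : P y := by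
  obtain ⟨m, hm⟩ := hxy.exists_nat_pow_eq
  have : ∀ m : ℕ, P ((π ^ m) x) := by
    intro m
    induction m with
    | zero => simpa using hx
    | succ m ih => rw [pow_succ', Perm.mul_apply]; exact hP _ ih
  rw [← hm]; exact this m

theorem same_self_apply (π : Perm D) (x : D) : π.SameCycle x (π x) := ⟨1, by simp⟩

/-- what follows the dart of a terminal -/
theorem next_s' [Finite D] (h : GMap σ α s n p side)
    (hv : σ.SameCycle (α (s 0)) (α (s 2))) (hu : σ.SameCycle (α (s 1)) (α (s 3)))
    (tall : ∀ i, ∃ t, GT α s n p t ∧ σ.SameCycle (α (s i)) t)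
    (huv : ¬ σ.SameCycle (α (s 0)) (α (s 1))) (i : Fin 4) :
    GT α s n p (σ (α (s i))) ∨ σ (α (s i)) = α (s (i + 2)) := by
  by_cases hT : GT α s n p (σ (α (s i)))
  · exact Or.inl hT
  · right
    have hnin : ¬ GIn s n p (σ (α (s i))) := by
      rw [GIn_iff h]; exact not_in_s' h i
    obtain ⟨j, hj⟩ := GT_or hT hnin
    have hsame : σ.SameCycle (α (s i)) (α (s j)) := by
      rw [← hj]; exact same_self_apply _ _
    have aux : ∀ i j : Fin 4, j = i ∨ j = i + 1 ∨ j = i + 2 ∨ i = j + 1 := by decide
    rcases aux i j with e | e | e | e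
    · exfalso
      rw [e] at hj
      obtain ⟨t, ht, ht'⟩ := tall i
      have := same_closed σ (fun x => x = α (s i)) (by rintro x rfl; exact hj) rfl ht'
      exact (ht i).2.1 this
    · rw [e] at hsame
      exact absurd hsame (term_ne hv hu huv i)
    · rw [hj, e]
    · rw [e] at hsame
      exact absurd hsame.symm (term_ne hv hu huv j)

/-- not both marks of a terminal follow each other -/
theorem next_not_both [Finite D]
    (tall : ∀ i, ∃ t, GT α s n p t ∧ σ.SameCycle (α (s i)) t) (i : Fin 4)
    (h1 : σ (α (s i)) = α (s (i + 2))) (h2 : σ (α (s (i + 2))) = α (s i)) : False := by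
  obtain ⟨t, ht, ht'⟩ := tall i
  have := same_closed σ (fun x => x = α (s i) ∨ x = α (s (i + 2)))
    (by rintro x (rfl | rfl)
        · exact Or.inr h1
        · exact Or.inl h2) (Or.inl rfl) ht'
  rcases this with e | e
  · exact (ht i).2.1 e
  · exact (ht (i + 2)).2.1 e

/-- all faces through the spokes meet the outer darts -/
theorem good_s'_N2 [Finite D] (h : GMap σ α s n p side)
    (hv : σ.SameCycle (α (s 0)) (α (s 2))) (hu : σ.SameCycle (α (s 1)) (α (s 3)))
    (tall : ∀ i, ∃ t, GT α s n p t ∧ σ.SameCycle (α (s i)) t)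
    (huv : ¬ σ.SameCycle (α (s 0)) (α (s 1)))
    (hside : ∀ i, side i = true) (i : Fin 4) :
    ∃ t, GT α s n p t ∧ (σ * α).SameCycle (α (s i)) t := by
  have step : ∀ i, (σ * α).SameCycle (α (s i)) (σ (α (s (i + 1)))) := by
    intro i
    refine ⟨3, ?_⟩
    have : ((σ * α) ^ (3 : ℤ)) = (σ * α) * ((σ * α) * (σ * α)) := by
      rw [show (3 : ℤ) = ((3 : ℕ) : ℤ) from rfl, zpow_natCast]
      simp [pow_succ, mul_assoc]
    rw [this]
    simp only [Perm.mul_apply]
    rw [phi_s' h hside, phi_n h hside]
  have f1 : ∀ i : Fin 4, i + 1 + 2 + 1 = i := by decide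
  have f2 : ∀ i : Fin 4, i + 2 + 1 = i + 1 + 2 := by decide
  have f3 : ∀ i : Fin 4, i + 1 + 2 + 2 = i + 1 := by decide
  rcases next_s' h hv hu tall huv (i + 1) with g | g
  · exact ⟨_, g, step i⟩
  have c1 : (σ * α).SameCycle (α (s i)) (α (s (i + 1 + 2))) := by
    rw [← g]; exact step i
  have c2 := step (i + 1 + 2)
  rw [f1] at c2
  rcases next_s' h hv hu tall huv i with g' | g'
  · exact ⟨_, g', c1.trans c2⟩
  rw [g'] at c2
  have c3 := step (i + 2)
  rw [f2] at c3
  rcases next_s' h hv hu tall huv (i + 1 + 2) with g'' | g''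
  · exact ⟨_, g'', c1.trans (c2.trans c3)⟩
  rw [f3] at g''
  exact (next_not_both tall (i + 1) g g'').elim

theorem good_all_N2 [Finite D] (h : GMap σ α s n p side)
    (hv : σ.SameCycle (α (s 0)) (α (s 2))) (hu : σ.SameCycle (α (s 1)) (α (s 3)))
    (tall : ∀ i, ∃ t, GT α s n p t ∧ σ.SameCycle (α (s i)) t)
    (huv : ¬ σ.SameCycle (α (s 0)) (α (s 1)))
    (hside : ∀ i, side i = true) (d : D) (hd : ∀ i, d ≠ p i) :
    ∃ t, GT α s n p t ∧ (σ * α).SameCycle d t := by
  by_cases hT : GT α s n p d
  · exact ⟨d, hT, Perm.SameCycle.refl _ _⟩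
  have hs : ∀ i, (σ * α).SameCycle (α (s i)) (n i) := by
    intro i
    have := same_self_apply (σ * α) (α (s i))
    rwa [Perm.mul_apply, phi_s' h hside] at this
  have hs2 : ∀ i, (σ * α).SameCycle (n i) (s (i + 1)) := by
    intro i
    have := same_self_apply (σ * α) (n i)
    rwa [Perm.mul_apply, phi_n h hside] at this
  by_cases hi : GIn s n p d
  · obtain ⟨i, rfl | rfl | rfl⟩ := hi
    · obtain ⟨t, ht, ht'⟩ := good_s'_N2 h hv hu tall huv hside (i - 1)
      refine ⟨t, ht, ?_⟩
      have := (hs (i - 1)).trans (hs2 (i - 1))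
      rw [sub_add_cancel] at this
      exact this.symm.trans ht'
    · obtain ⟨t, ht, ht'⟩ := good_s'_N2 h hv hu tall huv hside i
      exact ⟨t, ht, (hs i).symm.trans ht'⟩
    · exact absurd rfl (hd i)
  · obtain ⟨i, rfl⟩ := GT_or hT hi
    exact good_s'_N2 h hv hu tall huv hside i

end N2

/-- Module N2, faces: all spokes on the same side: only one face disappears when the null piece
is contracted. -/
theorem N2_faces {D : Type} [Finite D] {σ α : Perm D} {s n p : Fin 4 → D} {side : Fin 4 → Bool}
    (h : GMap σ α s n p side)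
    (hv : σ.SameCycle (α (s 0)) (α (s 2))) (hu : σ.SameCycle (α (s 1)) (α (s 3)))
    (tv : ∃ t, GT α s n p t ∧ σ.SameCycle (α (s 0)) t)
    (tu : ∃ t, GT α s n p t ∧ σ.SameCycle (α (s 1)) t)
    (huv : ¬ σ.SameCycle (α (s 0)) (α (s 1)))
    (hside : ∀ i, side i = true) :
    ncyc (σ * α) ≤ ncyc (ret (σ * α) (GT α s n p)) + 1 := by
  classical
  have tall := term_all hv hu tv tu
  let f : Quotient (Perm.SameCycle.setoid (ret (σ * α) (GT α s n p))) ⊕ Unit →
      Quotient (Perm.SameCycle.setoid (σ * α)) :=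
    Sum.elim (Quotient.lift (fun x => Quotient.mk (Perm.SameCycle.setoid (σ * α)) x.1) (by
      intro x y hxy
      apply Quotient.sound
      exact (ret_sameCycle (σ * α) (GT α s n p) x y).mp hxy))
      (fun _ => Quotient.mk (Perm.SameCycle.setoid (σ * α)) (p 0))
  have hpp : ∀ i, (σ * α).SameCycle (p i) (p (i - 1)) := by
    intro i
    have := same_self_apply (σ * α) (p i)
    rwa [Perm.mul_apply, phi_p h hside] at this
  have hp0 : ∀ i, (σ * α).SameCycle (p 0) (p i) := by
    intro i
    have e1 := hpp 0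
    have e2 := hpp (0 - 1)
    have e3 := hpp (0 - 1 - 1)
    have aux : ∀ i : Fin 4, i = 0 ∨ i = 0 - 1 ∨ i = 0 - 1 - 1 ∨ i = 0 - 1 - 1 - 1 := by decide
    rcases aux i with e | e | e | e <;> rw [e]
    · exact e1
    · exact e1.trans e2
    · exact e1.trans (e2.trans e3)
  have hf : Function.Surjective f := by
    intro q
    obtain ⟨d, rfl⟩ := Quotient.exists_rep q
    by_cases hd : ∃ i, d = p i
    · obtain ⟨i, rfl⟩ := hd
      exact ⟨Sum.inr (), Quotient.sound (hp0 i)⟩
    · push Not at hd
      obtain ⟨t, ht, ht'⟩ := good_all_N2 h hv hu tall huv hside d hd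
      exact ⟨Sum.inl (Quotient.mk _ ⟨t, ht⟩), Quotient.sound ht'.symm⟩
  have hcard := Nat.card_le_card_of_surjective f hf
  rw [Nat.card_sum, Nat.card_unique (α := Unit)] at hcard
  exact hcard

/-- A function on a cycle which may only change when leaving one of two marks. -/
theorem two_marks {D Q : Type} [Finite D] (σ : Perm D) (f : D → Q) {a b : D} (hab : a ≠ b)
    (hs : σ.SameCycle a b)
    (hf : ∀ x, σ.SameCycle a x → x ≠ a → x ≠ b → f (σ x) = f x) :
    f (σ a) = f b ∧ f (σ b) = f a ∧ ∀ x, σ.SameCycle a x → f x = f a ∨ f x = f b := by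
  classical
  -- first hit of one mark
  have hit : ∀ x, σ.SameCycle a x → ∃ m : ℕ, ((σ ^ m) x = a ∨ (σ ^ m) x = b) ∧
      (∀ j, j < m → (σ ^ j) x ≠ a ∧ (σ ^ j) x ≠ b) ∧ f x = f ((σ ^ m) x) := by
    intro x hx
    obtain ⟨m, hm⟩ := hx.symm.exists_nat_pow_eq
    have hex : ∃ m : ℕ, (σ ^ m) x = a ∨ (σ ^ m) x = b := ⟨m, Or.inl hm⟩
    have hmin : ∀ j, j < Nat.find hex → (σ ^ j) x ≠ a ∧ (σ ^ j) x ≠ b := by
      intro j hj
      have := Nat.find_min hex hj
      push Not at this
      exact this
    refine ⟨Nat.find hex, Nat.find_spec hex, hmin, ?_⟩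
    have : ∀ j, j ≤ Nat.find hex → f ((σ ^ j) x) = f x := by
      intro j
      induction j with
      | zero => intro _; simp
      | succ j ih =>
        intro hj
        have h1 := ih (by omega)
        have h2 := hmin j (by omega)
        rw [pow_succ', Perm.mul_apply, hf _ ?_ h2.1 h2.2, h1]
        exact hx.trans ⟨j, by simp⟩
    exact (this _ le_rfl).symm
  -- from `σ a` the first mark is `b`
  have main : ∀ a b : D, a ≠ b → σ.SameCycle a b →
      (∀ x, σ.SameCycle a x → ∃ m : ℕ, ((σ ^ m) x = a ∨ (σ ^ m) x = b) ∧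
      (∀ j, j < m → (σ ^ j) x ≠ a ∧ (σ ^ j) x ≠ b) ∧ f x = f ((σ ^ m) x)) →
      f (σ a) = f b := by
    intro a b hab hs hit
    obtain ⟨m, hm, hmin, hfm⟩ := hit (σ a) (same_self_apply σ a)
    rcases hm with hm | hm
    · exfalso
      -- the cycle of `a` is `σ^j (σ a)`, `j ≤ m`
      obtain ⟨k, hk⟩ := hs.exists_nat_pow_eq
      have hper : (σ ^ (m + 1)) a = a := by rw [pow_succ, Perm.mul_apply]; exact hm
      have hk' : (σ ^ (k % (m + 1))) a = b := by
        rw [← hk]
        conv_rhs => rw [← Nat.mod_add_div k (m + 1), pow_add, pow_mul, Perm.mul_apply]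
        congr 1
        have : ∀ l : ℕ, ((σ ^ (m + 1)) ^ l) a = a := by
          intro l
          induction l with
          | zero => simp
          | succ l ih => rw [pow_succ, Perm.mul_apply, hper, ih]
        rw [this]
      have hlt : k % (m + 1) < m + 1 := Nat.mod_lt _ (Nat.succ_pos _)
      rcases Nat.eq_zero_or_pos (k % (m + 1)) with h0 | h0
      · rw [h0] at hk'
        exact hab (by simpa using hk')
      · obtain ⟨j, hj⟩ : ∃ j, k % (m + 1) = j + 1 := ⟨k % (m + 1) - 1, by omega⟩
        rw [hj, pow_succ, Perm.mul_apply] at hk'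
        exact (hmin j (by omega)).2 hk'
    · rw [hfm, hm]
  refine ⟨main a b hab hs hit, ?_, ?_⟩
  · refine main b a hab.symm hs.symm ?_
    intro x hx
    obtain ⟨m, hm, hmin, hfm⟩ := hit x (hs.trans hx)
    exact ⟨m, hm.symm, fun j hj => (hmin j hj).symm, hfm⟩
  · intro x hx
    obtain ⟨m, hm, -, hfm⟩ := hit x hx
    rcases hm with hm | hm
    · left; rw [hfm, hm]
    · right; rw [hfm, hm]

section First

variable {D : Type} (π : Perm D) (T : D → Prop)

open Classical in
/-- The first element of `T` on the orbit of `x` (or an arbitrary element `t0` of `T`). -/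
noncomputable def fst' (t0 : {d : D // T d}) (x : D) : {d : D // T d} :=
  if h : ∃ m : ℕ, T ((π ^ m) x) then ⟨(π ^ (Nat.find h)) x, Nat.find_spec h⟩ else t0

open Classical in
theorem fst'_mem (t0 : {d : D // T d}) (x : {d : D // T d}) : fst' π T t0 x.1 = x := by
  have h : ∃ m : ℕ, T ((π ^ m) x.1) := ⟨0, by simpa using x.2⟩
  have h0 : Nat.find h = 0 := by
    rw [Nat.find_eq_zero]; simpa using x.2
  apply Subtype.ext
  simp only [fst', dif_pos h]
  rw [h0]; simp

open Classical in
theorem fst'_not_mem (t0 : {d : D // T d}) (x : D) (hx : ¬ T x) :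
    fst' π T t0 (π x) = fst' π T t0 x := by
  by_cases h : ∃ m : ℕ, T ((π ^ m) x)
  · have h' : ∃ m : ℕ, T ((π ^ m) (π x)) := by
      obtain ⟨m, hm⟩ := h
      rcases m with _ | m
      · exact absurd (by simpa using hm) hx
      · exact ⟨m, by rwa [pow_succ, Perm.mul_apply] at hm⟩
    have hfind : Nat.find h = Nat.find h' + 1 := by
      rw [Nat.find_eq_iff]
      refine ⟨?_, ?_⟩
      · rw [pow_succ, Perm.mul_apply]; exact Nat.find_spec h'
      · intro j hj
        rcases j with _ | j
        · simpa using hx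
        · rw [pow_succ, Perm.mul_apply]
          exact Nat.find_min h' (by omega)
    apply Subtype.ext
    simp only [fst', dif_pos h, dif_pos h']
    rw [hfind, pow_succ, Perm.mul_apply]
  · have h' : ¬ ∃ m : ℕ, T ((π ^ m) (π x)) := by
      rintro ⟨m, hm⟩
      exact h ⟨m + 1, by rwa [pow_succ, Perm.mul_apply]⟩
    simp only [fst', dif_neg h, dif_neg h']

open Classical in
theorem fst'_ret [Finite D] (t0 : {d : D // T d}) (x : {d : D // T d}) :
    fst' π T t0 (π x.1) = ret π T x := by
  obtain ⟨m, hm0, hm, hmin⟩ := ret_spec π T x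
  obtain ⟨k, rfl⟩ : ∃ k, m = k + 1 := ⟨m - 1, by omega⟩
  have hk : T ((π ^ k) (π x.1)) := by
    have := (ret π T x).2
    rw [hm, pow_succ, Perm.mul_apply] at this
    exact this
  have h : ∃ m : ℕ, T ((π ^ m) (π x.1)) := ⟨k, hk⟩
  have hfind : Nat.find h = k := by
    rw [Nat.find_eq_iff]
    refine ⟨hk, ?_⟩
    intro j hj
    have := hmin (j + 1) (by omega) (by omega)
    rwa [pow_succ, Perm.mul_apply] at this
  apply Subtype.ext
  simp only [fst', dif_pos h]
  rw [hfind, hm, pow_succ, Perm.mul_apply]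

/-- A property kept until the first return holds at the first return. -/
theorem fst'_ind (t0 : {d : D // T d}) (W : D → Prop) (x : D) (hx : W x)
    (hex : ∃ m : ℕ, T ((π ^ m) x)) (hW : ∀ y, W y → ¬ T y → W (π y)) :
    W (fst' π T t0 x).1 := by
  classical
  simp only [fst', dif_pos hex]
  have : ∀ j, j ≤ Nat.find hex → W ((π ^ j) x) := by
    intro j
    induction j with
    | zero => intro _; simpa using hx
    | succ j ih =>
      intro hj
      rw [pow_succ', Perm.mul_apply]
      exact hW _ (ih (by omega)) (Nat.find_min hex (by omega))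
  exact this _ le_rfl

end First

/-- Module N2, vertices: the rotation obtained by contracting the null piece merges the two
terminals into a single vertex. -/
theorem N2_merge {D : Type} [Finite D] {σ α : Perm D} {s n p : Fin 4 → D} {side : Fin 4 → Bool}
    (h : GMap σ α s n p side)
    (hv : σ.SameCycle (α (s 0)) (α (s 2))) (hu : σ.SameCycle (α (s 1)) (α (s 3)))
    (tv : ∃ t, GT α s n p t ∧ σ.SameCycle (α (s 0)) t)
    (tu : ∃ t, GT α s n p t ∧ σ.SameCycle (α (s 1)) t)
    (huv : ¬ σ.SameCycle (α (s 0)) (α (s 1)))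
    (hside : ∀ i, side i = true) (x y : {d : D // GT α s n p d}) :
    (ret (σ * α) (GT α s n p) * resInv α (GT α s n p) h.inv (GT_inv h)).SameCycle x y ↔
      (σ.SameCycle x.1 y.1 ∨
        ((σ.SameCycle (α (s 0)) x.1 ∨ σ.SameCycle (α (s 1)) x.1) ∧
         (σ.SameCycle (α (s 0)) y.1 ∨ σ.SameCycle (α (s 1)) y.1))) := by
  classical
  have tall := term_all hv hu tv tu
  revert x y
  set T := GT α s n p with hT
  set τ := ret (σ * α) T * resInv α T h.inv (GT_inv h) with hτ
  intro x y
  -- every outer orbit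
  have hUV : ∀ i, σ.SameCycle (α (s 0)) (α (s i)) ∨ σ.SameCycle (α (s 1)) (α (s i)) := by
    intro i
    fin_cases i
    · exact Or.inl (Perm.SameCycle.refl _ _)
    · exact Or.inr (Perm.SameCycle.refl _ _)
    · exact Or.inl hv
    · exact Or.inr hu
  constructor
  · -- one step
    have step : ∀ x : {d : D // T d}, σ.SameCycle x.1 (τ x).1 ∨
        ((σ.SameCycle (α (s 0)) x.1 ∨ σ.SameCycle (α (s 1)) x.1) ∧
         (σ.SameCycle (α (s 0)) (τ x).1 ∨ σ.SameCycle (α (s 1)) (τ x).1)) := by
      intro x
      have hax : T (α x.1) := GT_inv h _ x.2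
      have hτx : τ x = fst' (σ * α) T x (σ x.1) := by
        have := fst'_ret (σ * α) T x ⟨α x.1, hax⟩
        rw [Perm.mul_apply, h.inv] at this
        rw [this]; rfl
      by_cases hσx : T (σ x.1)
      · left
        have := fst'_mem (σ * α) T x ⟨σ x.1, hσx⟩
        rw [hτx, this]
        exact same_self_apply σ x.1
      · right
        obtain ⟨i, hi⟩ := GT_or hσx (by rw [GIn_iff h]; exact GT_not_in x.2)
        refine ⟨?_, ?_⟩
        · have := same_self_apply σ x.1
          rw [hi] at this
          exact (hUV i).imp (fun h => h.trans this.symm) (fun h => h.trans this.symm)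
        · let W : D → Prop := fun d => (∃ j, d = α (s j) ∨ d = n j ∨ d = s j) ∨
            (σ.SameCycle (α (s 0)) d ∨ σ.SameCycle (α (s 1)) d)
          have hWs : ∀ j, W (σ (α (s j))) := by
            intro j
            right
            exact (hUV j).imp (fun h => h.trans (same_self_apply _ _))
              (fun h => h.trans (same_self_apply _ _))
          have hW : W (τ x).1 := by
            rw [hτx]
            apply fst'_ind
            · rw [hi]; exact Or.inl ⟨i, Or.inl rfl⟩
            · obtain ⟨t, ht, ht'⟩ := good_s'_N2 h hv hu tall huv hside i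
              obtain ⟨m, hm⟩ := ht'.exists_nat_pow_eq
              exact ⟨m, by rw [hi, hm]; exact ht⟩
            · rintro y (⟨j, rfl | rfl | rfl⟩ | hy) hyT
              · left; exact ⟨j, Or.inr (Or.inl (by rw [Perm.mul_apply, phi_s' h hside]))⟩
              · left; exact ⟨j + 1, Or.inr (Or.inr (by rw [Perm.mul_apply, phi_n h hside]))⟩
              · rw [Perm.mul_apply]; exact hWs j
              · have hyin : ¬ GIn s n p y := by
                  rcases hy with hy | hy
                  · rw [GIn_same h hy]; exact not_in_s' h 0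
                  · rw [GIn_same h hy]; exact not_in_s' h 1
                obtain ⟨j, rfl⟩ := GT_or hyT hyin
                left; exact ⟨j, Or.inr (Or.inl (by rw [Perm.mul_apply, phi_s' h hside]))⟩
          rcases hW with ⟨j, e⟩ | hW
          · exfalso
            have hτT := (τ x).2
            rcases e with e | e | e
            · exact (hτT j).2.1 e
            · exact (hτT j).2.2.1 e
            · exact (hτT j).1 e
          · exact hW
    intro hxy
    obtain ⟨m, hm⟩ := hxy.exists_nat_pow_eq
    have : ∀ m : ℕ, σ.SameCycle x.1 ((τ ^ m) x).1 ∨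
        ((σ.SameCycle (α (s 0)) x.1 ∨ σ.SameCycle (α (s 1)) x.1) ∧
         (σ.SameCycle (α (s 0)) ((τ ^ m) x).1 ∨ σ.SameCycle (α (s 1)) ((τ ^ m) x).1)) := by
      intro m
      induction m with
      | zero => left; simpa using Perm.SameCycle.refl _ _
      | succ m ih =>
        rw [pow_succ', Perm.mul_apply]
        rcases ih with ih | ⟨i1, i2⟩
        · rcases step ((τ ^ m) x) with k | ⟨k1, k2⟩
          · exact Or.inl (ih.trans k)
          · exact Or.inr ⟨k1.imp (fun q => q.trans ih.symm) (fun q => q.trans ih.symm), k2⟩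
        · rcases step ((τ ^ m) x) with k | ⟨k1, k2⟩
          · exact Or.inr ⟨i1, i2.imp (fun q => q.trans k) (fun q => q.trans k)⟩
          · exact Or.inr ⟨i1, k2⟩
    rw [← hm]; exact this m
  · -- colours
    let Q := Quotient (Perm.SameCycle.setoid τ)
    let col : D → Q := fun d => Quotient.mk _ (fst' (σ * α) T x d)
    have colT : ∀ z : {d : D // T d}, col z.1 = Quotient.mk _ z := by
      intro z
      show Quotient.mk _ (fst' (σ * α) T x z.1) = _
      rw [fst'_mem]
    have C1 : ∀ z, T z → col (σ z) = col z := by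
      intro z hz
      have hax : T (α z) := GT_inv h _ hz
      have := fst'_ret (σ * α) T x ⟨α z, hax⟩
      rw [Perm.mul_apply, h.inv] at this
      show Quotient.mk _ (fst' (σ * α) T x (σ z)) = col z
      rw [this, colT ⟨z, hz⟩]
      apply Quotient.sound
      exact (same_self_apply τ ⟨z, hz⟩).symm
    have C2 : ∀ z, ¬ T z → col ((σ * α) z) = col z := by
      intro z hz
      show Quotient.mk _ (fst' (σ * α) T x ((σ * α) z)) = Quotient.mk _ (fst' (σ * α) T x z)
      rw [fst'_not_mem _ _ _ _ hz]
    have notTs' : ∀ i, ¬ T (α (s i)) := fun i ht => (ht i).2.1 rfl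
    have notTn : ∀ i, ¬ T (n i) := fun i ht => (ht i).2.2.1 rfl
    have notTs : ∀ i, ¬ T (s i) := fun i ht => (ht i).1 rfl
    have C3 : ∀ i, col (α (s i)) = col (σ (α (s (i + 1)))) := by
      intro i
      rw [← C2 _ (notTs' i), Perm.mul_apply, phi_s' h hside, ← C2 _ (notTn i), Perm.mul_apply,
        phi_n h hside, ← C2 _ (notTs _), Perm.mul_apply]
    -- the two terminals
    have hne : ∀ i j : Fin 4, i ≠ j → α (s i) ≠ α (s j) := fun i j hij e =>
      hij (h.inj_s (α.injective e))
    have inT : ∀ z, ¬ GIn s n p z → (∀ i, z ≠ α (s i)) → T z := by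
      intro z hz hz'
      by_contra hcon
      obtain ⟨i, hi⟩ := GT_or hcon hz
      exact hz' i hi
    obtain ⟨v1, v2, v3⟩ := two_marks σ col (hne 0 2 (by decide)) hv (by
      intro z hz h0 h2
      apply C1
      apply inT
      · rw [GIn_same h hz]; exact not_in_s' h 0
      · intro i e
        fin_cases i
        · exact h0 e
        · exact huv (by rw [e] at hz; exact hz)
        · exact h2 e
        · exact huv (by rw [e] at hz; exact hz.trans hu.symm))
    obtain ⟨u1, u2, u3⟩ := two_marks σ col (hne 1 3 (by decide)) hu (by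
      intro z hz h0 h2
      apply C1
      apply inT
      · rw [GIn_same h hz]; exact not_in_s' h 1
      · intro i e
        fin_cases i
        · exact huv (by rw [e] at hz; exact hz.symm)
        · exact h0 e
        · exact huv (by rw [e] at hz; exact hv.trans hz.symm)
        · exact h2 e)
    have c0 : col (α (s 0)) = col (α (s 3)) := (C3 0).trans u1
    have c1 : col (α (s 1)) = col (α (s 0)) := (C3 1).trans v2
    have c2 : col (α (s 2)) = col (α (s 1)) := (C3 2).trans u2
    have hcol : ∀ z, (σ.SameCycle (α (s 0)) z ∨ σ.SameCycle (α (s 1)) z) →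
        col z = col (α (s 0)) := by
      rintro z (hz | hz)
      · rcases v3 z hz with e | e
        · exact e
        · rw [e, c2, c1]
      · rcases u3 z hz with e | e
        · rw [e, c1]
        · rw [e, ← c0]
    intro hxy
    have fin : col x.1 = col y.1 := by
      by_cases hx : σ.SameCycle (α (s 0)) x.1 ∨ σ.SameCycle (α (s 1)) x.1
      · have hy : σ.SameCycle (α (s 0)) y.1 ∨ σ.SameCycle (α (s 1)) y.1 := by
          rcases hxy with e | ⟨_, e⟩
          · exact hx.imp (fun q => q.trans e) (fun q => q.trans e)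
          · exact e
        rw [hcol _ hx, hcol _ hy]
      · have hxy' : σ.SameCycle x.1 y.1 := by
          rcases hxy with e | ⟨e, _⟩
          · exact e
          · exact absurd e hx
        have := same_closed σ (fun z => σ.SameCycle x.1 z ∧ col x.1 = col z) (by
          rintro z ⟨hz1, hz2⟩
          refine ⟨hz1.trans (same_self_apply _ _), ?_⟩
          rw [C1 z, hz2]
          apply inT
          · rw [GIn_same h hz1]; exact GT_not_in x.2
          · rintro i rfl
            exact hx ((hUV i).imp (fun q => q.trans hz1.symm) (fun q => q.trans hz1.symm)))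
          ⟨Perm.SameCycle.refl _ _, rfl⟩ hxy'
        exact this.2
    rw [colT x, colT y] at fin
    exact Quotient.exact fin

/-- Module N2, number of vertices (follows from `N2_merge` and `N1_verts` by counting). -/
theorem N2_verts {D : Type} [Finite D] {σ α : Perm D} {s n p : Fin 4 → D} {side : Fin 4 → Bool}
    (h : GMap σ α s n p side)
    (hv : σ.SameCycle (α (s 0)) (α (s 2))) (hu : σ.SameCycle (α (s 1)) (α (s 3)))
    (tv : ∃ t, GT α s n p t ∧ σ.SameCycle (α (s 0)) t)
    (tu : ∃ t, GT α s n p t ∧ σ.SameCycle (α (s 1)) t)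
    (huv : ¬ σ.SameCycle (α (s 0)) (α (s 1)))
    (hside : ∀ i, side i = true) :
    ncyc σ ≤ ncyc (ret (σ * α) (GT α s n p) * resInv α (GT α s n p) h.inv (GT_inv h)) + 5 := by
  have h1 := N1_verts h (term_all hv hu tv tu)
  obtain ⟨a, ha, ha'⟩ := id tv
  obtain ⟨b, hb, hb'⟩ := id tu
  have h2 : ncyc (ret σ (GT α s n p)) ≤
      ncyc (ret (σ * α) (GT α s n p) * resInv α (GT α s n p) h.inv (GT_inv h)) + 1 := by
    refine n1_card_glue _ _ (⟨a, ha⟩ : {d : D // GT α s n p d}) ⟨b, hb⟩ ?_ ?_
    · intro x y hxy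
      have hxy' := (N2_merge h hv hu tv tu huv hside x y).mp hxy
      have e1 : ∀ z : {d : D // GT α s n p d}, σ.SameCycle (α (s 0)) z.1 →
          (ret σ (GT α s n p)).SameCycle z ⟨a, ha⟩ := by
        intro z hz
        rw [ret_sameCycle]
        exact hz.symm.trans ha'
      have e2 : ∀ z : {d : D // GT α s n p d}, σ.SameCycle (α (s 1)) z.1 →
          (ret σ (GT α s n p)).SameCycle z ⟨b, hb⟩ := by
        intro z hz
        rw [ret_sameCycle]
        exact hz.symm.trans hb'
      rcases hxy' with e | ⟨k1 | k1, k2 | k2⟩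
      · exact Or.inl ((ret_sameCycle _ _ _ _).mpr e)
      · exact Or.inl ((e1 x k1).trans (e1 y k2).symm)
      · exact Or.inr (Or.inl ⟨e1 x k1, e2 y k2⟩)
      · exact Or.inr (Or.inr ⟨e2 x k1, e1 y k2⟩)
      · exact Or.inl ((e2 x k1).trans (e2 y k2).symm)
    · intro x y hxy
      exact (N2_merge h hv hu tv tu huv hside x y).mpr
        (Or.inl ((ret_sameCycle _ _ _ _).mp hxy))
  omega

end Hopper
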