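import Pool.Agent.Work.MP_85d607_co.Core
import Pool.Agent.Work.MP_85d607_co.Bridge
import Pool.Agent.Work.MP_85d607_co.N1
import Pool.Agent.Work.MP_85d607_co.N2

namespace Hopper

open Equiv

/-! ## Module Gadget: the dichotomy -/

namespace Gad

theorem three_cycle {D : Type} [Finite D] (σ : Perm D) {a b c : D} (hab : a ≠ b) (hac : a ≠ c)
    (hbc : b ≠ c) (ha : σ a = a ∨ σ a = b ∨ σ a = c) (hb : σ b = a ∨ σ b = b ∨ σ b = c)
    (hc : σ c = a ∨ σ c = b ∨ σ c = c) (h1 : σ.SameCycle a b) (h2 : σ.SameCycle a c) :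
    (σ a = b ∧ σ b = c ∧ σ c = a) ∨ (σ c = b ∧ σ b = a ∧ σ a = c) := by
  have fix : ∀ x y : D, σ x = x → σ.SameCycle x y → x = y := by
    intro x y hx hxy
    obtain ⟨n, hn⟩ := hxy.exists_nat_pow_eq
    rw [← hn]
    clear hn
    induction n with
    | zero => rfl
    | succ n ih => rw [pow_succ, Perm.mul_apply, hx, ← ih]
  have two : ∀ x y z : D, σ x = y → σ y = x → σ.SameCycle x z → z = x ∨ z = y := by
    intro x y z hx hy hxz
    obtain ⟨n, hn⟩ := hxz.exists_nat_pow_eq
    have key : ∀ n : ℕ, (σ ^ n) x = x ∨ (σ ^ n) x = y := by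
      intro n
      induction n with
      | zero => left; rfl
      | succ n ih =>
        rw [pow_succ', Perm.mul_apply]
        rcases ih with ih | ih
        · right; rw [ih, hx]
        · left; rw [ih, hy]
    rcases key n with h | h
    · left; rw [← hn, h]
    · right; rw [← hn, h]
  rcases ha with ha | ha | ha
  · exact absurd (fix a b ha h1) hab
  · rcases hb with hb | hb | hb
    · rcases two a b c ha hb h2 with h | h
      · exact absurd h.symm hac
      · exact absurd h.symm hbc
    · exact absurd (σ.injective (ha.trans hb.symm)) hab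
    · rcases hc with hc | hc | hc
      · exact Or.inl ⟨ha, hb, hc⟩
      · exact absurd (σ.injective (ha.trans hc.symm)) hac
      · exact absurd (σ.injective (hb.trans hc.symm)) hbc
  · rcases hc with hc | hc | hc
    · rcases two a c b ha hc h1 with h | h
      · exact absurd h.symm hab
      · exact absurd h hbc
    · rcases hb with hb | hb | hb
      · exact Or.inr ⟨hc, hb, ha⟩
      · exact absurd (σ.injective (hb.trans hc.symm)) hbc
      · exact absurd (σ.injective (hb.trans ha.symm)).symm hab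
    · exact absurd (σ.injective (ha.trans hc.symm)) hac

theorem finite_dart {V : Type} [Finite V] (G : SimpleGraph V) : Finite G.Dart :=
  Finite.of_injective (fun d : G.Dart => d.toProd) (fun _ _ h => SimpleGraph.Dart.ext _ _ h)

theorem fst_pow {V : Type} {G : SimpleGraph V} (R : Rotation G) (n : ℕ) (d : G.Dart) :
    ((R.next ^ n) d).fst = d.fst := by
  induction n with
  | zero => rfl
  | succ n ih => rw [pow_succ', Perm.mul_apply, R.fst_next, ih]

theorem sameCycle_iff {V : Type} [Finite V] {G : SimpleGraph V} (R : Rotation G) (d e : G.Dart) :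
    R.next.SameCycle d e ↔ d.fst = e.fst := by
  have := finite_dart G
  constructor
  · intro h
    obtain ⟨n, hn⟩ := h.exists_nat_pow_eq
    rw [← hn, fst_pow]
  · exact R.cyclic d e

/-- counting darts -/
theorem card_GT {D : Type} [Finite D] {σ α : Perm D} {s n p : Fin 4 → D} {side : Fin 4 → Bool}
    (h : GMap σ α s n p side) : Nat.card {d : D // GT α s n p d} + 16 ≤ Nat.card D := by
  have hinj : Function.Injective (fun x : {d : D // GT α s n p d} ⊕ (Fin 4 × Fin 4) =>
      match x with
      | Sum.inl d => d.1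
      | Sum.inr (0, i) => s i
      | Sum.inr (1, i) => α (s i)
      | Sum.inr (2, i) => n i
      | Sum.inr (3, i) => p i) := by
    rintro (x | ⟨a, i⟩) (y | ⟨b, j⟩) hxy
    · exact congrArg Sum.inl (Subtype.ext hxy)
    · exfalso
      fin_cases b
      · exact (x.2 j).1 hxy
      · exact (x.2 j).2.1 hxy
      · exact (x.2 j).2.2.1 hxy
      · exact (x.2 j).2.2.2 hxy
    · exfalso
      fin_cases a
      · exact (y.2 i).1 hxy.symm
      · exact (y.2 i).2.1 hxy.symm
      · exact (y.2 i).2.2.1 hxy.symm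
      · exact (y.2 i).2.2.2 hxy.symm
    · fin_cases a <;> fin_cases b
      · rw [h.inj_s hxy]
      · exact absurd hxy (h.s_s' i j)
      · exact absurd hxy (h.s_n i j)
      · exact absurd hxy (h.s_p i j)
      · exact absurd hxy.symm (h.s_s' j i)
      · rw [h.inj_s (α.injective hxy)]
      · exact absurd hxy.symm (h.n_s' j i)
      · exact absurd hxy.symm (h.p_s' j i)
      · exact absurd hxy.symm (h.s_n j i)
      · exact absurd hxy (h.n_s' i j)
      · rw [h.inj_n hxy]
      · exact absurd hxy (h.n_p i j)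
      · exact absurd hxy.symm (h.s_p j i)
      · exact absurd hxy (h.p_s' i j)
      · exact absurd hxy.symm (h.n_p j i)
      · rw [h.inj_p hxy]
  have h1 := Nat.card_le_card_of_injective _ hinj
  rw [Nat.card_sum, Nat.card_prod, Nat.card_eq_fintype_card (α := Fin 4)] at h1
  simpa using h1

/-- connectivity -/
theorem card_orb_le_one {D V : Type} [Finite D] (X : SimpleGraph V) (σ α : Perm D) (f : D → V)
    (hσ : ∀ d e, f d = f e → σ.SameCycle d e) (hadj : ∀ a b, X.Adj a b → ∃ d, f d = a ∧ f (α d) = b)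
    (hconn : ∀ d e, X.Reachable (f d) (f e)) : Nat.card (Quotient (orb σ α)) ≤ 1 := by
  have h1 : ∀ x y : D, f x = f y → (orb σ α) x y := fun x y hxy =>
    (le_sup_left : Perm.SameCycle.setoid σ ≤ orb σ α) (hσ x y hxy)
  have h2 : ∀ x : D, (orb σ α) x (α x) := fun x =>
    (le_sup_right : Perm.SameCycle.setoid α ≤ orb σ α) ⟨1, by simp⟩
  have key : ∀ a b : V, X.Reachable a b → ∀ x y : D, f x = a → f y = b → (orb σ α) x y := by
    intro a b hab
    obtain ⟨w⟩ := hab
    induction w with
    | nil => intro x y hx hy; exact h1 x y (hx.trans hy.symm)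
    | cons hadj' w ih =>
      intro x y hx hy
      obtain ⟨d, hd1, hd2⟩ := hadj _ _ hadj'
      exact (orb σ α).trans (h1 x d (hx.trans hd1.symm))
        ((orb σ α).trans (h2 d) (ih _ y hd2 hy))
  have : Subsingleton (Quotient (orb σ α)) := by
    constructor
    intro q r
    induction q using Quotient.inductionOn
    induction r using Quotient.inductionOn
    exact Quotient.sound (key _ _ (hconn _ _) _ _ rfl rfl)
  exact Finite.card_le_one_iff_subsingleton.mpr this

section cases

variable {V : Type} [Finite V] {G : SimpleGraph V} {g : Fin 4 → V} {u v : V} {k : ℕ}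
  (R : Rotation G) {s n p : Fin 4 → G.Dart} {side : Fin 4 → Bool}
  (h : GMap R.next (flip G) s n p side)
  (hT : ∀ d, GT (flip G) s n p d ↔ (off G g).Adj d.fst d.snd)
  (hs0 : (s 0).snd = v) (hs1 : (s 1).snd = u) (hs2 : (s 2).snd = v) (hs3 : (s 3).snd = u)
  (huv : u ≠ v)
  (hconn : ∀ a b, (∃ w, (off G g).Adj a w) → (∃ w, (off G g).Adj b w) → (off G g).Reachable a b)
  (hu : ∃ w, (off G g).Adj u w) (hv : ∃ w, (off G g).Adj v w)
  (hR : (Nat.card G.Dart : ℤ) - 2 * (ncyc R.next : ℤ) - 2 * (ncyc (R.next * flip G) : ℤ) ≤ 4 * k)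

include h hT hs0 hs1 hs2 hs3 hconn hu hv hR in
theorem mixed (hmix : (∃ i, side i = true) ∧ (∃ i, side i = false)) : Embeds (off G g) k := by
  have := finite_dart G
  apply Real.embeds
  have hfst : ∀ x : {d : G.Dart // GT (flip G) s n p d}, ∃ w, (off G g).Adj x.1.fst w :=
    fun x => ⟨_, (hT _).mp x.2⟩
  have ht : ∀ w : V, (∃ w', (off G g).Adj w w') → ∃ t : G.Dart, GT (flip G) s n p t ∧ t.fst = w := by
    rintro w ⟨w', hw'⟩
    exact ⟨⟨(w, w'), hw'.1⟩, (hT _).mpr hw', rfl⟩
  have hterm : ∀ i, (s i).snd = u ∨ (s i).snd = v := by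
    intro i
    fin_cases i
    · exact Or.inr hs0
    · exact Or.inl hs1
    · exact Or.inr hs2
    · exact Or.inl hs3
  have htv : ∀ i, ∃ t, GT (flip G) s n p t ∧ R.next.SameCycle (flip G (s i)) t := by
    intro i
    have h1 : ∃ w', (off G g).Adj (s i).snd w' := by
      rcases hterm i with e | e <;> rw [e] <;> assumption
    obtain ⟨t, ht1, ht2⟩ := ht _ h1
    exact ⟨t, ht1, (sameCycle_iff R _ _).mpr ht2.symm⟩
  have hV := N1_verts h htv
  have hF := N1_faces h ((sameCycle_iff R _ _).mpr (hs0.trans hs2.symm))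
    ((sameCycle_iff R _ _).mpr (hs1.trans hs3.symm)) (htv 0) (htv 1) hmix
  have hD := card_GT h
  have hadj : ∀ a b, (off G g).Adj a b → ∃ d : {d : G.Dart // GT (flip G) s n p d},
      d.1.fst = a ∧ (resInv (flip G) (GT (flip G) s n p) h.inv (GT_inv h) d).1.fst = b := by
    intro a b hab
    exact ⟨⟨⟨(a, b), hab.1⟩, (hT _).mpr hab⟩, rfl, rfl⟩
  refine ⟨{d : G.Dart // GT (flip G) s n p d}, inferInstance, ret R.next (GT (flip G) s n p),
    resInv (flip G) (GT (flip G) s n p) h.inv (GT_inv h), fun d => some d.1.fst, ?_, ?_, ?_, ?_,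
    ?_, ?_⟩
  · intro d
    exact Subtype.ext (h.inv _)
  · intro d hd
    exact h.fp d.1 (congrArg Subtype.val hd)
  · intro d
    exact congrArg some (by rw [ret_apply, fst_pow])
  · intro d e w hd he
    rw [ret_sameCycle, sameCycle_iff]
    exact Option.some_injective _ (hd.trans he.symm)
  · intro a b hab
    obtain ⟨d, hd1, hd2⟩ := hadj a b hab
    exact ⟨d, congrArg some hd1, congrArg some hd2⟩
  · have hc := card_orb_le_one (off G g) (ret R.next (GT (flip G) s n p))
      (resInv (flip G) (GT (flip G) s n p) h.inv (GT_inv h)) (fun d => d.1.fst)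
      (fun d e hde => (ret_sameCycle _ _ _ _).mpr ((sameCycle_iff R _ _).mpr hde)) hadj
      (fun d e => hconn _ _ (hfst d) (hfst e))
    unfold gam
    omega

open Classical in
include h hT hs0 hs1 hs2 hs3 huv hconn hu hv hR in
theorem allL (hside : ∀ i, side i = true) : Embeds (ident (off G g) u v) k := by
  have := finite_dart G
  apply Real.embeds
  have hfst : ∀ x : {d : G.Dart // GT (flip G) s n p d}, ∃ w, (off G g).Adj x.1.fst w :=
    fun x => ⟨_, (hT _).mp x.2⟩
  have ht : ∀ w : V, (∃ w', (off G g).Adj w w') → ∃ t : G.Dart, GT (flip G) s n p t ∧ t.fst = w := by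
    rintro w ⟨w', hw'⟩
    exact ⟨⟨(w, w'), hw'.1⟩, (hT _).mpr hw', rfl⟩
  have htv : ∃ t, GT (flip G) s n p t ∧ R.next.SameCycle (flip G (s 0)) t := by
    obtain ⟨t, ht1, ht2⟩ := ht _ hv
    exact ⟨t, ht1, (sameCycle_iff R _ _).mpr (hs0.trans ht2.symm)⟩
  have htu : ∃ t, GT (flip G) s n p t ∧ R.next.SameCycle (flip G (s 1)) t := by
    obtain ⟨t, ht1, ht2⟩ := ht _ hu
    exact ⟨t, ht1, (sameCycle_iff R _ _).mpr (hs1.trans ht2.symm)⟩
  have e1 := (sameCycle_iff R (flip G (s 0)) (flip G (s 2))).mpr (hs0.trans hs2.symm)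
  have e2 := (sameCycle_iff R (flip G (s 1)) (flip G (s 3))).mpr (hs1.trans hs3.symm)
  have e3 : ¬ R.next.SameCycle (flip G (s 0)) (flip G (s 1)) := by
    rw [sameCycle_iff]
    intro e
    exact huv (hs1.symm.trans (e.symm.trans hs0))
  have hV := N2_verts h e1 e2 htv htu e3 hside
  have hF := N2_faces h e1 e2 htv htu e3 hside
  have hM := N2_merge h e1 e2 htv htu e3 hside
  have hD := card_GT h
  set T := GT (flip G) s n p with hTdef
  set σ'' := ret (R.next * flip G) T * resInv (flip G) T h.inv (GT_inv h) with hσ''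
  set α' := resInv (flip G) T h.inv (GT_inv h) with hα'
  have hαα : ∀ d, α' (α' d) = d := fun d => Subtype.ext (h.inv _)
  have hface : σ'' * α' = ret (R.next * flip G) T := by
    rw [hσ'', mul_assoc]
    have : α' * α' = 1 := by
      ext1 d
      exact hαα d
    rw [this, mul_one]
  have hM' : ∀ x y : {d : G.Dart // T d}, σ''.SameCycle x y ↔
      (x.1.fst = y.1.fst ∨ ((x.1.fst = v ∨ x.1.fst = u) ∧ (y.1.fst = v ∨ y.1.fst = u))) := by
    intro x y
    rw [hM x y, sameCycle_iff, sameCycle_iff, sameCycle_iff, sameCycle_iff, sameCycle_iff]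
    have e4 : (flip G (s 0)).fst = v := hs0
    have e5 : (flip G (s 1)).fst = u := hs1
    rw [e4, e5]
    constructor
    · rintro (h' | ⟨h1, h2⟩)
      · exact Or.inl h'
      · exact Or.inr ⟨h1.imp Eq.symm Eq.symm, h2.imp Eq.symm Eq.symm⟩
    · rintro (h' | ⟨h1, h2⟩)
      · exact Or.inl h'
      · exact Or.inr ⟨h1.imp Eq.symm Eq.symm, h2.imp Eq.symm Eq.symm⟩
  have hadj : ∀ a b, (off G g).Adj a b → ∃ d : {d : G.Dart // T d},
      d.1.fst = a ∧ (α' d).1.fst = b := by
    intro a b hab
    exact ⟨⟨⟨(a, b), hab.1⟩, (hT _).mpr hab⟩, rfl, rfl⟩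
  set lb : V → V := fun w => if w = v then u else w with hlb
  have hlb1 : ∀ w w', lb w = lb w' ↔ (w = w' ∨ ((w = v ∨ w = u) ∧ (w' = v ∨ w' = u))) := by
    intro w w'
    by_cases h1 : w = v <;> by_cases h2 : w' = v
    · simp only [hlb, if_pos h1, if_pos h2]
      exact ⟨fun _ => Or.inr ⟨Or.inl h1, Or.inl h2⟩, fun _ => trivial⟩
    · simp only [hlb, if_pos h1, if_neg h2]
      constructor
      · intro h3
        exact Or.inr ⟨Or.inl h1, Or.inr h3.symm⟩
      · rintro (h3 | ⟨_, h3 | h3⟩)
        · exact absurd (h3.symm.trans h1) h2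
        · exact absurd h3 h2
        · exact h3.symm
    · simp only [hlb, if_neg h1, if_pos h2]
      constructor
      · intro h3
        exact Or.inr ⟨Or.inr h3, Or.inl h2⟩
      · rintro (h3 | ⟨h3 | h3, _⟩)
        · exact absurd (h3.trans h2) h1
        · exact absurd h3 h1
        · exact h3
    · simp only [hlb, if_neg h1, if_neg h2]
      constructor
      · intro h3
        exact Or.inl h3
      · rintro (h3 | ⟨h3 | h3, h4 | h4⟩)
        · exact h3
        · exact absurd h3 h1
        · exact absurd h3 h1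
        · exact absurd h4 h2
        · exact h3.trans h4.symm
  have hl1 : ∀ w, w ≠ v → lb w = w := fun w hw => if_neg hw
  have hl2 : lb v = u := if_pos rfl
  have hsc : ∀ x y : {d : G.Dart // T d}, lb x.1.fst = lb y.1.fst ↔ σ''.SameCycle x y := by
    intro x y
    rw [hM', hlb1]
  refine ⟨{d : G.Dart // T d}, inferInstance, σ'', α', fun d => some (lb d.1.fst), hαα, ?_, ?_,
    ?_, ?_, ?_⟩
  · intro d hd
    exact h.fp d.1 (congrArg Subtype.val hd)
  · intro d
    exact congrArg some ((hsc _ _).mpr ⟨-1, by simp⟩)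
  · intro d e w hd he
    exact (hsc _ _).mp (Option.some_injective _ (hd.trans he.symm))
  · intro a b hab
    obtain ⟨_, hav, hbv, hab'⟩ := hab
    rcases hab' with h1 | ⟨h1, h2⟩ | ⟨h1, h2⟩
    · obtain ⟨d, hd1, hd2⟩ := hadj a b h1
      exact ⟨d, congrArg some (by rw [hd1, hl1 a hav]), congrArg some (by rw [hd2, hl1 b hbv])⟩
    · obtain ⟨d, hd1, hd2⟩ := hadj v b h2
      exact ⟨d, congrArg some (by rw [hd1, hl2, h1]), congrArg some (by rw [hd2, hl1 b hbv])⟩
    · obtain ⟨d, hd1, hd2⟩ := hadj a v h2.symm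
      exact ⟨d, congrArg some (by rw [hd1, hl1 a hav]), congrArg some (by rw [hd2, hl2, h1])⟩
  · have hc := card_orb_le_one (off G g) σ'' α' (fun d => d.1.fst)
      (fun d e hde => (hM' d e).mpr (Or.inl hde)) hadj
      (fun d e => hconn _ _ (hfst d) (hfst e))
    unfold gam
    rw [hface]
    omega

end cases

section build

variable {V : Type} {G : SimpleGraph V} {g : Fin 4 → V} {u v : V} (hg : Gadget G g u v)

/-- the terminals -/
def tt (u v : V) (i : Fin 4) : V := if i = 0 ∨ i = 2 then v else u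

include hg in
theorem tt_ne (i j : Fin 4) : tt u v i ≠ g j := by
  unfold tt
  split_ifs
  · exact (hg.hv j).symm
  · exact (hg.hu j).symm

/-- spokes -/
def sd (i : Fin 4) : G.Dart := ⟨(g i, tt u v i), (hg.adj i _).mpr (Or.inr (Or.inr rfl))⟩

/-- darts of the 4-cycle -/
def nd (i : Fin 4) : G.Dart := ⟨(g i, g (i + 1)), (hg.adj i _).mpr (Or.inl rfl)⟩

/-- darts of the 4-cycle -/
def pd (i : Fin 4) : G.Dart := ⟨(g i, g (i - 1)), (hg.adj i _).mpr (Or.inr (Or.inl rfl))⟩

theorem dart_ext {d e : G.Dart} (h1 : d.fst = e.fst) (h2 : d.snd = e.snd) : d = e :=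
  SimpleGraph.Dart.ext _ _ (Prod.ext h1 h2)

theorem cases_at (d : G.Dart) (i : Fin 4) (h : d.fst = g i) :
    d = nd hg i ∨ d = pd hg i ∨ d = sd hg i := by
  have h1 : G.Adj (g i) d.snd := h ▸ d.adj
  rcases (hg.adj i _).mp h1 with h2 | h2 | h2
  · exact Or.inl (dart_ext h h2)
  · exact Or.inr (Or.inl (dart_ext h h2))
  · exact Or.inr (Or.inr (dart_ext h h2))

theorem i_ne (i : Fin 4) : i + 1 ≠ i - 1 := by revert i; decide

theorem p_ne_s (i : Fin 4) : pd hg i ≠ sd hg i := by
  intro h
  exact tt_ne hg i (i - 1) (congrArg (fun d : G.Dart => d.snd) h).symm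

theorem n_ne_s (i : Fin 4) : nd hg i ≠ sd hg i := by
  intro h
  exact tt_ne hg i (i + 1) (congrArg (fun d : G.Dart => d.snd) h).symm

theorem n_ne_p (i : Fin 4) : nd hg i ≠ pd hg i := by
  intro h
  exact i_ne i (hg.inj (congrArg (fun d : G.Dart => d.snd) h))

theorem two_cases [Finite V] (R : Rotation G) (i : Fin 4) :
    (R.next (pd hg i) = sd hg i ∧ R.next (sd hg i) = nd hg i ∧ R.next (nd hg i) = pd hg i) ∨
    (R.next (nd hg i) = sd hg i ∧ R.next (sd hg i) = pd hg i ∧ R.next (pd hg i) = nd hg i) := by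
  have := finite_dart G
  have key : ∀ d : G.Dart, d.fst = g i →
      R.next d = pd hg i ∨ R.next d = sd hg i ∨ R.next d = nd hg i := by
    intro d hd
    rcases cases_at hg (R.next d) i ((R.fst_next d).trans hd) with h | h | h
    · exact Or.inr (Or.inr h)
    · exact Or.inl h
    · exact Or.inr (Or.inl h)
  exact three_cycle R.next (p_ne_s hg i) (n_ne_p hg i).symm (n_ne_s hg i).symm (key _ rfl)
    (key _ rfl) (key _ rfl) (R.cyclic _ _ rfl) (R.cyclic _ _ rfl)

theorem gmap [Finite V] (R : Rotation G) (side : Fin 4 → Bool)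
    (hL : ∀ i, side i = true →
      R.next (pd hg i) = sd hg i ∧ R.next (sd hg i) = nd hg i ∧ R.next (nd hg i) = pd hg i)
    (hR : ∀ i, side i = false →
      R.next (nd hg i) = sd hg i ∧ R.next (sd hg i) = pd hg i ∧ R.next (pd hg i) = nd hg i) :
    GMap R.next (flip G) (sd hg) (nd hg) (pd hg) side where
  inv d := SimpleGraph.Dart.symm_symm d
  fp d := SimpleGraph.Dart.symm_ne d
  hn i := dart_ext rfl (by
    change g i = g (i + 1 - 1)
    rw [add_sub_cancel_right])
  hL := hL
  hR := hR
  inj_s i j h := hg.inj (congrArg (fun d : G.Dart => d.fst) h)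
  inj_n i j h := hg.inj (congrArg (fun d : G.Dart => d.fst) h)
  inj_p i j h := hg.inj (congrArg (fun d : G.Dart => d.fst) h)
  s_n i j h := tt_ne hg i (j + 1) (congrArg (fun d : G.Dart => d.snd) h)
  s_p i j h := tt_ne hg i (j - 1) (congrArg (fun d : G.Dart => d.snd) h)
  n_p i j h := by
    have h1 : i = j := hg.inj (congrArg (fun d : G.Dart => d.fst) h)
    subst h1
    exact n_ne_p hg i h
  s_s' i j h := tt_ne hg j i (congrArg (fun d : G.Dart => d.fst) h).symm
  n_s' i j h := tt_ne hg j i (congrArg (fun d : G.Dart => d.fst) h).symm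
  p_s' i j h := tt_ne hg j i (congrArg (fun d : G.Dart => d.fst) h).symm

theorem GT_iff (d : G.Dart) :
    GT (flip G) (sd hg) (nd hg) (pd hg) d ↔ (off G g).Adj d.fst d.snd := by
  constructor
  · intro h
    refine ⟨d.adj, ?_, ?_⟩
    · intro i hi
      rcases cases_at hg d i hi.symm with e | e | e
      · exact (h i).2.2.1 e
      · exact (h i).2.2.2 e
      · exact (h i).1 e
    · intro i hi
      rcases cases_at hg d.symm i hi.symm with e | e | e
      · apply (h (i + 1)).2.2.2
        refine dart_ext ?_ ?_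
        · exact congrArg (fun d : G.Dart => d.snd) e
        · have := congrArg (fun d : G.Dart => d.fst) e
          change d.snd = g (i + 1 - 1)
          rw [add_sub_cancel_right]
          exact this
      · apply (h (i - 1)).2.2.1
        refine dart_ext ?_ ?_
        · exact congrArg (fun d : G.Dart => d.snd) e
        · have := congrArg (fun d : G.Dart => d.fst) e
          change d.snd = g (i - 1 + 1)
          rw [sub_add_cancel]
          exact this
      · apply (h i).2.1
        have := congrArg (fun d : G.Dart => d.symm) e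
        exact (SimpleGraph.Dart.symm_symm d).symm.trans this
  · rintro ⟨_, h1, h2⟩ i
    refine ⟨?_, ?_, ?_, ?_⟩
    · rintro rfl
      exact h1 i rfl
    · rintro rfl
      exact h2 i rfl
    · rintro rfl
      exact h1 i rfl
    · rintro rfl
      exact h1 i rfl

end build

end Gad

open Gad in
theorem gadget_dichotomy {V : Type} [Finite V] (G : SimpleGraph V) (g : Fin 4 → V) (u v : V)
    (hg : Gadget G g u v) (k : ℕ)
    (hconn : ∀ a b, (∃ w, (off G g).Adj a w) → (∃ w, (off G g).Adj b w) →
      (off G g).Reachable a b)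
    (hu : ∃ w, (off G g).Adj u w) (hv : ∃ w, (off G g).Adj v w)
    (h : Embeds G (k + 1)) : Embeds (off G g) k ∨ Embeds (ident (off G g) u v) k := by
  have := finite_dart G
  obtain ⟨R, hR⟩ := h
  have hgam := gam_rotation G R
  have hc : 1 ≤ Nat.card (Quotient (orb R.next (flip G))) := by
    rw [Nat.one_le_iff_ne_zero, ← Nat.pos_iff_ne_zero, Nat.card_pos_iff]
    exact ⟨⟨Quotient.mk _ (sd hg 0)⟩, inferInstance⟩
  have hR' : (Nat.card G.Dart : ℤ) - 2 * (ncyc R.next : ℤ) - 2 * (ncyc (R.next * flip G) : ℤ) ≤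
      4 * k := by
    unfold gam at hgam
    unfold Rotation.face at hgam hR
    omega
  classical
  set side : Fin 4 → Bool := fun i => decide (R.next (pd hg i) = sd hg i) with hside
  have hL : ∀ i, side i = true →
      R.next (pd hg i) = sd hg i ∧ R.next (sd hg i) = nd hg i ∧ R.next (nd hg i) = pd hg i := by
    intro i hi
    have h1 : R.next (pd hg i) = sd hg i := by simpa [hside] using hi
    rcases two_cases hg R i with h2 | h2
    · exact h2
    · exact absurd (h2.2.2.symm.trans h1) (n_ne_s hg i)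
  have hRR : ∀ i, side i = false →
      R.next (nd hg i) = sd hg i ∧ R.next (sd hg i) = pd hg i ∧ R.next (pd hg i) = nd hg i := by
    intro i hi
    have h1 : ¬ R.next (pd hg i) = sd hg i := by simpa [hside] using hi
    rcases two_cases hg R i with h2 | h2
    · exact absurd h2.1 h1
    · exact h2
  have hgm := gmap hg R side hL hRR
  by_cases hall : ∀ i, side i = true
  · right
    exact allL R hgm (GT_iff hg) rfl rfl rfl rfl hg.huv hconn hu hv hR' hall
  by_cases hall' : ∀ i, side i = false
  · right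
    have hneg : ∀ i : Fin 4, -(i + 1) + 1 = -i := by decide
    have hgm' : GMap R.next (flip G) (fun i => sd hg (-i)) (fun i => pd hg (-i))
        (fun i => nd hg (-i)) (fun _ => true) :=
      { inv := hgm.inv
        fp := hgm.fp
        hn := by
          intro i
          have h1 := hgm.hn (-(i + 1))
          rw [hneg] at h1
          have h2 := congrArg (flip G) h1
          rw [hgm.inv] at h2
          exact h2.symm
        hL := by
          intro i _
          have h1 := hRR (-i) (hall' _)
          exact ⟨h1.1, h1.2.1, h1.2.2⟩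
        hR := by
          intro i hi
          exact absurd hi (by simp)
        inj_s := fun i j hij => neg_injective (hgm.inj_s hij)
        inj_n := fun i j hij => neg_injective (hgm.inj_p hij)
        inj_p := fun i j hij => neg_injective (hgm.inj_n hij)
        s_n := fun i j => hgm.s_p _ _
        s_p := fun i j => hgm.s_n _ _
        n_p := fun i j => (hgm.n_p _ _).symm
        s_s' := fun i j => hgm.s_s' _ _
        n_s' := fun i j => hgm.p_s' _ _
        p_s' := fun i j => hgm.n_s' _ _ }
    have hGT : ∀ d, GT (flip G) (fun i => sd hg (-i)) (fun i => pd hg (-i))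
        (fun i => nd hg (-i)) d ↔ (off G g).Adj d.fst d.snd := by
      intro d
      rw [← GT_iff hg]
      constructor
      · intro h1 i
        have h2 := h1 (-i)
        simp only [neg_neg] at h2
        exact ⟨h2.1, h2.2.1, h2.2.2.2, h2.2.2.1⟩
      · intro h1 i
        have h2 := h1 (-i)
        exact ⟨h2.1, h2.2.1, h2.2.2.2, h2.2.2.1⟩
    exact allL R hgm' hGT rfl rfl rfl rfl hg.huv hconn hu hv hR' (fun _ => rfl)
  · left
    push Not at hall hall'
    refine mixed R hgm (GT_iff hg) rfl rfl rfl rfl hconn hu hv hR' ⟨?_, ?_⟩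
    · obtain ⟨i, hi⟩ := hall'
      exact ⟨i, by simpa using hi⟩
    · obtain ⟨i, hi⟩ := hall
      exact ⟨i, by simpa using hi⟩

end Hopper
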