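import Pool.Agent.Work.MP_85d607_co.Gadget
import Pool.Agent.Work.MP_85d607_co.Euler
import Pool.Agent.Work.MP_85d607_co.Conc
import Pool.Agent.Work.MP_85d607_co.Count

/-!
# The lower bound: the graph `G28 + xy` has genus at least 9
-/

namespace Hopper

/-- level functions -/
def lev (l : List ℤ) (v : Fin 28) : ℤ := l.getD v.val 100

def lev1 : List ℤ := [0, 1, 1, 1, 2, 2, 2, 2, 3, 3, 3, 4, 4, 4, 4, 5, 5, 5, 6, 4]
def lev2 : List ℤ := [0, 1, 1, 1, 2, 2, 2, 2, 1, 1, 1, 2, 2, 2, 2, 3, 3, 3, 4]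
def lev4 : List ℤ := [0, 1, 1, 1, 2, 2, 2, 2, 1, 1, 1, 2, 2, 2, 2, 1, 1, 1]
def lev3 : List ℤ := [4, 3, 3, 3, 2, 2, 2, 2, 1, 1, 1, 2, 2, 2, 2, 1, 1, 1, 0]

theorem Q1_not : ¬ Embeds Q1 6 := by
  rintro ⟨R, hR⟩
  have hE : 2 * nedges Q1 = 116 := by rw [two_nedges_eq]; decide +kernel
  have hV : nverts Q1 = 20 := by rw [nverts_eq]; decide +kernel
  have hc := ncomps_pos Q1 (a := 0) (b := 18) (by decide +kernel)
  have := euler_special Q1 (lev lev1) 0 18 6 (by norm_num) (by norm_num) (by decide +kernel)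
    (by decide +kernel) (by decide +kernel) (by decide +kernel) (by decide +kernel)
    (by decide +kernel) (by decide +kernel) R
  omega

theorem Q2_not : ¬ Embeds Q2 6 := by
  rintro ⟨R, hR⟩
  have hE : 2 * nedges Q2 = 116 := by rw [two_nedges_eq]; decide +kernel
  have hV : nverts Q2 = 19 := by rw [nverts_eq]; decide +kernel
  have hc := ncomps_pos Q2 (a := 0) (b := 18) (by decide +kernel)
  have := euler_special Q2 (lev lev2) 0 18 4 (by norm_num) (by norm_num) (by decide +kernel)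
    (by decide +kernel) (by decide +kernel) (by decide +kernel) (by decide +kernel)
    (by decide +kernel) (by decide +kernel) R
  omega

theorem Q3_not : ¬ Embeds Q3 6 := by
  rintro ⟨R, hR⟩
  have hE : 2 * nedges Q3 = 116 := by rw [two_nedges_eq]; decide +kernel
  have hV : nverts Q3 = 19 := by rw [nverts_eq]; decide +kernel
  have hc := ncomps_pos Q3 (a := 0) (b := 18) (by decide +kernel)
  have := euler_special Q3 (lev lev3) 18 0 4 (by norm_num) (by norm_num) (by decide +kernel)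
    (by decide +kernel) (by decide +kernel) (by decide +kernel) (by decide +kernel)
    (by decide +kernel) (by decide +kernel) R
  omega

theorem Q4_not : ¬ Embeds Q4 6 := by
  rintro ⟨R, hR⟩
  have hE : 2 * nedges Q4 = 114 := by rw [two_nedges_eq]; decide +kernel
  have hV : nverts Q4 = 18 := by rw [nverts_eq]; decide +kernel
  have hc := ncomps_pos Q4 (a := 0) (b := 1) (by decide +kernel)
  have := euler_plain Q4 (lev lev4) (by decide +kernel) (by decide +kernel) R
  omega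

/-- parents towards vertex 8 -/
def parA : List ℕ :=
  [1, 4, 4, 4, 8, 8, 8, 8, 8, 4, 4, 8, 8, 8, 8, 11, 11, 11, 15, 8, 19, 19, 20, 20]
def rkA : List ℕ :=
  [3, 2, 2, 2, 1, 1, 1, 1, 0, 2, 2, 1, 1, 1, 1, 2, 2, 2, 3, 1, 2, 2, 3, 3]
/-- parents when 19 has been merged into 18 -/
def parB : List ℕ :=
  [1, 4, 4, 4, 8, 8, 8, 8, 8, 4, 4, 8, 8, 8, 8, 11, 11, 11, 8, 0, 18, 18, 20, 20]
def rkB : List ℕ :=
  [3, 2, 2, 2, 1, 1, 1, 1, 0, 2, 2, 1, 1, 1, 1, 2, 2, 2, 1, 0, 2, 2, 3, 3]

theorem conn1 : ∀ a b, (∃ w, P1.Adj a w) → (∃ w, P1.Adj b w) → P1.Reachable a b :=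
  reach_of_par P1 8 (parL parA) (rkL rkA) (by decide +kernel)
theorem conn2 : ∀ a b, (∃ w, Q1.Adj a w) → (∃ w, Q1.Adj b w) → Q1.Reachable a b :=
  reach_of_par Q1 8 (parL parA) (rkL rkA) (by decide +kernel)
theorem conn3 : ∀ a b, (∃ w, Q3.Adj a w) → (∃ w, Q3.Adj b w) → Q3.Reachable a b :=
  reach_of_par Q3 8 (parL parB) (rkL rkB) (by decide +kernel)

/-- `G + xy` does not embed in the surface of genus 8. -/
theorem G28p_not : ¬ Embeds G28p 8 := by
  intro h
  rcases gadget_dichotomy G28p gB 18 19 gadget1 7 conn1 (by decide +kernel) (by decide +kernel) h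
    with h1 | h2
  · rcases gadget_dichotomy P1 gA 0 19 gadget2 6 conn2 (by decide +kernel) (by decide +kernel) h1
      with h3 | h3
    · exact Q1_not h3
    · exact Q2_not h3
  · rcases gadget_dichotomy P2 gA 0 18 gadget3 6 conn3 (by decide +kernel) (by decide +kernel) h2
      with h3 | h3
    · exact Q3_not h3
    · exact Q4_not h3

end Hopper
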